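import Pool.Agent.Helper24.PR.Cnx
import Pool.Agent.Helper5.HB.Full
import Pool.Agent.Helper38.NS.Lin

/-! PROPER QUOTIENTS. Polynomial relations for images under affine maps with an inverse on the right, and for labels
over labels. -/

set_option autoImplicit false

namespace Pool.Agent.Helper24.PR

open Finset Filter Topology Matrix Pool.Agent.Helper69.RK Pool.Agent.Helper31.EC Pool.Agent.Helper31.EC.Sp
open Pool.Agent.Helper40.EL Pool.Agent.Helper89.LX Pool.Agent.Helper3.LF Pool.Agent.Helper84.MT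
open Pool.Agent.Helper5.HB Pool.Agent.Helper5.DO QS Pool.Agent.Helper38.NS

noncomputable section

variable {S T : Sp} {M M' D : ℕ}

/-- the degree does not grow under maps of the coefficients -/
theorem deg_map {A B : Type*} [CommRing A] [CommRing B] (f : A →+* B) {σ : Type*} (P : MvPolynomial σ A) {n : ℕ}
    (hn : P.totalDegree ≤ n) : (MvPolynomial.map f P).totalDegree ≤ n := by
  refine le_trans ?_ hn
  unfold MvPolynomial.totalDegree
  exact Finset.sup_mono (MvPolynomial.support_map_subset f P)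

/-- no relation: factors -/
theorem nr_of_qs (p : Pj T S) {σ : Type} {x : σ → QS S} {B : S.L} {r : ℝ} (hr : r ≤ 1)
    (h : NR D (fun i => p.qs (x i)) (p.map B) r) : NR D x B r := by
  intro P hd hP he m
  have h1 := h (MvPolynomial.map p.qs P) (deg_map p.qs P hd) (by
    intro m
    rw [MvPolynomial.coeff_map, p.qs_dg]
    exact p.map_mono (hP m)) (by
    have h2 : MvPolynomial.eval (fun i => p.qs (x i)) (MvPolynomial.map p.qs P) = p.qs (MvPolynomial.eval x P) :=
      (MvPolynomial.map_eval p.qs x P).symm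
    rw [h2, p.qs_mem_Id hr]
    exact he) m
  rw [MvPolynomial.coeff_map, p.qs_mem_Id hr] at h1
  exact h1

/-- no relation: images under affine maps with an inverse on the right -/
theorem nr_img {σ τ : Type} {x : σ → QS S} {B : S.L} {r : ℝ} (h : NR D x B r) (P : τ → MvPolynomial σ (QS S))
    (hP : ∀ i, P i ∈ PK B) (hd : ∀ i, (P i).totalDegree ≤ 1) (G : σ → MvPolynomial τ (QS S))
    (hG : ∀ i, MvPolynomial.bind₁ G (P i) = MvPolynomial.X i) :
    NR D (fun i => MvPolynomial.eval x (P i)) B r := by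
  intro R hR hRB he m
  have h1 := h (MvPolynomial.bind₁ P R) ((totalDegree_bind P hd R).trans hR) (bind_mem P hP hRB) (by
    rw [eval_bind]
    exact he)
  have h2 : MvPolynomial.bind₁ P R ∈ Ideal.map MvPolynomial.C (Id S r) := by
    rw [MvPolynomial.mem_map_C_iff]
    exact h1
  have h3 : MvPolynomial.bind₁ G (MvPolynomial.bind₁ P R) = R := by
    rw [MvPolynomial.bind₁_bind₁]
    have e1 : (fun i => MvPolynomial.bind₁ G (P i)) = MvPolynomial.X := funext hG
    rw [e1]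
    exact MvPolynomial.aeval_X_left_apply R
  have h4 : MvPolynomial.bind₁ G (MvPolynomial.bind₁ P R) ∈ Ideal.map MvPolynomial.C (Id S r) := by
    have h5 : (MvPolynomial.bind₁ G : MvPolynomial σ (QS S) →ₐ[QS S] MvPolynomial τ (QS S)).toRingHom
        (MvPolynomial.bind₁ P R) ∈ Ideal.map (MvPolynomial.bind₁ G).toRingHom
          (Ideal.map (MvPolynomial.C (σ := σ)) (Id S r)) := Ideal.mem_map_of_mem _ h2
    rw [Ideal.map_map] at h5
    have e2 : (MvPolynomial.bind₁ G : MvPolynomial σ (QS S) →ₐ[QS S] MvPolynomial τ (QS S)).toRingHom.comp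
        (MvPolynomial.C (σ := σ)) = MvPolynomial.C := by
      ext1 a
      exact MvPolynomial.bind₁_C_right G a
    rw [e2] at h5
    exact h5
  rw [h3, MvPolynomial.mem_map_C_iff] at h4
  exact h4 m

/-! ### affine maps known to the base -/

/-- AN AFFINE MAP `x ↦ A x + b` known to the base, tame, with a tame linear inverse `B` on the right -/
structure AfM (S : Sp) (M M' : ℕ) where
  A : ∀ k, (S.F k).Ω → Matrix (Fin M') (Fin M) ℝ
  b : ∀ k, (S.F k).Ω → Fin M' → ℝ
  B : ∀ k, (S.F k).Ω → Matrix (Fin M) (Fin M') ℝ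
  fn : ∀ᶠ k in UF, ∀ ω ω', (S.F k).μ ω ≠ 0 → (S.F k).μ ω' ≠ 0 → (S.F k).Z ω ω' →
    A k ω = A k ω' ∧ b k ω = b k ω' ∧ B k ω = B k ω'
  bd : ∃ K : ℕ → ℝ, S.Sub K ∧ ∀ᶠ k in UF, ∀ ω, (S.F k).μ ω ≠ 0 → (∀ i j, |A k ω i j| ≤ K k) ∧
    (∀ i, |b k ω i| ≤ K k) ∧ ∀ i j, |B k ω i j| ≤ K k
  inv : ∀ᶠ k in UF, ∀ ω, (S.F k).μ ω ≠ 0 → A k ω * B k ω = 1

namespace AfM

/-- as a polynomial map of degree one -/
def pm (f : AfM S M M') : PMap S M M' 1 := PMap.aff f.A f.b (by
    filter_upwards [f.fn] with k hk ω ω' a b c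
    exact ⟨(hk ω ω' a b c).1, (hk ω ω' a b c).2.1⟩) (by
    obtain ⟨K, hK, hb⟩ := f.bd
    refine ⟨K, hK, ?_⟩
    filter_upwards [hb] with k hk ω hω
    exact ⟨(hk ω hω).1, (hk ω hω).2.1⟩)

theorem pm_val (f : AfM S M M') (Q : S.VV M) (k : ℕ) (ω : (S.F k).Ω) :
    (f.pm.val Q).v k ω = (f.A k ω).mulVec (Q.v k ω) + f.b k ω := PMap.aff_ev _ _ _ _ k ω _

/-- in an extension -/
def pull (p : Pj T S) (f : AfM S M M') : AfM T M M' where
  A := fun k ω => f.A k (p.π k ω)
  b := fun k ω => f.b k (p.π k ω)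
  B := fun k ω => f.B k (p.π k ω)
  fn := by
    filter_upwards [f.fn] with k hk ω ω' h1 h2 h3
    exact hk _ _ (p.supp k ω h1) (p.supp k ω' h2) ((p.hZ k ω ω' h1 h2).1 h3)
  bd := by
    obtain ⟨K, hK, hb⟩ := f.bd
    refine ⟨K, p.sub hK, ?_⟩
    filter_upwards [hb] with k hk ω hω
    exact hk _ (p.supp k ω hω)
  inv := by
    filter_upwards [f.inv] with k hk ω hω
    exact hk _ (p.supp k ω hω)

/-- over a finer base -/
def chg (Z : ∀ k, Setoid (S.F k).Ω) (c : ℝ) (hc : 0 < c) (f : AfM S M M') : AfM (S.chg Z c hc) M M' where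
  A := f.A
  b := f.b
  B := f.B
  fn := by
    filter_upwards [f.fn] with k hk ω ω' h1 h2 h3
    exact hk _ _ h1 h2 h3.2
  bd := by
    obtain ⟨K, hK, hb⟩ := f.bd
    exact ⟨K, chg_sub Z c hc hK, hb⟩
  inv := f.inv

/-- on an event -/
def rest (E : ∀ k, (S.F k).Ω → Prop) (f : AfM S M M') : AfM (S.rest E) M M' where
  A := f.A
  b := f.b
  B := f.B
  fn := by
    filter_upwards [f.fn] with k hk ω ω' h1 h2 h3
    exact hk _ _ (((S.F k).rest_supp (E k) ω h1).1) (((S.F k).rest_supp (E k) ω' h2).1) h3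
  bd := by
    obtain ⟨K, hK, hb⟩ := f.bd
    refine ⟨K, hK, ?_⟩
    filter_upwards [hb] with k hk ω hω
    exact hk ω ((S.F k).rest_supp (E k) ω hω).1
  inv := by
    filter_upwards [f.inv] with k hk ω hω
    exact hk ω ((S.F k).rest_supp (E k) ω hω).1

/-- the entries as tame functions -/
def ta (f : AfM S M M') (i : Fin M') (j : Fin M) : TR S := ⟨fun k ω => f.A k ω i j, by
  obtain ⟨K, hK, hb⟩ := f.bd
  exact ⟨K, hK, hb.mono fun k h ω hω => (h ω hω).1 i j⟩⟩

def tb (f : AfM S M M') (i : Fin M') : TR S := ⟨fun k ω => f.b k ω i, by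
  obtain ⟨K, hK, hb⟩ := f.bd
  exact ⟨K, hK, hb.mono fun k h ω hω => (h ω hω).2.1 i⟩⟩

def tB (f : AfM S M M') (j : Fin M) (i : Fin M') : TR S := ⟨fun k ω => f.B k ω j i, by
  obtain ⟨K, hK, hb⟩ := f.bd
  exact ⟨K, hK, hb.mono fun k h ω hω => (h ω hω).2.2 j i⟩⟩

end AfM

/-- functions of the base have no digits -/
theorem dg_base' (f : TR S) (h : ∀ᶠ k in UF, ∀ ω ω', (S.F k).μ ω ≠ 0 → (S.F k).μ ω' ≠ 0 → (S.F k).Z ω ω' →
    TR.ev f k ω = TR.ev f k ω') (r : ℝ) : TR.dg f r ≤ ⊥ := by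
  rw [← cl_bot]
  refine TR.dg_le_cl f r Inf.bot (fun _ _ => True) Typ_true (fun _ => 0) (S.Sub_const le_rfl) ?_
  filter_upwards [h] with k hk ω ω' a b _ _ hz _
  rw [hk ω ω' a b hz, sub_self, abs_zero]
  have := (S.dl_pos r k).le
  positivity

namespace AfM

/-- the polynomials of the map -/
def qp (f : AfM S M M') (i : Fin M') : MvPolynomial (Fin M) (QS S) :=
  ∑ j, MvPolynomial.C (QS.mk (f.ta i j)) * MvPolynomial.X j + MvPolynomial.C (QS.mk (f.tb i))

/-- the polynomials of the inverse on the right -/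
def qg (f : AfM S M M') (j : Fin M) : MvPolynomial (Fin M') (QS S) :=
  ∑ i, MvPolynomial.C (QS.mk (f.tB j i)) * (MvPolynomial.X i - MvPolynomial.C (QS.mk (f.tb i)))

theorem qp_PK (f : AfM S M M') (i : Fin M') : f.qp i ∈ PK ⊥ := by
  refine (PK ⊥).add_mem ((PK ⊥).sum_mem fun j _ => (PK ⊥).mul_mem (C_mem ?_) (X_mem _ j)) (C_mem ?_)
  · rw [dg_mk _ le_rfl]
    apply dg_base'
    filter_upwards [f.fn] with k hk ω ω' a b c
    show f.A k ω i j = f.A k ω' i j
    rw [(hk ω ω' a b c).1]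
  · rw [dg_mk _ le_rfl]
    apply dg_base'
    filter_upwards [f.fn] with k hk ω ω' a b c
    show f.b k ω i = f.b k ω' i
    rw [(hk ω ω' a b c).2.1]

theorem qp_deg (f : AfM S M M') (i : Fin M') : (f.qp i).totalDegree ≤ 1 := by
  refine (MvPolynomial.totalDegree_add _ _).trans (max_le ?_ ?_)
  · refine (MvPolynomial.totalDegree_finsetSum _ _).trans (Finset.sup_le fun j _ => ?_)
    refine (MvPolynomial.totalDegree_mul _ _).trans ?_
    rw [MvPolynomial.totalDegree_C, zero_add]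
    have : Nontrivial (QS S) ∨ Subsingleton (QS S) := (subsingleton_or_nontrivial _).symm
    rcases this with h | h
    · exact (MvPolynomial.totalDegree_X j).le
    · rw [Subsingleton.elim (MvPolynomial.X j : MvPolynomial (Fin M) (QS S)) 0, MvPolynomial.totalDegree_zero]
      exact zero_le_one
  · rw [MvPolynomial.totalDegree_C]
    exact zero_le_one

theorem mul_inv (f : AfM S M M') (i i' : Fin M') :
    ∑ j, QS.mk (f.ta i j) * QS.mk (f.tB j i') = if i = i' then 1 else (0 : QS S) := by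
  classical
  have e1 : (∑ j, QS.mk (f.ta i j) * QS.mk (f.tB j i') : QS S) = QS.mk (∑ j, f.ta i j * f.tB j i') := by
    rw [map_sum]
    exact Finset.sum_congr rfl fun _ _ => (map_mul _ _ _).symm
  have e2 : (if i = i' then 1 else (0 : QS S)) = QS.mk (if i = i' then 1 else 0) := by
    split_ifs
    · rw [map_one]
    · rw [map_zero]
  rw [e1, e2, QS.mk_eq]
  apply TR.Te.ag
  refine ⟨fun _ _ => True, Typ_true, ?_⟩
  filter_upwards [f.inv] with k hk ω hω _
  have h1 := congrFun (congrFun (hk ω hω) i) i'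
  rw [Matrix.mul_apply, Matrix.one_apply] at h1
  rw [← TR.evh_apply, map_sum]
  have h2 : ∀ j, TR.evh k ω (f.ta i j * f.tB j i') = f.A k ω i j * f.B k ω j i' := fun j => map_mul _ _ _
  rw [Finset.sum_congr rfl fun j _ => h2 j, h1]
  split_ifs <;> rfl

theorem bind_qg (f : AfM S M M') (i : Fin M') : MvPolynomial.bind₁ f.qg (f.qp i) = MvPolynomial.X i := by
  classical
  unfold qp
  rw [map_add, map_sum, MvPolynomial.bind₁_C_right]
  have h1 : ∀ j : Fin M, MvPolynomial.bind₁ f.qg (MvPolynomial.C (QS.mk (f.ta i j)) * MvPolynomial.X j) =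
      ∑ i', MvPolynomial.C (QS.mk (f.ta i j) * QS.mk (f.tB j i')) * (MvPolynomial.X i' - MvPolynomial.C (QS.mk (f.tb i'))) := by
    intro j
    rw [map_mul, MvPolynomial.bind₁_C_right, MvPolynomial.bind₁_X_right]
    unfold qg
    rw [Finset.mul_sum]
    refine Finset.sum_congr rfl fun i' _ => ?_
    rw [MvPolynomial.C_mul, mul_assoc]
  rw [Finset.sum_congr rfl fun j _ => h1 j, Finset.sum_comm]
  have h2 : ∀ i' : Fin M', ∑ j, MvPolynomial.C (QS.mk (f.ta i j) * QS.mk (f.tB j i')) *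
      ((MvPolynomial.X i' : MvPolynomial (Fin M') (QS S)) - MvPolynomial.C (QS.mk (f.tb i'))) =
      (if i = i' then 1 else 0) * (MvPolynomial.X i' - MvPolynomial.C (QS.mk (f.tb i'))) := by
    intro i'
    rw [← Finset.sum_mul, ← map_sum, f.mul_inv i i']
    split_ifs
    · rw [MvPolynomial.C_1]
    · rw [MvPolynomial.C_0]
  rw [Finset.sum_congr rfl fun i' _ => h2 i']
  simp only [ite_mul, one_mul, zero_mul, Finset.sum_ite_eq, Finset.mem_univ, if_true]
  ring

/-- the coordinates of the image -/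
theorem cq_val (f : AfM S M M') (Q : S.VV M) (i : Fin M') :
    cq (f.pm.val Q) i = MvPolynomial.eval (cq Q) (f.qp i) := by
  unfold qp
  rw [map_add, map_sum, MvPolynomial.eval_C]
  have h1 : ∀ j : Fin M, MvPolynomial.eval (cq Q) (MvPolynomial.C (QS.mk (f.ta i j)) * MvPolynomial.X j) =
      QS.mk (f.ta i j * TR.cor Q j) := by
    intro j
    rw [map_mul, MvPolynomial.eval_C, MvPolynomial.eval_X, map_mul]
    rfl
  rw [Finset.sum_congr rfl fun j _ => h1 j, ← map_sum, ← map_add]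
  show QS.mk (TR.cor (f.pm.val Q) i) = _
  rw [QS.mk_eq]
  apply TR.Te.ag
  refine ⟨fun _ _ => True, Typ_true, Eventually.of_forall fun k ω _ _ => ?_⟩
  rw [TR.ev_cor, f.pm_val, ← TR.evh_apply, map_add, map_sum]
  show (∑ j, f.A k ω i j * Q.v k ω j) + f.b k ω i = _
  congr 1

/-- NO RELATION FOR IMAGES, over the base -/
theorem nr (f : AfM S M M') {Q : S.VV M} {r : ℝ} (h : NR D (cq Q) (⊥ : S.L) r) :
    NR D (cq (f.pm.val Q)) (⊥ : S.L) r := by
  have h1 := nr_img h f.qp f.qp_PK f.qp_deg f.qg f.bind_qg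
  have h2 : cq (f.pm.val Q) = fun i => MvPolynomial.eval (cq Q) (f.qp i) := funext fun i => f.cq_val Q i
  rw [h2]
  exact h1

/-- over a label -/
def ov (l : Lab S) (f : AfM S M M') : AfM (l.ovr 1 one_pos) M M' := (f.pull l.pj).chg l.V 1 one_pos

theorem val_pull (p : Pj T S) (f : AfM S M M') (Q : S.VV M) : (f.pull p).pm.val (p.vv Q) = p.vv (f.pm.val Q) := rfl

theorem val_chg (Z : ∀ k, Setoid (S.F k).Ω) (c : ℝ) (hc : 0 < c) (f : AfM S M M') (Q : S.VV M) :
    (f.chg Z c hc).pm.val (Q.chg Z c hc) = (f.pm.val Q).chg Z c hc := rfl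

theorem val_rest (E : ∀ k, (S.F k).Ω → Prop) (f : AfM S M M') (Q : S.VV M) :
    (f.rest E).pm.val (Q.rest E) = (f.pm.val Q).rest E := rfl

theorem val_ov (l : Lab S) (f : AfM S M M') (Q : S.VV M) : (f.ov l).pm.val (oQ l Q) = oQ l (f.pm.val Q) := rfl

/-- NO RELATION FOR IMAGES, over labels -/
theorem nrl (f : AfM S M M') {Q : S.VV M} {l : Lab S} (h : NRl D l Q) : NRl D l (f.pm.val Q) := by
  intro E hE r h0 h1
  have h2 := ((f.ov l).rest E).nr (h E hE r h0 h1)
  rw [val_rest, val_ov] at h2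
  exact h2

end AfM

end

end Pool.Agent.Helper24.PR
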