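import Pool.Agent.Helper24.PR.Quo
import Pool.Agent.Helper67.SAT.St

/-! PROPER QUOTIENTS ARE FULL: the form `PRQ` of the row SAT. -/

set_option autoImplicit false

namespace Pool.Agent.Helper24.PR

open Finset Filter Topology Matrix Pool.Agent.Helper69.RK Pool.Agent.Helper31.EC Pool.Agent.Helper31.EC.Sp
open Pool.Agent.Helper40.EL Pool.Agent.Helper89.LX Pool.Agent.Helper3.LF Pool.Agent.Helper84.MT
open Pool.Agent.Helper5.HB Pool.Agent.Helper5.DO QS Pool.Agent.Helper38.NS Pool.Agent.Helper36.AM

noncomputable section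

variable {S T : Sp} {M M' D : ℕ} {E E' : ℕ → ℕ} {ι : Type}

/-- full volume in all degrees -/
theorem vol_of_volO [Finite ι] (s : MSys S M E ι) {c : ℝ} (h0 : 0 < M) (h : volO s c = (M : ℝ)) (D : ℕ) :
    (M : ℝ) ≤ s.vol D c := by
  have hb : BddBelow (Set.range fun D : ℕ => s.vol D c) := by
    by_contra hc
    have h1 : volO s c = 0 := Real.iInf_of_not_bddBelow hc
    rw [h1] at h
    have : (0 : ℝ) < M := by exact_mod_cast h0
    linarith
  rw [← h]
  exact ciInf_le hb D

/-- rates over a label of the digits of a vector variable -/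
theorem rt_ge {l : Lab S} (y : (l.ovr 1 one_pos).VV M) {a : ℝ} (h : a ≤ H (y.dg 1)) {ε : ℝ} (hε : 0 < ε) :
    ∀ᶠ k in UF, (a - ε) * (S.F k).n ≤
      Pool.Agent.Helper31.EC.h (fc (Setoid.ker (y.cellv 1 k)) : FL (l k).T) (l k).v := by
  have h1 : y.dg 1 = cl (y.bdd 1).toInf := io_eq (y.bdd 1)
  have h2 : H (y.dg 1) = ul ((l.ovr 1 one_pos).rt (y.bdd 1).toInf.1 (Inf.bot : (l.ovr 1 one_pos).Inf).1) := by
    rw [h1, ← h_bot, ← cl_bot, h_cl]
  rw [h2] at h
  have h3 := ul_tendsto (UB_rt (y.bdd 1).toInf (Inf.bot : (l.ovr 1 one_pos).Inf).1)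
  filter_upwards [h3.eventually (lt_mem_nhds (show a - ε < _ by linarith))] with k hk
  have hn : ((l.ovr 1 one_pos).F k).n = (S.F k).n := ovr_n l k
  have h4 : (l.ovr 1 one_pos).rt (y.bdd 1).toInf.1 (Inf.bot : (l.ovr 1 one_pos).Inf).1 k =
      (l k).T.e (Setoid.ker (y.cellv 1 k)) (⊤ ⊓ ((l k).V ⊓ (l k).T.Z)) / ((l.ovr 1 one_pos).F k).n := rfl
  rw [h4, hn, top_inf_eq] at hk
  have h5 : Pool.Agent.Helper31.EC.h (fc (Setoid.ker (y.cellv 1 k)) : FL (l k).T) (l k).v =
      (l k).T.e (Setoid.ker (y.cellv 1 k)) ((l k).V ⊓ (l k).T.Z) := h_fc _ _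
  rw [h5]
  have hp := (S.F k).pos
  have h6 := (lt_div_iff₀ hp).mp hk
  exact h6.le

/-- PROPER QUOTIENTS ARE FULL, the form of the row SAT -/
theorem st_PRQ (M : ℕ) (hST : ST M) : Pool.Agent.Helper67.SAT.PRQ M := by
  classical
  intro S g r s _ hv l hinf j u hu hb ε hε
  obtain ⟨D, hD⟩ := hST g r
  have hv' : ((M + 1 : ℕ) : ℝ) ≤ s.vol D 0 := vol_of_volO s (Nat.succ_pos M) (by rw [hv]; push_cast; ring) D
  have hl : s.DMc 0 l := dmf_of_info _ hinf
  obtain ⟨f, hf⟩ : ∃ f : AfM (l.ovr 1 one_pos) (M + 1) M, f =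
      { A := fun k ω => Matrix.of fun i a => (if a = j.succAbove i then 1 else 0) -
          (if a = j then u k ω (j.succAbove i) else 0)
        b := fun _ _ => 0
        B := fun _ _ => Matrix.of fun a i => if a = j.succAbove i then 1 else 0
        fn := by
          filter_upwards [hu] with k hk ω ω' a b c
          have h1 := hk ω ω' a b c.2 c.1
          refine ⟨?_, rfl, rfl⟩
          rw [h1]
        bd := by
          refine ⟨fun _ => 3, (l.ovr 1 one_pos).Sub_const (by norm_num), ?_⟩
          filter_upwards [hb] with k hk ω hω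
          have h1 := (hk ω hω).2
          refine ⟨fun i a => ?_, fun i => ?_, fun a i => ?_⟩
          · rw [Matrix.of_apply]
            refine (abs_sub _ _).trans ?_
            have h2 : |(if a = j.succAbove i then (1 : ℝ) else 0)| ≤ 1 := by
              split_ifs
              · rw [abs_one]
              · rw [abs_zero]; exact zero_le_one
            have h3 : |(if a = j then u k ω (j.succAbove i) else 0)| ≤ 2 := by
              split_ifs
              · exact h1 _
              · rw [abs_zero]; norm_num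
            linarith
          · rw [Pi.zero_apply, abs_zero]; norm_num
          · rw [Matrix.of_apply]
            split_ifs
            · rw [abs_one]; norm_num
            · rw [abs_zero]; norm_num
        inv := by
          refine Eventually.of_forall fun k ω _ => ?_
          ext i i'
          rw [Matrix.mul_apply, Matrix.one_apply]
          rw [Finset.sum_eq_single (j.succAbove i')]
          · rw [Matrix.of_apply, Matrix.of_apply, if_pos rfl, mul_one, if_neg (Fin.succAbove_ne j i'), sub_zero]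
            by_cases h : i = i'
            · rw [h, if_pos rfl, if_pos rfl]
            · rw [if_neg h, if_neg (fun h' => h (Fin.succAbove_right_injective h').symm)]
          · intro a _ ha
            rw [Matrix.of_apply, Matrix.of_apply, if_neg ha, mul_zero]
          · intro h
            exact absurd (Finset.mem_univ _) h } := ⟨_, rfl⟩
  have h1 := quo_full (hD D le_rfl) s hv' hl f (fun D => by rw [one_mul])
  filter_upwards [rt_ge _ h1 hε] with k hk
  refine hk.trans (h_mono (fc_mono ?_))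
  intro ω ω' h2
  show (f.pm.val (oQ l s.Q)).cellv 1 k ω = (f.pm.val (oQ l s.Q)).cellv 1 k ω'
  have h3 : ∀ ω : (l k).T.Ω, ∀ i, (f.pm.val (oQ l s.Q)).v k ω i =
      Pool.Agent.Helper67.SAT.quo (s.Q.v k ((l k).p.π ω)) (u k ω) j (j.succAbove i) := by
    intro ω i
    have h5 : (f.pm.val (oQ l s.Q)).v k ω i = ((f.A k ω).mulVec (s.Q.v k ((l k).p.π ω)) + f.b k ω) i :=
      congrFun (f.pm_val (oQ l s.Q) k ω) i
    have h6 : f.A k ω = (Matrix.of fun i a => (if a = j.succAbove i then (1 : ℝ) else 0) -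
      (if a = j then u k ω (j.succAbove i) else 0)) := by rw [hf]
    have h7 : f.b k ω = 0 := by rw [hf]
    rw [h5, h6, h7, add_zero]
    unfold Matrix.mulVec dotProduct Pool.Agent.Helper67.SAT.quo
    simp only [Matrix.of_apply, sub_mul, Finset.sum_sub_distrib, ite_mul, one_mul, zero_mul, Finset.sum_ite_eq',
      Finset.mem_univ, if_true]
  funext i
  have h4 := congrFun h2 (j.succAbove i)
  have hdl : (l.ovr 1 one_pos).dl 1 k = S.dl 1 k := ovr_dl l 1 k
  show ⌊(f.pm.val (oQ l s.Q)).v k ω i / (l.ovr 1 one_pos).dl 1 k⌋ =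
    ⌊(f.pm.val (oQ l s.Q)).v k ω' i / (l.ovr 1 one_pos).dl 1 k⌋
  rw [h3, h3, hdl]
  exact h4

end

end Pool.Agent.Helper24.PR
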