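import Pool.Agent.Helper24.PR.Typ
import Pool.Agent.Helper10.BLD.St

/-! Row PRM of the builder: the proper quotients of the corners over a homogeneous class are full. -/

set_option autoImplicit false

namespace Pool.Agent.Helper24.PR

open Finset Filter Topology Matrix Pool.Agent.Helper69.RK Pool.Agent.Helper31.EC Pool.Agent.Helper31.EC.Sp
open Pool.Agent.Helper40.EL Pool.Agent.Helper89.LX Pool.Agent.Helper3.LF Pool.Agent.Helper84.MT
open Pool.Agent.Helper5.HB Pool.Agent.Helper5.DO QS Pool.Agent.Helper38.NS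
open Pool.Agent.Helper36.AM (volO HQ STO MCl Hom)
open Pool.Agent.Helper13.AM (CD Tri STQE)
open Pool.Agent.Helper57.TA (rcst dg_rcst)
open Pool.Agent.Helper10.BLD

noncomputable section

variable {M d N : ℕ} {w : Fin (M + 1) → ℝ}

/-- the coordinates of the splitting -/
theorem spl_bij (P : Spl w d N) : Function.Bijective (Sum.elim P.bI P.vI) := by
  constructor
  · rintro (i | i) (j | j) h
    · exact congrArg _ (P.sb.injective h)
    · exact absurd h (P.bv i j).ne
    · exact absurd h (P.bv j i).ne'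
    · exact congrArg _ (P.sv.injective h)
  · intro a
    rcases P.cov a with ⟨i, hi⟩ | ⟨j, hj⟩
    · exact ⟨Sum.inl i, hi⟩
    · exact ⟨Sum.inr j, hj⟩

/-- the equivalence of the splitting -/
def speq (P : Spl w d N) : Fin (d + 1) ⊕ Fin N ≃ Fin (M + 1) := Equiv.ofBijective _ (spl_bij P)

theorem spl_card (P : Spl w d N) : Fintype.card (Fin (d + 1)) + Fintype.card (Fin N) = M + 1 := by
  have h := Fintype.card_congr (speq P)
  rwa [Fintype.card_sum, Fintype.card_fin (M + 1)] at h

section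

variable {S : Sp} (P : Spl w d N) (A : Matrix (Fin (d + 1)) (Fin (d + 1)) ℝ)

/-- the coordinates of the corner in the coordinates of the system -/
def LA : Fin (d + 1) ⊕ Fin N → MvPolynomial (Fin (M + 1)) (QS S) :=
  Sum.elim (fun i => ∑ j, MvPolynomial.C (rcst S (A i j)) * MvPolynomial.X (P.bI j)) (fun j => MvPolynomial.X (P.vI j))

/-- the inverse -/
def LB : Fin (M + 1) → MvPolynomial (Fin (d + 1) ⊕ Fin N) (QS S) := fun a =>
  Sum.elim (fun i => ∑ j, MvPolynomial.C (rcst S (A⁻¹ i j)) * MvPolynomial.X (Sum.inl j))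
    (fun j => MvPolynomial.X (Sum.inr j)) ((speq P).symm a)

theorem LA_PK (i : Fin (d + 1) ⊕ Fin N) : LA (S := S) P A i ∈ PK ⊥ := by
  rcases i with i | j
  · show (∑ j, MvPolynomial.C (rcst S (A i j)) * MvPolynomial.X (P.bI j)) ∈ PK ⊥
    refine (PK ⊥).sum_mem fun j _ => ?_
    have h1 : dg (rcst S (A i j)) 1 ≤ ⊥ := (dg_rcst _ _).le
    exact (PK ⊥).mul_mem (C_mem h1) (X_mem _ _)
  · show MvPolynomial.X (P.vI j) ∈ PK ⊥
    exact X_mem _ _

theorem LB_inl (i : Fin (d + 1)) : LB (S := S) P A (P.bI i) =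
    ∑ j, MvPolynomial.C (rcst S (A⁻¹ i j)) * MvPolynomial.X (Sum.inl j) := by
  have h1 : (speq P).symm (P.bI i) = Sum.inl i := (speq P).symm_apply_eq.mpr rfl
  unfold LB
  rw [h1]
  rfl

theorem LB_inr (j : Fin N) : LB (S := S) P A (P.vI j) = MvPolynomial.X (Sum.inr j) := by
  have h1 : (speq P).symm (P.vI j) = Sum.inr j := (speq P).symm_apply_eq.mpr rfl
  unfold LB
  rw [h1]
  rfl

theorem LB_LA (hA : IsUnit A.det) (i : Fin (d + 1) ⊕ Fin N) :
    MvPolynomial.bind₁ (LB (S := S) P A) (LA P A i) = MvPolynomial.X i := by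
  classical
  rcases i with i | j
  · show MvPolynomial.bind₁ (LB (S := S) P A) (∑ j, MvPolynomial.C (rcst S (A i j)) * MvPolynomial.X (P.bI j)) = _
    rw [map_sum]
    have h1 : ∀ j : Fin (d + 1), MvPolynomial.bind₁ (LB (S := S) P A)
        (MvPolynomial.C (rcst S (A i j)) * MvPolynomial.X (P.bI j)) =
        ∑ l, MvPolynomial.C (rcst S (A i j * A⁻¹ j l)) * MvPolynomial.X (Sum.inl l) := by
      intro j
      rw [map_mul, MvPolynomial.bind₁_C_right, MvPolynomial.bind₁_X_right, LB_inl, Finset.mul_sum]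
      refine Finset.sum_congr rfl fun l _ => ?_
      rw [map_mul, MvPolynomial.C_mul, mul_assoc]
    rw [Finset.sum_congr rfl fun j _ => h1 j, Finset.sum_comm]
    have h2 : ∀ l : Fin (d + 1), ∑ j, MvPolynomial.C (rcst S (A i j * A⁻¹ j l)) *
        (MvPolynomial.X (Sum.inl l) : MvPolynomial (Fin (d + 1) ⊕ Fin N) (QS S)) =
        if i = l then MvPolynomial.X (Sum.inl l) else 0 := by
      intro l
      rw [← Finset.sum_mul, ← map_sum, ← map_sum]
      have h3 : ∑ j, A i j * A⁻¹ j l = if i = l then 1 else 0 := by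
        rw [← Matrix.mul_apply, Matrix.mul_nonsing_inv A hA, Matrix.one_apply]
      rw [h3]
      split_ifs
      · rw [map_one, MvPolynomial.C_1, one_mul]
      · rw [map_zero, MvPolynomial.C_0, zero_mul]
    rw [Finset.sum_congr rfl fun l _ => h2 l, Finset.sum_ite_eq, if_pos (Finset.mem_univ i)]
  · show MvPolynomial.bind₁ (LB (S := S) P A) (MvPolynomial.X (P.vI j)) = _
    rw [MvPolynomial.bind₁_X_right, LB_inr]

end

/-- **ROW PRM** -/
theorem st_PRM (M : ℕ) : ST_PRM M := by
  intro hst Cl g r w ρ TT hT d N r' P S c hc H hH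
  obtain ⟨E, hE, S1, t, e, he, h1, p, κ, V, A, hty, ht, -, hA, hq, hR, -⟩ := hc.vw
  have ht0 : TT _ (t.trn e he h1) := hT.trn S1 t ht e he h1
  refine stqe_typ hE hty p (t.trn e he h1) (fun T p' E' hE' =>
    (acl_hom hT (hst M (Nat.lt_succ_self M))).qf _ _ (hT.im _ _ ht0 T p' E' hE')) (spl_card P) c.q c.R (LA P A)
    (LA_PK P A) (LB P A) (LB_LA P A hA) ?_ P.w H hH.real hH.low
  rintro (i | j)
  · show QS.rest E hE (c.q i) = MvPolynomial.eval (fun j => p.qs (cq (t.trn e he h1).Q j))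
      (∑ j, MvPolynomial.C (rcst _ (A i j)) * MvPolynomial.X (P.bI j))
    rw [hq, map_sum]
    unfold qA
    rw [map_sum, map_sum]
    refine Finset.sum_congr rfl fun j _ => ?_
    rw [map_mul, map_mul, map_mul, MvPolynomial.eval_C, MvPolynomial.eval_X]
    rfl
  · show QS.rest E hE (c.R j) = MvPolynomial.eval (fun j => p.qs (cq (t.trn e he h1).Q j)) (MvPolynomial.X (P.vI j))
    rw [hR, MvPolynomial.eval_X]
    rfl

end

end Pool.Agent.Helper24.PR
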