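import Pool.Agent.Helper81.MT.Bas
import Pool.Agent.Helper84.MT.Pul

/-! PROPER QUOTIENTS. The system of leaves over a label which does not leak at the windows `0`: e.g. a label which is
independent of the system. -/

set_option autoImplicit false

namespace Pool.Agent.Helper24.PR

open Finset Filter Topology Matrix Pool.Agent.Helper69.RK Pool.Agent.Helper31.EC Pool.Agent.Helper31.EC.Sp
open Pool.Agent.Helper40.EL Pool.Agent.Helper89.LX Pool.Agent.Helper3.LF Pool.Agent.Helper84.MT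

noncomputable section

variable {S : Sp} {M : ℕ} {E : ℕ → ℕ} {ι : Type}

/-- a type of leaves over a finer base over which its parameter is full -/
def lbs {Q : S.VV M} (l : Leaf S Q E) (Z : ∀ k, Setoid (S.F k).Ω)
    (hf : Tendsto (fun k => h (fc (Setoid.ker (l.Y.cellv 1 k))) (fc (l.La k) ⊔ fc (Z k)) / (S.F k).n) UF (𝓝 l.e)) :
    Leaf (S.chg Z 1 one_pos) (Q.chg Z 1 one_pos) E where
  e := l.e
  he := l.he
  La := l.La
  Y := l.Y.chg Z 1 one_pos
  F := l.F
  fn := by
    filter_upwards [l.fn] with k hk ω ω' a b c d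
    exact hk ω ω' a b c.2 d
  bd := by
    obtain ⟨K, hK, hb⟩ := l.bd
    exact ⟨K, chg_sub Z 1 one_pos hK, hb⟩
  al := l.al
  alg := l.alg
  crF := l.crF
  seg := by
    intro D
    obtain ⟨K, hK, hb⟩ := l.seg D
    exact ⟨K, chg_sub Z 1 one_pos hK, hb⟩
  pt := by
    obtain ⟨K, hK, hb⟩ := l.pt
    refine ⟨K, chg_sub Z 1 one_pos hK, ?_⟩
    filter_upwards [hb] with k hk ω hω i
    rw [chg_dl, mul_one]
    exact hk ω hω i
  full := by
    refine hf.congr fun k => ?_
    have e1 : h (fc (F := (S.F k).chg (Z k) 1 one_pos) (Setoid.ker ((l.Y.chg Z 1 one_pos).cellv 1 k)))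
        (fc (l.La k)) = h (fc (Setoid.ker (l.Y.cellv 1 k))) (fc (l.La k) ⊔ fc (Z k)) := by
      have h1 := (frb (S.F k) (Z k) 1 one_pos).h_map (fc (Setoid.ker (l.Y.cellv 1 k))) (fc (l.La k))
      exact (congrArg (fun f => h (fc (F := (S.F k).chg (Z k) 1 one_pos) (Setoid.ker f)) (fc (l.La k)))
        (cellv_bas Z l.Y 1 k)).trans h1
    show _ = h (fc (F := (S.F k).chg (Z k) 1 one_pos) (Setoid.ker ((l.Y.chg Z 1 one_pos).cellv 1 k)))
        (fc (l.La k)) / (1 * (S.F k).n)
    rw [one_mul, e1]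

/-- a label without leak at the window `0` of a type: the parameter stays full over the label -/
theorem full_ovr {Q : S.VV M} (f : Leaf S Q E) {l : Lab S} (hl : Nul S (fun k => (l k).leak (f.win 0 k))) :
    Tendsto (fun k => h (fc (Setoid.ker ((f.pull l.pj).Y.cellv 1 k)) : FL (l.sp.F k))
      (fc ((f.pull l.pj).La k) ⊔ fc (l.V k)) / (l.sp.F k).n) UF (𝓝 (f.pull l.pj).e) := by
  set g := f.pull l.pj with hg
  set Y1 : ∀ k, FL (l.sp.F k) := fun k => fc (Setoid.ker (g.Y.cellv 1 k)) with hY1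
  set Y0 : ∀ k, FL (l.sp.F k) := fun k => fc (Setoid.ker (g.Y.cellv 0 k)) with hY0
  set A : ∀ k, FL (l.sp.F k) := fun k => fc (g.La k) with hA
  set v : ∀ k, FL (l.sp.F k) := fun k => fc (l.V k) with hv
  have hlk : Nul l.sp (fun k => (l k).leak (f.win 0 k)) := (Lab.nul_pj l.pj).mpr hl
  have h1 : ∀ k, h (Y1 k) (A k) ≤ h (Y1 k) (A k ⊔ v k) + (l k).leak (f.win 0 k) + h (Y0 k) (A k) := by
    intro k
    have e0 : (l k).p.map (f.win 0 k) = A k ⊔ Y0 k := by
      have h2 := congrFun (win_pull l.pj f 0) k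
      have h3 : (f.pull l.pj).win 0 k = (l k).p.map (f.win 0 k) := h2
      rw [← h3]
      show fc (g.La k ⊓ Setoid.ker (g.Y.cellv 0 k)) = _
      rw [fc_inf]
    have hY : Y1 k ≤ (l k).p.top := by
      have h2 : Y1 k = (l k).p.map (fc (Setoid.ker (f.Y.cellv 1 k))) := by
        show fc (Setoid.ker ((l.pj.vv f.Y).cellv 1 k)) = _
        rw [vv_cellv]
        rfl
      rw [h2]
      exact (l k).p.map_le_top _
    have h4 : I (v k) (Y1 k) (A k ⊔ Y0 k) ≤ (l k).leak (f.win 0 k) := by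
      show _ ≤ I (l k).v (l k).p.top ((l k).p.map (f.win 0 k))
      rw [e0]
      exact I_mono_right (hY.trans le_sup_left)
    rw [I_eq'] at h4
    have h5 : h (Y1 k) (v k ⊔ (A k ⊔ Y0 k)) ≤ h (Y1 k) (A k ⊔ v k) := h_anti (by
      apply sup_le
      · exact le_sup_left.trans le_sup_right
      · exact le_sup_left)
    have h6 := h_triangle (Y1 k) (Y0 k) (A k)
    rw [sup_comm (Y0 k)] at h6
    linarith
  have h2 : ∀ k, h (Y1 k) (A k ⊔ v k) ≤ h (Y1 k) (A k) := fun k => h_anti le_sup_left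
  have hn : ∀ k, 0 < (l.sp.F k).n := fun k => (l.sp.F k).pos
  -- the window `0` carries no information
  have h0 : Nul l.sp (fun k => h (Y0 k) (A k)) := by
    rw [Nul, Metric.tendsto_nhds]
    intro ε hε
    filter_upwards [h_cell_le g.Y (le_refl (0 : ℝ)) A (ε / 2) (by linarith)] with k hk
    rw [mul_zero, zero_add] at hk
    rw [Real.dist_eq, sub_zero, abs_of_nonneg (div_nonneg (h_nonneg _ _) (hn k).le)]
    exact lt_of_le_of_lt hk (by linarith)
  have h3 : Tendsto (fun k => h (Y1 k) (A k) / (l.sp.F k).n - ((l k).leak (f.win 0 k) / (l.sp.F k).n +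
      h (Y0 k) (A k) / (l.sp.F k).n)) UF (𝓝 (g.e - (0 + 0))) := g.full.sub (Filter.Tendsto.add hlk h0)
  rw [add_zero, sub_zero] at h3
  refine tendsto_of_tendsto_of_tendsto_of_le_of_le h3 g.full (fun k => ?_) (fun k => ?_)
  · have h4 := div_le_div_of_nonneg_right (h1 k) (hn k).le
    rw [add_div, add_div] at h4
    show h (Y1 k) (A k) / (l.sp.F k).n - _ ≤ h (Y1 k) (A k ⊔ v k) / (l.sp.F k).n
    linarith
  · exact div_le_div_of_nonneg_right (h2 k) (hn k).le

/-- a type of leaves over a label -/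
def lov {Q : S.VV M} (f : Leaf S Q E) (l : Lab S) (hl : Nul S (fun k => (l k).leak (f.win 0 k))) :
    Leaf (l.ovr 1 one_pos) ((l.pj.vv Q).chg l.V 1 one_pos) E := lbs (f.pull l.pj) l.V (full_ovr f hl)

theorem lov_e {Q : S.VV M} (f : Leaf S Q E) (l : Lab S) (hl : Nul S (fun k => (l k).leak (f.win 0 k))) :
    (lov f l hl).e = f.e := rfl

theorem lov_win {Q : S.VV M} (f : Leaf S Q E) (l : Lab S) (hl : Nul S (fun k => (l k).leak (f.win 0 k))) (c : ℝ) :
    (lov f l hl).win c = l.up 1 one_pos (f.win c) := by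
  funext k
  have h1 : l.up 1 one_pos (f.win c) k = (frb (l k).T (l k).V 1 one_pos).map ((f.pull l.pj).win c k) := by
    have h2 := congrFun (win_pull l.pj f c) k
    rw [h2]
    rfl
  rw [h1]
  exact congrArg (fun g => fc (F := ((l.sp).F k).chg (l.V k) 1 one_pos) ((f.pull l.pj).La k ⊓ Setoid.ker g))
    (cellv_bas l.V (f.pull l.pj).Y c k)

/-- the system over a label -/
def ovl (s : MSys S M E ι) (l : Lab S) (hl : ∀ i, Nul S (fun k => (l k).leak ((s.lf i).win 0 k))) :
    MSys (l.ovr 1 one_pos) M E ι := ⟨(l.pj.vv s.Q).chg l.V 1 one_pos, fun i => lov (s.lf i) l (hl i)⟩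

theorem pcd_ovl (Q : S.VV M) (l : Lab S) : pcd ((l.pj.vv Q).chg l.V 1 one_pos) = l.up 1 one_pos (pcd Q) := by
  funext k
  have h1 : l.up 1 one_pos (pcd Q) k = (frb (l k).T (l k).V 1 one_pos).map (pcd (l.pj.vv Q) k) := by
    rw [pcd_pull]
    rfl
  rw [h1]
  exact congrArg (fun g => fc (F := ((l.sp).F k).chg (l.V k) 1 one_pos) (Setoid.ker g)) (cellv_bas l.V (l.pj.vv Q) 1 k)

/-- the conditions of the system over a label -/
theorem cnd_ovl (s : MSys S M E ι) (l : Lab S) (hl : ∀ i, Nul S (fun k => (l k).leak ((s.lf i).win 0 k))) (c : ℝ) :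
    (ovl s l hl).cnd c = fun i => l.up 1 one_pos (s.cnd c i) := by
  funext i
  rcases i with _ | i
  · exact pcd_ovl s.Q l
  · exact lov_win (s.lf i) l (hl i) c

end

end Pool.Agent.Helper24.PR
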