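import Pool.Agent.Helper24.PR.Att

/-! PROPER QUOTIENTS, affine form: if the images of the systems under the affine quotient maps are full, then `STQE`. -/

set_option autoImplicit false

namespace Pool.Agent.Helper24.PR

open Finset Filter Topology Matrix Pool.Agent.Helper69.RK Pool.Agent.Helper31.EC Pool.Agent.Helper31.EC.Sp
open Pool.Agent.Helper40.EL Pool.Agent.Helper89.LX Pool.Agent.Helper3.LF Pool.Agent.Helper84.MT
open Pool.Agent.Helper5.HB Pool.Agent.Helper5.DO QS Pool.Agent.Helper38.NS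
open Pool.Agent.Helper98.FR (qc qc_mk qc_dg)

noncomputable section

variable {M M' : ℕ} {ι ν : Type}

/-- the matrix of the quotient modulo the vector `v` (its coordinate `a` is the denominator) -/
def qmt [DecidableEq ν] (e : ι ⊕ ν ≃ Fin M) (a : ν) (e' : ι ⊕ {i : ν // i ≠ a} ≃ Fin M') (v : ν → ℝ) :
    Matrix (Fin M') (Fin M) ℝ :=
  Matrix.of fun m j => Sum.elim (fun b => if j = e (Sum.inl b) then 1 else 0)
    (fun i : {i : ν // i ≠ a} => (if j = e (Sum.inr i.1) then v a else 0) - (if j = e (Sum.inr a) then v i.1 else 0))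
    (e'.symm m)

/-- the inverse on the right -/
def qmb [DecidableEq ν] (e : ι ⊕ ν ≃ Fin M) (a : ν) (e' : ι ⊕ {i : ν // i ≠ a} ≃ Fin M') (v : ν → ℝ) :
    Matrix (Fin M) (Fin M') ℝ :=
  Matrix.of fun j m => Sum.elim (fun b => if m = e' (Sum.inl b) then 1 else 0)
    (fun i : ν => if h : i ≠ a then (if m = e' (Sum.inr ⟨i, h⟩) then (v a)⁻¹ else 0) else 0) (e.symm j)

theorem qmt_mul_qmb [DecidableEq ν] (e : ι ⊕ ν ≃ Fin M) (a : ν) (e' : ι ⊕ {i : ν // i ≠ a} ≃ Fin M') (v : ν → ℝ)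
    (hv : v a ≠ 0) : qmt e a e' v * qmb e a e' v = 1 := by
  ext m m'
  rw [Matrix.mul_apply, Matrix.one_apply]
  obtain ⟨t, rfl⟩ := e'.surjective m
  rcases t with b | i
  · have h1 : ∀ j, qmt e a e' v (e' (Sum.inl b)) j * qmb e a e' v j m' =
        if j = e (Sum.inl b) then qmb e a e' v j m' else 0 := by
      intro j
      unfold qmt
      rw [Matrix.of_apply, Equiv.symm_apply_apply]
      simp only [Sum.elim_inl, ite_mul, one_mul, zero_mul]
    rw [Finset.sum_congr rfl fun j _ => h1 j, Finset.sum_ite_eq', if_pos (Finset.mem_univ _)]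
    unfold qmb
    rw [Matrix.of_apply, Equiv.symm_apply_apply]
    simp only [Sum.elim_inl, eq_comm]
  · have h1 : ∀ j, qmt e a e' v (e' (Sum.inr i)) j * qmb e a e' v j m' =
        (if j = e (Sum.inr i.1) then v a * qmb e a e' v j m' else 0) -
          (if j = e (Sum.inr a) then v i.1 * qmb e a e' v j m' else 0) := by
      intro j
      unfold qmt
      rw [Matrix.of_apply, Equiv.symm_apply_apply]
      simp only [Sum.elim_inr, sub_mul, ite_mul, zero_mul]
    rw [Finset.sum_congr rfl fun j _ => h1 j, Finset.sum_sub_distrib, Finset.sum_ite_eq', Finset.sum_ite_eq',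
      if_pos (Finset.mem_univ _), if_pos (Finset.mem_univ _)]
    unfold qmb
    rw [Matrix.of_apply, Matrix.of_apply, Equiv.symm_apply_apply, Equiv.symm_apply_apply]
    simp only [Sum.elim_inr]
    rw [dif_pos i.2, dif_neg (by simp), mul_zero, sub_zero, mul_ite, mul_zero, mul_inv_cancel₀ hv]
    simp only [eq_comm]

section

variable {S : Sp} [Fintype ν] [DecidableEq ν]

/-- THE QUOTIENT MAP modulo a vector of literal functions of the base with a tame unit coordinate -/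
def qaf (e : ι ⊕ ν ≃ Fin M) (a : ν) (e' : ι ⊕ {i : ν // i ≠ a} ≃ Fin M') (v : ν → TR S) (hv : ∀ j, v j ∈ BR S)
    (hK : ∃ K : ℕ → ℝ, S.Sub K ∧ ∀ᶠ k in UF, ∀ ω, (S.F k).μ ω ≠ 0 → 1 ≤ K k * |TR.ev (v a) k ω|) : AfM S M M' where
  A := fun k ω => qmt e a e' (fun j => TR.ev (v j) k ω)
  b := fun _ _ => 0
  B := fun k ω => qmb e a e' (fun j => TR.ev (v j) k ω)
  fn := by
    have h1 : ∀ᶠ k in UF, ∀ j ∈ (Finset.univ : Finset ν), ∀ ω ω', (S.F k).μ ω ≠ 0 → (S.F k).μ ω' ≠ 0 →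
        (S.F k).Z ω ω' → TR.ev (v j) k ω = TR.ev (v j) k ω' := by
      rw [Filter.eventually_all_finset]
      exact fun j _ => hv j
    filter_upwards [h1] with k hk ω ω' x y z
    have h2 : (fun j => TR.ev (v j) k ω) = fun j => TR.ev (v j) k ω' := funext fun j =>
      hk j (Finset.mem_univ j) ω ω' x y z
    rw [h2]
    exact ⟨rfl, rfl, rfl⟩
  bd := by
    obtain ⟨Ka, hKa, ha⟩ := hK
    obtain ⟨s, hs⟩ : ∃ s : TR S, s = ∑ j, (v j ^ 2 + 1) := ⟨_, rfl⟩
    obtain ⟨Ks, hKs, hb⟩ := s.2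
    refine ⟨fun k => (1 + 2 * Ks k) + Ka k, ((S.Sub_const zero_le_one).add ((S.Sub_const zero_le_two).mul hKs)).add hKa, ?_⟩
    filter_upwards [ha, hb, hKs.1, hKa.1] with k h1 h2 h3 h4 ω hω
    have h5 : ∀ j, |TR.ev (v j) k ω| ≤ Ks k := by
      intro j
      have e1 : TR.evh k ω s = ∑ j, (TR.evh k ω (v j) ^ 2 + 1) := by
        rw [hs, map_sum]
        refine Finset.sum_congr rfl fun j _ => ?_
        rw [map_add, map_pow, map_one]
      have e2 : TR.evh k ω (v j) ^ 2 + 1 ≤ TR.evh k ω s := by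
        rw [e1]
        exact Finset.single_le_sum (f := fun j => TR.evh k ω (v j) ^ 2 + 1) (fun j _ => by positivity)
          (Finset.mem_univ j)
      have e3 : TR.evh k ω s ≤ Ks k := (le_abs_self _).trans (h2 ω hω)
      have e4 : |TR.evh k ω (v j)| ≤ TR.evh k ω (v j) ^ 2 + 1 := by
        rw [← sq_abs]
        nlinarith [sq_nonneg (|TR.evh k ω (v j)| - 1), abs_nonneg (TR.evh k ω (v j))]
      exact e4.trans (e2.trans e3)
    have h6 : ∀ (p : Prop) [Decidable p] (j : ν), |(if p then TR.ev (v j) k ω else 0)| ≤ Ks k := by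
      intro p _ j
      split_ifs
      · exact h5 j
      · rw [abs_zero]; exact h3
    refine ⟨fun m j => ?_, fun i => ?_, fun j m => ?_⟩
    · unfold qmt
      rw [Matrix.of_apply]
      rcases e'.symm m with b | i
      · show |(if j = e (Sum.inl b) then (1 : ℝ) else 0)| ≤ _
        split_ifs
        · rw [abs_one]; linarith
        · rw [abs_zero]; linarith
      · refine (abs_sub _ _).trans ?_
        have := h6 (j = e (Sum.inr i.1)) a
        have := h6 (j = e (Sum.inr a)) i.1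
        linarith
    · rw [Pi.zero_apply, abs_zero]; linarith
    · unfold qmb
      rw [Matrix.of_apply]
      rcases e.symm j with b | i
      · show |(if m = e' (Sum.inl b) then (1 : ℝ) else 0)| ≤ _
        split_ifs
        · rw [abs_one]; linarith
        · rw [abs_zero]; linarith
      · show |if h : i ≠ a then (if m = e' (Sum.inr ⟨i, h⟩) then (TR.ev (v a) k ω)⁻¹ else 0) else 0| ≤ _
        split_ifs
        · have h7 := h1 ω hω
          have h8 : 0 < |TR.ev (v a) k ω| := by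
            by_contra hc
            have : |TR.ev (v a) k ω| = 0 := le_antisymm (not_lt.mp hc) (abs_nonneg _)
            rw [this, mul_zero] at h7
            linarith
          rw [abs_inv]
          have h9 : |TR.ev (v a) k ω|⁻¹ ≤ Ka k := by
            rw [inv_le_iff_one_le_mul₀ h8]
            exact h7
          linarith
        · rw [abs_zero]; linarith
        · rw [abs_zero]; linarith
  inv := by
    obtain ⟨Ka, hKa, ha⟩ := hK
    filter_upwards [ha] with k h1 ω hω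
    apply qmt_mul_qmb
    intro hc
    have h7 := h1 ω hω
    rw [hc, abs_zero, mul_zero] at h7
    linarith

variable (e : ι ⊕ ν ≃ Fin M) (a : ν) (e' : ι ⊕ {i : ν // i ≠ a} ≃ Fin M') (v : ν → TR S) (hv : ∀ j, v j ∈ BR S)
    (hK : ∃ K : ℕ → ℝ, S.Sub K ∧ ∀ᶠ k in UF, ∀ ω, (S.F k).μ ω ≠ 0 → 1 ≤ K k * |TR.ev (v a) k ω|)

/-- the base coordinates of the quotient -/
theorem qaf_inl (Q : S.VV M) (b : ι) : cq ((qaf e a e' v hv hK).pm.val Q) (e' (Sum.inl b)) = cq Q (e (Sum.inl b)) := by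
  have h1 : TR.cor ((qaf e a e' v hv hK).pm.val Q) (e' (Sum.inl b)) = TR.cor Q (e (Sum.inl b)) := by
    apply Subtype.ext
    funext k ω
    have h2 := congrFun ((qaf e a e' v hv hK).pm_val Q k ω) (e' (Sum.inl b))
    refine h2.trans ?_
    show (qmt e a e' (fun j => TR.ev (v j) k ω)).mulVec (Q.v k ω) (e' (Sum.inl b)) + 0 = Q.v k ω (e (Sum.inl b))
    rw [add_zero]
    unfold Matrix.mulVec dotProduct qmt
    simp only [Matrix.of_apply, Equiv.symm_apply_apply, Sum.elim_inl, ite_mul, one_mul, zero_mul, Finset.sum_ite_eq',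
      Finset.mem_univ, if_true]
  exact congrArg QS.mk h1

/-- the other coordinates of the quotient -/
theorem qaf_inr (Q : S.VV M) (i : {i : ν // i ≠ a}) : cq ((qaf e a e' v hv hK).pm.val Q) (e' (Sum.inr i)) =
    QS.mk (v a) * cq Q (e (Sum.inr i.1)) - QS.mk (v i.1) * cq Q (e (Sum.inr a)) := by
  have h1 : TR.cor ((qaf e a e' v hv hK).pm.val Q) (e' (Sum.inr i)) =
      v a * TR.cor Q (e (Sum.inr i.1)) - v i.1 * TR.cor Q (e (Sum.inr a)) := by
    apply Subtype.ext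
    funext k ω
    have h2 := congrFun ((qaf e a e' v hv hK).pm_val Q k ω) (e' (Sum.inr i))
    refine h2.trans ?_
    show (qmt e a e' (fun j => TR.ev (v j) k ω)).mulVec (Q.v k ω) (e' (Sum.inr i)) + 0 =
      TR.ev (v a) k ω * Q.v k ω (e (Sum.inr i.1)) - TR.ev (v i.1) k ω * Q.v k ω (e (Sum.inr a))
    rw [add_zero]
    unfold Matrix.mulVec dotProduct qmt
    simp only [Matrix.of_apply, Equiv.symm_apply_apply, Sum.elim_inr, sub_mul, ite_mul, zero_mul,
      Finset.sum_sub_distrib, Finset.sum_ite_eq', Finset.mem_univ, if_true]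
  show QS.mk (TR.cor _ _) = _
  rw [h1, map_sub, map_mul, map_mul]
  rfl

end

/-- units have literal representatives which are bounded from below -/
theorem unit_lit {S : Sp} {f : TR S} (hf : f ∈ BR S) (hu : IsUnit (QS.mk f)) : ∃ g ∈ BR S, QS.mk g = QS.mk f ∧
    ∃ K : ℕ → ℝ, S.Sub K ∧ ∀ᶠ k in UF, ∀ ω, (S.F k).μ ω ≠ 0 → 1 ≤ K k * |TR.ev g k ω| := by
  classical
  obtain ⟨y, hy⟩ := hu.exists_right_inv
  obtain ⟨h, rfl⟩ := mk_surj y
  rw [← map_mul, ← map_one QS.mk, QS.mk_eq] at hy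
  obtain ⟨E, K, hE, hK, hb⟩ := hy
  obtain ⟨Kf, hKf, hbf⟩ := f.2
  obtain ⟨Kh, hKh, hbh⟩ := h.2
  have hK2 : ∀ᶠ k in UF, K k * S.dl 1 k ≤ 1 / 2 := by
    filter_upwards [hK.eventually_le (show (0 : ℝ) < 1 / 2 by norm_num), S.lim.eventually (eventually_ge_atTop 2)] with k h1 h2
    have h3 : S.dl 1 k = 2 ^ (-(1 * (S.F k).n)) := rfl
    rw [h3]
    have hn : (2 : ℝ) ≤ (S.F k).n := h2
    calc K k * 2 ^ (-(1 * (S.F k).n)) ≤ 2 ^ (1 / 2 * (S.F k).n) * 2 ^ (-(1 * (S.F k).n)) :=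
          mul_le_mul_of_nonneg_right (by linarith : K k ≤ 2 ^ (1 / 2 * (S.F k).n)) (by positivity)
      _ = (2 : ℝ) ^ (1 / 2 * (S.F k).n + -(1 * (S.F k).n)) := (Real.rpow_add (by norm_num) _ _).symm
      _ ≤ (2 : ℝ) ^ (-1 : ℝ) := Real.rpow_le_rpow_of_exponent_le (by norm_num) (by linarith)
      _ = 1 / 2 := by rw [Real.rpow_neg_one]; norm_num
  obtain ⟨g, hg⟩ : ∃ g : TR S, ∀ k ω, TR.ev g k ω = if 1 / 2 ≤ |TR.ev f k ω| * (Kh k + 1) then TR.ev f k ω else 1 := by
    refine ⟨⟨fun k ω => if 1 / 2 ≤ |TR.ev f k ω| * (Kh k + 1) then TR.ev f k ω else 1, fun k => Kf k + 1,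
      hKf.add (S.Sub_const zero_le_one), ?_⟩, fun k ω => rfl⟩
    filter_upwards [hbf, hKf.1] with k h1 h2 ω hω
    have h3 : |TR.ev f k ω| ≤ Kf k := h1 ω hω
    show |if 1 / 2 ≤ |TR.ev f k ω| * (Kh k + 1) then TR.ev f k ω else 1| ≤ Kf k + 1
    split_ifs
    · linarith
    · rw [abs_one]; linarith
  refine ⟨g, ?_, ?_, fun k => 2 * (Kh k + 1) + 1,
    ((S.Sub_const zero_le_two).mul (hKh.add (S.Sub_const zero_le_one))).add (S.Sub_const zero_le_one), ?_⟩
  · have h1 : BL f := hf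
    show BL g
    filter_upwards [h1] with k hk ω ω' a b c
    rw [hg, hg, hk ω ω' a b c]
  · rw [QS.mk_eq]
    apply TR.Te.ag
    refine ⟨E, hE, ?_⟩
    filter_upwards [hb, hK2, hbh, hKh.1] with k h1 h2 h3 h4 ω hω he
    rw [hg, if_pos]
    have h5 : |TR.ev f k ω * TR.ev h k ω - 1| ≤ K k * S.dl 1 k := h1 ω hω he
    have h6 : |TR.ev h k ω| ≤ Kh k := h3 ω hω
    have h7 : 1 - |TR.ev f k ω * TR.ev h k ω| ≤ 1 / 2 := by
      have := abs_sub_abs_le_abs_sub (1 : ℝ) (TR.ev f k ω * TR.ev h k ω)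
      rw [abs_one, abs_sub_comm] at this
      linarith
    rw [abs_mul] at h7
    have h8 : |TR.ev f k ω| * |TR.ev h k ω| ≤ |TR.ev f k ω| * (Kh k + 1) :=
      mul_le_mul_of_nonneg_left (by linarith) (abs_nonneg _)
    linarith
  · filter_upwards [hKh.1] with k h4 ω _
    rw [hg]
    split_ifs with h5
    · nlinarith [abs_nonneg (TR.ev f k ω)]
    · rw [abs_one]; linarith

/-- the affine quotients of the point of the system over labels without information are full -/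
def FQ {E0 : ℕ → ℕ} {ιs : Type} [Fintype ν] [DecidableEq ν] {R : Sp} (s : MSys R M E0 ιs) (M' : ℕ)
    (e : ι ⊕ ν ≃ Fin M) : Prop :=
  ∀ (l : Lab R), Nul R (fun k => (l k).info) → ∀ (a : ν) (e' : ι ⊕ {i : ν // i ≠ a} ≃ Fin M')
    (v : ν → TR (l.ovr 1 one_pos)) (hv : ∀ j, v j ∈ BR (l.ovr 1 one_pos))
    (hK : ∃ K : ℕ → ℝ, (l.ovr 1 one_pos).Sub K ∧ ∀ᶠ k in UF, ∀ ω, ((l.ovr 1 one_pos).F k).μ ω ≠ 0 →
      1 ≤ K k * |TR.ev (v a) k ω|),
    (M' : ℝ) ≤ Pool.Agent.Helper31.EC.H (((qaf e a e' v hv hK).pm.val (oQ l s.Q)).dg 1)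

/-- the core, affine form -/
theorem aff_core {W R : Sp} (π : Pj W R) {E0 : ℕ → ℕ} {ιs : Type} [Fintype ι] [Fintype ν] [DecidableEq ν]
    (s : MSys R M E0 ιs) (e : ι ⊕ ν ≃ Fin M) (hs : FQ s M' e) (hM : M' + 1 = M)
    {al : ℕ → Type} (U : ∀ k, (W.F k).Ω → al k)
    (hU : Nul W (fun k => I (fc (F := W.F k) (Setoid.ker (U k))) (fc (Setoid.ker (π.π k))) ⊥))
    (v : ν → QS W) (a : ν) (ha : IsUnit (v a)) (hvU : vd v 1 ≤ io U)
    (pt : ι ⊕ ν → QS W) (hpt : ∀ i, pt i = π.qs (cq s.Q (e i))) :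
    (M' : ℝ) ≤ Pool.Agent.Helper31.EC.h (vd (fun b => pt (Sum.inl b)) 1 ⊔ vd (Pool.Agent.Helper96.FWC.wg
      (fun j => pt (Sum.inr j)) v a) 1) (vd v 1) := by
  obtain ⟨V, hinf, hV⟩ := exists_lb π U hU v hvU
  have hcard' : Fintype.card (ι ⊕ {i : ν // i ≠ a}) = M' := by
    have h1 := Fintype.card_congr e
    have h2 : Fintype.card {i : ν // i ≠ a} = Fintype.card ν - 1 := by
      rw [Fintype.card_subtype_compl, Fintype.card_subtype_eq]
    have h3 : 0 < Fintype.card ν := Fintype.card_pos_iff.mpr ⟨a⟩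
    rw [Fintype.card_sum, Fintype.card_fin] at h1
    rw [Fintype.card_sum, h2]
    omega
  obtain ⟨e', -⟩ : ∃ e' : ι ⊕ {i : ν // i ≠ a} ≃ Fin M', True := ⟨Fintype.equivFinOfCardEq hcard', trivial⟩
  choose u hu using fun j => Subring.mem_map.mp (hV j)
  obtain ⟨g, hg, hgm, hgK⟩ := unit_lit (hu a).1 (by
    rw [(hu a).2]
    exact ha.map (qc V))
  obtain ⟨v', hv'⟩ : ∃ v' : ν → TR (W.chg V 1 one_pos), v' = fun j => if j = a then g else u j := ⟨_, rfl⟩
  have hvb : ∀ j, v' j ∈ BR (W.chg V 1 one_pos) := by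
    intro j
    rw [hv']
    show (if j = a then g else u j) ∈ _
    split_ifs
    · exact hg
    · exact (hu j).1
  have hvm : ∀ j, QS.mk (v' j) = qc V (v j) := by
    intro j
    rw [hv']
    show QS.mk (if j = a then g else u j) = _
    split_ifs with hj
    · rw [hgm, (hu a).2, hj]
    · exact (hu j).2
  have hva : v' a = g := by rw [hv']; exact if_pos rfl
  have hK' : ∃ K : ℕ → ℝ, (W.chg V 1 one_pos).Sub K ∧ ∀ᶠ k in UF, ∀ ω, ((W.chg V 1 one_pos).F k).μ ω ≠ 0 →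
      1 ≤ K k * |TR.ev (v' a) k ω| := by
    rw [hva]
    exact hgK
  have key := hs (lbI π V) hinf a e' v' hvb hK'
  rw [vv_dg] at key
  obtain ⟨y, hy⟩ : ∃ y : ι ⊕ {i : ν // i ≠ a} → QS W, y = Sum.elim (fun b => pt (Sum.inl b))
    (fun i => v a * pt (Sum.inr i.1) - v i.1 * pt (Sum.inr a)) := ⟨_, rfl⟩
  have hx : ∀ i, cq (oQ (lbI π V) s.Q) (e i) = qc V (pt i) := by
    intro i
    rw [hpt]
    rfl
  have hcq : ∀ t, cq ((qaf (S := (lbI π V).ovr 1 one_pos) e a e' v' hvb hK').pm.val (oQ (lbI π V) s.Q)) (e' t) =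
      qc V (y t) := by
    intro t
    rcases t with b | i
    · have h1 := qaf_inl (S := (lbI π V).ovr 1 one_pos) e a e' v' hvb hK' (oQ (lbI π V) s.Q) b
      rw [hx] at h1
      rw [hy]
      exact h1
    · have h1 := qaf_inr (S := (lbI π V).ovr 1 one_pos) e a e' v' hvb hK' (oQ (lbI π V) s.Q) i
      rw [hx, hx] at h1
      have h2 : QS.mk (v' a) * qc V (pt (Sum.inr i.1)) - QS.mk (v' i.1) * qc V (pt (Sum.inr a)) = qc V (y (Sum.inr i)) := by
        rw [hvm, hvm, ← map_mul, ← map_mul, ← map_sub, hy]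
        rfl
      exact h1.trans h2
  obtain ⟨x, hxx⟩ : ∃ x : Fin M' → QS (W.chg V 1 one_pos),
    x = cq ((qaf (S := (lbI π V).ovr 1 one_pos) e a e' v' hvb hK').pm.val (oQ (lbI π V) s.Q)) := ⟨_, rfl⟩
  have hcq' : ∀ t, x (e' t) = qc V (y t) := by
    intro t
    rw [hxx]
    exact hcq t
  have key' : (M' : ℝ) ≤ Pool.Agent.Helper31.EC.H (vd x 1) := by
    rw [hxx]
    exact key
  have h1 : vd x 1 ≤ vd (fun t => qc V (y t)) 1 := by
    rw [vd_le]
    intro m
    obtain ⟨t, rfl⟩ := e'.surjective m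
    rw [hcq' t]
    exact dg_le_vd (fun t => qc V (y t)) 1 t
  have h2 := le_of_chg y v hV (key'.trans (H_mono h1))
  refine h2.trans (h_mono ?_)
  rw [vd_le]
  intro t
  rw [hy]
  rcases t with b | i
  · exact (dg_le_vd (fun b => pt (Sum.inl b)) 1 b).trans le_sup_left
  · have h1 := dg_le_vd (Pool.Agent.Helper96.FWC.wg (fun j => pt (Sum.inr j)) v a) 1 i.1
    refine le_trans (le_of_eq ?_) (h1.trans le_sup_right)
    show dg (v a * pt (Sum.inr i.1) - v i.1 * pt (Sum.inr a)) 1 = dg (pt (Sum.inr i.1) * v a - pt (Sum.inr a) * v i.1) 1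
    congr 1
    ring

/-- STQE FROM THE AFFINE QUOTIENTS of the systems on events of extensions -/
theorem stqe_aff {S S0 : Sp} (π : Pj S S0) {E0 : ℕ → ℕ} {ιs : Type} [Fintype ι] [Fintype ν] [DecidableEq ν]
    (s : MSys S0 M E0 ιs) (e : ι ⊕ ν ≃ Fin M) (hM : M' + 1 = M)
    (hs : ∀ (T : Sp) (p : Pj T S0) (E : ∀ k, (T.F k).Ω → Prop) (hE : 0 < ul (T.pr E)), FQ (s.im p E hE) M' e)
    (q : ι → QS S) (y : ν → QS S) (hpt : ∀ i, Sum.elim q y i = π.qs (cq s.Q (e i))) :
    Pool.Agent.Helper13.AM.STQE q y 1 := by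
  intro T p E hE al U hU v a ha hvU k hk0 hk1
  obtain ⟨φ, hφ⟩ : ∃ φ : QS S →+* QS (T.rest E), φ = (QS.rest E hE).comp p.qs := ⟨_, rfl⟩
  have hpt' : ∀ i, φ (Sum.elim q y i) = (imq (p.comp π) E).qs (cq (s.im (p.comp π) E hE).Q (e i)) := by
    intro i
    rw [hpt, hφ]
    rfl
  have hU' : Nul (T.rest E) (fun k => I (fc (F := (T.rest E).F k) (Setoid.ker (U k)))
      (fc (Setoid.ker ((imq (p.comp π) E).π k))) ⊥) := by
    refine hU.of_le (Eventually.of_forall fun k => I_nonneg _ _ _) (Eventually.of_forall fun k => ?_)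
    apply I_mono_right
    rw [sup_bot_eq]
    apply fc_mono
    intro ω ω' h
    have h' : p.π k ω = p.π k ω' := h
    show π.π k (p.π k ω) = π.π k (p.π k ω')
    rw [h']
  have h2 := aff_core (W := T.rest E) (imq (p.comp π) E) (s.im (p.comp π) E hE) e (hs T (p.comp π) E hE) hM U hU' v a
    ha hvU (fun i => φ (Sum.elim q y i)) hpt'
  have hc : Fintype.card ι + Fintype.card ν = M' + 1 := by
    have := Fintype.card_congr e
    rw [Fintype.card_sum, Fintype.card_fin] at this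
    omega
  have h3 : ((Fintype.card ι + Fintype.card ν : ℕ) : ℝ) - 1 = M' := by
    rw [hc]
    push_cast
    ring
  have e2 : vd (fun b => φ (Sum.elim q y (Sum.inl b))) 1 = restL E hE (p.map (vd q 1)) := by
    rw [← p.qs_vd, ← QS.rest_vd, hφ]
    rfl
  rw [← h3] at h2
  have h5 := wg_level (fun b => φ (Sum.elim q y (Sum.inl b))) (fun j => φ (Sum.elim q y (Sum.inr j))) v a h2 hk0 hk1
  rw [e2, hφ] at h5
  exact h5

end

end Pool.Agent.Helper24.PR
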