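import Pool.Agent.Helper24.PR.Stq
import Pool.Agent.Helper24.PR.Prq

/-! PROPER QUOTIENTS: points attached to systems with full hull; (PR) for classes of corners whose points are attached. -/

set_option autoImplicit false

namespace Pool.Agent.Helper24.PR

open Finset Filter Topology Matrix Pool.Agent.Helper69.RK Pool.Agent.Helper31.EC Pool.Agent.Helper31.EC.Sp
open Pool.Agent.Helper40.EL Pool.Agent.Helper89.LX Pool.Agent.Helper3.LF Pool.Agent.Helper84.MT
open Pool.Agent.Helper5.HB Pool.Agent.Helper5.DO QS Pool.Agent.Helper38.NS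
open Pool.Agent.Helper36.AM (volO HQ STO MCl Hom)
open Pool.Agent.Helper13.AM (CD Tri STQE)

noncomputable section

/-- a class of systems in `R ^ M`, closed under events of extensions, whose quotients of dimension `M'` are full -/
structure Acl (M M' : ℕ) (E0 : ℕ → ℕ) (ιs : Type) (TT : ∀ S : Sp, MSys S M E0 ιs → Prop) : Prop where
  im : ∀ S s, TT S s → ∀ (T : Sp) (p : Pj T S) (A : ∀ k, (T.F k).Ω → Prop) (hA : 0 < ul (T.pr A)),
    TT (Sp.im p A) (s.im p A hA)
  qf : ∀ S s, TT S s → QF s M'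

/-- the point `pt` is ATTACHED: it is the point of a system of such a class, up to a polynomial change of coordinates
with coefficients of the base which has an inverse on the right -/
def Att {S : Sp} {κ' : Type} (M' : ℕ) (pt : κ' → QS S) : Prop :=
  ∃ (M : ℕ) (E0 : ℕ → ℕ) (ιs : Type) (TT : ∀ S : Sp, MSys S M E0 ιs → Prop) (S0 : Sp) (s : MSys S0 M E0 ιs)
    (π : Pj S S0) (L : κ' → MvPolynomial (Fin M) (QS S)) (LI : Fin M → MvPolynomial κ' (QS S)),
    Acl M M' E0 ιs TT ∧ TT S0 s ∧ (∀ i, L i ∈ PK ⊥) ∧ (∀ i, MvPolynomial.bind₁ LI (L i) = MvPolynomial.X i) ∧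
    ∀ i, pt i = MvPolynomial.eval (fun j => π.qs (cq s.Q j)) (L i)

/-- attached points have full quotients -/
theorem Att.stqe {S : Sp} {ι ν : Type} [Fintype ι] [Fintype ν] {q : ι → QS S} {R : ν → QS S} {M' : ℕ}
    (h : Att M' (Sum.elim q R)) (hc : Fintype.card ι + Fintype.card ν = M' + 1) (w : ν → ℝ)
    (H : ν → MvPolynomial (ι ⊕ ν) (QS S)) (hH : ∀ j, H j ∈ PK ⊥)
    (low : ∀ j n, (H j).coeff n ≠ 0 → ∀ l, n (Sum.inr l) ≠ 0 → w l < w j) :
    STQE q (fun j => R j - MvPolynomial.eval (Sum.elim q R) (H j)) 1 := by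
  obtain ⟨M, E0, ιs, TT, S0, s, π, L, LI, hT, hs, h1, h2, h3⟩ := h
  exact stqe_of π s (fun T p E hE => hT.qf _ _ (hT.im _ _ hs T p E hE)) hc q R L h1 LI h2 h3 w H hH low

/-- extensions -/
theorem Att.pull {S T : Sp} {κ' : Type} {M' : ℕ} {pt : κ' → QS S} (h : Att M' pt) (p : Pj T S) :
    Att M' (fun i => p.qs (pt i)) := by
  obtain ⟨M, E0, ιs, TT, S0, s, π, L, LI, hT, hs, h1, h2, h3⟩ := h
  refine ⟨M, E0, ιs, TT, S0, s, p.comp π, fun i => MvPolynomial.map p.qs (L i), fun i => MvPolynomial.map p.qs (LI i),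
    hT, hs, fun i m => ?_, fun i => ?_, fun i => ?_⟩
  · rw [MvPolynomial.coeff_map]
    show dg (p.qs ((L i).coeff m)) 1 ≤ ⊥
    rw [p.qs_dg, le_antisymm (h1 i m) _root_.bot_le, p.map_bot]
  · rw [← MvPolynomial.map_bind₁, h2, MvPolynomial.map_X]
  · show p.qs (pt i) = _
    rw [h3]
    exact MvPolynomial.map_eval p.qs _ _

/-- events -/
theorem Att.rest {S : Sp} {κ' : Type} {M' : ℕ} {pt : κ' → QS S} (h : Att M' pt) (E : ∀ k, (S.F k).Ω → Prop)
    (hE : 0 < ul (S.pr E)) : Att M' (fun i => QS.rest E hE (pt i)) := by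
  obtain ⟨M, E0, ιs, TT, S0, s, π, L, LI, hT, hs, h1, h2, h3⟩ := h
  refine ⟨M, E0, ιs, TT, Sp.im π E, s.im π E hE, imq π E, fun i => MvPolynomial.map (QS.rest E hE) (L i),
    fun i => MvPolynomial.map (QS.rest E hE) (LI i), hT, hT.im _ _ hs S π E hE, fun i m => ?_, fun i => ?_, fun i => ?_⟩
  · rw [MvPolynomial.coeff_map]
    show dg (QS.rest E hE ((L i).coeff m)) 1 ≤ ⊥
    rw [QS.rest_dg, le_antisymm (h1 i m) _root_.bot_le, restL_bot]
  · rw [← MvPolynomial.map_bind₁, h2, MvPolynomial.map_X]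
  · show QS.rest E hE (pt i) = _
    rw [h3]
    exact MvPolynomial.map_eval (QS.rest E hE) _ _

/-- polynomial changes of coordinates with an inverse on the right -/
theorem Att.change {S : Sp} {κ' κ'' : Type} {M' : ℕ} {pt : κ' → QS S} (h : Att M' pt)
    (K : κ'' → MvPolynomial κ' (QS S)) (hK : ∀ i, K i ∈ PK ⊥) (KI : κ' → MvPolynomial κ'' (QS S))
    (hKI : ∀ i, MvPolynomial.bind₁ KI (K i) = MvPolynomial.X i) : Att M' (fun i => MvPolynomial.eval pt (K i)) := by
  obtain ⟨M, E0, ιs, TT, S0, s, π, L, LI, hT, hs, h1, h2, h3⟩ := h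
  refine ⟨M, E0, ιs, TT, S0, s, π, fun i => MvPolynomial.bind₁ L (K i), fun i => MvPolynomial.bind₁ KI (LI i),
    hT, hs, fun i => bind_mem L h1 (hK i), fun i => ?_, fun i => ?_⟩
  · rw [← MvPolynomial.bind₁_bind₁, MvPolynomial.bind₁_bind₁ (f := L)]
    have e1 : (fun i => MvPolynomial.bind₁ LI (L i)) = MvPolynomial.X := funext h2
    rw [e1]
    have e2 : MvPolynomial.bind₁ (MvPolynomial.X : κ' → MvPolynomial κ' (QS S)) (K i) = K i :=
      MvPolynomial.aeval_X_left_apply _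
    rw [e2, hKI]
  · show MvPolynomial.eval pt (K i) = _
    rw [eval_bind]
    congr 1
    exact congrArg _ (funext h3)

/-- other indices -/
theorem Att.congr {S : Sp} {κ' κ'' : Type} {M' : ℕ} {pt : κ' → QS S} (h : Att M' pt) (f : κ'' ≃ κ') :
    Att M' (fun i => pt (f i)) := by
  have h1 := h.change (fun i => MvPolynomial.X (f i)) (fun i => X_mem _ _) (fun j => MvPolynomial.X (f.symm j))
    (fun i => by rw [MvPolynomial.bind₁_X_right, Equiv.symm_apply_apply])
  simp only [MvPolynomial.eval_X] at h1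
  exact h1

/-- (PR) for classes of attached corners -/
theorem pr_of_att {d N r : ℕ} (w : Fin N → ℝ) (C : ∀ S : Sp, CD S d N r → Prop) (h : ∀ S c, C S c → Att (d + N) c.pt) :
    Pool.Agent.Helper13.AM.PR w C := by
  intro S c hc H hH
  exact (h S c hc).stqe (by rw [Fintype.card_fin, Fintype.card_fin]; omega) w H hH.real hH.low

/-- homogeneous classes -/
theorem acl_hom {M : ℕ} {Cl : MCl (M + 1)} {g r : ℕ} {w : Fin (M + 1) → ℝ} {ρ : ℝ}
    {TT : ∀ S : Sp, MSys S (M + 1) (lin g) (Fin r) → Prop} (h : Hom M Cl g r w ρ TT) (hst : ST M) :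
    Acl (M + 1) M (lin g) (Fin r) TT where
  im := h.im
  qf := fun S s hs => qf_of s (fun D => vol_of_volO _ (Nat.succ_pos M) (by rw [h.hull S s hs]; push_cast; ring) D)
    fun κ => qh_of_st hst _ κ _

/-- points of homogeneous classes are attached -/
theorem att_hom {M : ℕ} {Cl : MCl (M + 1)} {g r : ℕ} {w : Fin (M + 1) → ℝ} {ρ : ℝ}
    {TT : ∀ S : Sp, MSys S (M + 1) (lin g) (Fin r) → Prop} (h : Hom M Cl g r w ρ TT) (hst : ST M) {S S0 : Sp}
    {s : MSys S0 (M + 1) (lin g) (Fin r)} (hs : TT S0 s) (π : Pj S S0) : Att M (fun j => π.qs (cq s.Q j)) := by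
  have h1 := acl_hom h hst
  refine ⟨M + 1, lin g, Fin r, TT, S0, s, π, MvPolynomial.X, MvPolynomial.X, h1, hs, fun i => X_mem _ _, fun i => ?_, fun i => ?_⟩
  · rw [MvPolynomial.bind₁_X_right]
  · rw [MvPolynomial.eval_X]

end

end Pool.Agent.Helper24.PR
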