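import Pool.Agent.Helper24.PR.Nri

/-! PROPER QUOTIENTS. Polynomial relations over labels over labels; the quotients of a system without relations over
labels which do not leak have no relations. -/

set_option autoImplicit false

namespace Pool.Agent.Helper24.PR

open Finset Filter Topology Matrix Pool.Agent.Helper69.RK Pool.Agent.Helper31.EC Pool.Agent.Helper31.EC.Sp
open Pool.Agent.Helper40.EL Pool.Agent.Helper89.LX Pool.Agent.Helper3.LF Pool.Agent.Helper84.MT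
open Pool.Agent.Helper5.HB Pool.Agent.Helper5.DO QS Pool.Agent.Helper38.NS

noncomputable section

variable {S T : Sp} {M M' D : ℕ} {E E' : ℕ → ℕ} {ι : Type}

/-- the space over a label over a label and the space over the composed label -/
def cmp (l : Lab S) (l2 : Lab (l.ovr 1 one_pos)) (A : ∀ k, ((l2.ovr 1 one_pos).F k).Ω → Prop) :
    Pj (((l.comp 1 one_pos l2).ovr 1 one_pos).rest A) ((l2.ovr 1 one_pos).rest A) where
  π := fun _ ω => ω
  law := fun k => push_id (((l2.ovr 1 one_pos).rest A).F k).μ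
  hZ := by
    intro k ω ω' h1 h2
    have a1 : (l2 k).T.μ ω ≠ 0 := ((((l2.ovr 1 one_pos)).F k).rest_supp (A k) ω h1).1
    have a2 : (l2 k).T.μ ω' ≠ 0 := ((((l2.ovr 1 one_pos)).F k).rest_supp (A k) ω' h2).1
    have e1 : (l k).T.μ ((l2 k).p.π ω) ≠ 0 := (l2 k).p.supp ω a1
    have e2 : (l k).T.μ ((l2 k).p.π ω') ≠ 0 := (l2 k).p.supp ω' a2
    have e3 : (l2 k).T.Z ω ω' ↔ ((l k).V ((l2 k).p.π ω) ((l2 k).p.π ω') ∧
      (l k).T.Z ((l2 k).p.π ω) ((l2 k).p.π ω')) := (l2 k).p.hZ ω ω' a1 a2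
    have e4 := (l k).p.hZ _ _ e1 e2
    show ((((l k).V ((l2 k).p.π ω) ((l2 k).p.π ω')) ∧ (l2 k).V ω ω') ∧
      (S.F k).Z ((l k).p.π ((l2 k).p.π ω)) ((l k).p.π ((l2 k).p.π ω'))) ↔ ((l2 k).V ω ω' ∧ (l2 k).T.Z ω ω')
    rw [e3, e4]
    tauto
  hn := by
    intro k
    show 1 * (S.F k).n = 1 * (l2 k).T.n
    have h1 : (l2 k).T.n = 1 * (l k).T.n := (l2 k).hn
    rw [h1, one_mul, one_mul, one_mul, (l k).hn]

theorem cmp_cq (l : Lab S) (l2 : Lab (l.ovr 1 one_pos)) (A : ∀ k, ((l2.ovr 1 one_pos).F k).Ω → Prop) (Q : S.VV M)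
    (i : Fin M) : (cmp l l2 A).qs (cq ((oQ l2 (oQ l Q)).rest A) i) =
      cq (VV.rest (S := (l.comp 1 one_pos l2).ovr 1 one_pos) A (oQ (l.comp 1 one_pos l2) Q)) i := rfl

/-- NO RELATION OVER LABELS OVER LABELS -/
theorem nrl_comp {l : Lab S} {l2 : Lab (l.ovr 1 one_pos)} {Q : S.VV M} (h : NRl D (l.comp 1 one_pos l2) Q) :
    NRl D l2 (oQ l Q) := by
  intro A hA r h0 h1
  refine nr_of_qs (cmp l l2 A) h1 ?_
  rw [(cmp l l2 A).map_bot]
  exact h A hA r h0 h1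

end

end Pool.Agent.Helper24.PR
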