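import Pool.Agent.Helper24.PR.Ovl
import Pool.Agent.Helper84.MT.Leaf0

/-! PROPER QUOTIENTS. Exact connectedness over a label which does not leak, and of images of systems of leaves. -/

set_option autoImplicit false

namespace Pool.Agent.Helper24.PR

open Finset Filter Topology Matrix Pool.Agent.Helper69.RK Pool.Agent.Helper31.EC Pool.Agent.Helper31.EC.Sp
open Pool.Agent.Helper40.EL Pool.Agent.Helper89.LX Pool.Agent.Helper3.LF Pool.Agent.Helper84.MT

noncomputable section

variable {S : Sp} {M M' κ : ℕ} {E E' : ℕ → ℕ} {ι : Type}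

/-- the system over a label without leak at the point and at the windows `0` -/
abbrev ovm (s : MSys S M E ι) {l : Lab S} (hl : s.DMc 0 l) : MSys (l.ovr 1 one_pos) M E ι := ovl s l fun i => hl (some i)

theorem ovm_Q (s : MSys S M E ι) {l : Lab S} (hl : s.DMc 0 l) : (ovm s hl).Q = (l.pj.vv s.Q).chg l.V 1 one_pos := rfl

theorem cnd_ovm (s : MSys S M E ι) {l : Lab S} (hl : s.DMc 0 l) (c : ℝ) :
    (ovm s hl).cnd c = fun i => l.up 1 one_pos (s.cnd c i) := cnd_ovl s l _ c

/-- labels over the label are labels of the system -/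
theorem dmc_comp {s : MSys S M E ι} {l : Lab S} (hl : s.DMc 0 l) {c : ℝ} (hc : 0 ≤ c) {l2 : Lab (l.ovr 1 one_pos)}
    (h2 : (ovm s hl).DMc c l2) : s.DMc c (l.comp 1 one_pos l2) := by
  unfold MSys.DMc at h2
  rw [cnd_ovm] at h2
  exact Lab.DMf.comp (MSys.DMc.mono hc hl) h2

/-- EXACT CONNECTEDNESS OVER A LABEL -/
theorem con_ovm {s : MSys S M E ι} {l : Lab S} (hl : s.DMc 0 l) {c : ℝ} (hc : 0 ≤ c) (h : s.Con c) :
    (ovm s hl).Con c := by
  unfold MSys.Con
  rw [cnd_ovm]
  have h0 : l.IsMaxf (s.cnd c) := by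
    refine ⟨MSys.DMc.mono hc hl, fun l' hl' => ?_⟩
    rw [Lab.Conf.info h hl', Lab.Conf.info h (MSys.DMc.mono hc hl)]
  exact Lab.IsMaxf.conf (c := 1) (hc := one_pos) h0 (i₀ := none) (pcd_Bd s.Q)

/-- exact connectedness of images -/
theorem con_img {s : MSys S M E ι} {c : ℝ} (h : s.Con c) (P : PMap S M M' κ) (hκ : 1 ≤ κ)
    (hE : ∀ D, E (κ * D) ≤ E' D) : (s.img P hκ hE).Con c :=
  fun l hl => h l (MSys.DMc.of_img hl)

end

end Pool.Agent.Helper24.PR
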