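import Pool.Agent.Helper24.PR.Tm
import Pool.Agent.Helper36.AM.Top
import Pool.Agent.Helper5.HB.Lbl

/-! PROPER QUOTIENTS. Functions of the ring `QS` which have representatives literally known to the base; polynomial maps
with such coefficients; labels which contain a variable without information and finitely many functions known to it;
the images for systems with the structure theorem in all degrees. -/

set_option autoImplicit false

namespace Pool.Agent.Helper24.PR

open Finset Filter Topology Matrix Pool.Agent.Helper69.RK Pool.Agent.Helper31.EC Pool.Agent.Helper31.EC.Sp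
open Pool.Agent.Helper40.EL Pool.Agent.Helper89.LX Pool.Agent.Helper3.LF Pool.Agent.Helper84.MT
open Pool.Agent.Helper5.HB Pool.Agent.Helper5.DO QS Pool.Agent.Helper38.NS
open Pool.Agent.Helper36.AM (volO HQ STO MCl)

noncomputable section

variable {S T : Sp} {M M' D κ : ℕ} {E E' : ℕ → ℕ} {ι : Type}

variable (S) in
/-- functions with a representative which is literally known to the base -/
def LQ : Subring (QS S) := (BR S).map QS.mk

/-- polynomials with coefficients in `LQ` are polynomials over the literal functions -/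
theorem PB_lift {σ : Type} (P : MvPolynomial σ (QS S)) (h : ∀ m, P.coeff m ∈ LQ S) :
    ∃ P' : MvPolynomial σ (TR S), P' ∈ PB S σ ∧ MvPolynomial.map QS.mk P' = P ∧ P'.totalDegree ≤ P.totalDegree := by
  classical
  choose F hF using fun m => Subring.mem_map.mp (h m)
  refine ⟨∑ m ∈ P.support, MvPolynomial.monomial m (F m), ?_, ?_, ?_⟩
  · refine (PB S σ).sum_mem fun m _ => ?_
    intro m'
    rw [MvPolynomial.coeff_monomial]
    split_ifs
    · exact (hF m).1
    · exact (BR S).zero_mem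
  · rw [map_sum]
    conv_rhs => rw [P.as_sum]
    refine Finset.sum_congr rfl fun m _ => ?_
    rw [MvPolynomial.map_monomial, (hF m).2]
  · apply MvPolynomial.totalDegree_finsetSum_le
    intro m hm
    exact (MvPolynomial.totalDegree_monomial_le _ _).trans (MvPolynomial.le_totalDegree hm)

theorem exists_tmap (P : Fin M' → MvPolynomial (Fin M) (QS S)) (hd : ∀ i, (P i).totalDegree ≤ κ)
    (hP : ∀ i m, (P i).coeff m ∈ LQ S) : ∃ f : TMap S M M' κ, ∀ i, f.qp i = P i := by
  choose F h1 h2 h3 using fun i => PB_lift (P i) (hP i)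
  exact ⟨⟨F, fun i => (h3 i).trans (hd i), h1⟩, h2⟩

/-! ### the image for systems with the structure theorem in all degrees -/

theorem quo_fullO [Finite ι] (hκ : 1 ≤ κ) (s : MSys S M E ι) (hv : ∀ D, (M : ℝ) ≤ s.vol D 0)
    {l : Lab S} (hl : s.DMc 0 l) (f : TMap (l.ovr 1 one_pos) M M' κ)
    (G : Fin M → MvPolynomial (Fin M') (QS (l.ovr 1 one_pos)))
    (hG : ∀ i, MvPolynomial.bind₁ G (f.qp i) = MvPolynomial.X i) (hE : ∀ D, E (κ * D) ≤ E' D)
    (hst : volO ((ovm s hl).img f.pm hκ hE) 0 ≤ HQ ((ovm s hl).img f.pm hκ hE) 0) :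
    (M' : ℝ) ≤ H ((f.pm.val (oQ l s.Q)).dg 1) := by
  have h0 : (M' : ℝ) ≤ volO ((ovm s hl).img f.pm hκ hE) 0 := by
    refine le_ciInf fun D => ?_
    obtain ⟨xs, hxs⟩ := s.exists_can (κ * D) 0
    have hv' := hv (κ * D)
    rw [← s.vol_eq hxs.1] at hv'
    obtain ⟨x, hx⟩ := ((ovm s hl).img f.pm hκ hE).exists_can D 0
    have hNR : NRl D (Pool.Agent.Helper5.HB.lb x) (f.pm.val (oQ l s.Q)) := by
      apply f.nrl G hG
      apply nrl_comp
      apply NRl_of_vol s.Q hxs.1 hv'
      exact dmc_comp hl le_rfl (MSys.DMc.of_img hx.2.1)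
    rw [← MSys.vol_eq _ hx.1]
    exact vol_ge _ hx.1.1 hNR
  have h2 := H_up1_le (((ovm s hl).img f.pm hκ hE).kap 0) ((f.pm.val (oQ l s.Q)).dg 1)
  exact (h0.trans hst).trans h2

/-- the structure theorem for the images of the system under polynomial maps of degree `κ` which are known to labels of
the window `0` and have inverses on the right -/
def QH [Finite ι] (s : MSys S M E ι) (M' κ : ℕ) (E' : ℕ → ℕ) : Prop :=
  ∀ (hκ : 1 ≤ κ) (hE : ∀ D, E (κ * D) ≤ E' D) (l : Lab S) (hl : s.DMc 0 l) (f : TMap (l.ovr 1 one_pos) M M' κ)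
    (G : Fin M → MvPolynomial (Fin M') (QS (l.ovr 1 one_pos))),
    (∀ i, MvPolynomial.bind₁ G (f.qp i) = MvPolynomial.X i) →
    volO ((ovm s hl).img f.pm hκ hE) 0 ≤ HQ ((ovm s hl).img f.pm hκ hE) 0

/-- the structure theorem in one degree and in all degrees -/
theorem volO_le_HQ [Finite ι] {D : ℕ} (hST : STm D M E ι) (s : MSys S M E ι) : volO s 0 ≤ HQ s 0 := by
  obtain ⟨x, hx⟩ := s.exists_can D 0
  have h1 := (STm_iff.mp hST) S s x hx
  have h2 := Pool.Agent.Helper36.AM.HQ_eq s hx.2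
  rw [h2] at h1
  by_cases hb : BddBelow (Set.range fun D : ℕ => s.vol D 0)
  · exact (ciInf_le hb D).trans h1
  · have h3 : volO s 0 = 0 := Real.iInf_of_not_bddBelow hb
    rw [h3, ← h2]
    exact H_nonneg _

theorem qh_of_st {M' : ℕ} (h : ST M') {g r : ℕ} (s : MSys S M (lin g) (Fin r)) (κ g' : ℕ) : QH s M' κ (lin g') := by
  intro hκ hE l hl f G hG
  obtain ⟨D, hD⟩ := h g' r
  exact volO_le_HQ (hD D le_rfl) _

/-! ### labels -/

/-- the level-1 floor of a coordinate -/
def fl1 {q : ℕ} (y : S.VV q) (i : Fin q) : TR S := ⟨fun k ω => (⌊y.v k ω i / S.dl 1 k⌋ : ℝ) * S.dl 1 k, by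
  obtain ⟨K, hK, h⟩ := y.bd
  refine ⟨fun k => K k + 1, hK.add (S.Sub_const zero_le_one), ?_⟩
  filter_upwards [h] with k a ω hω
  have h1 := a ω hω i
  have hd := S.dl_pos 1 k
  have hd1 : S.dl 1 k ≤ 1 := by
    unfold Sp.dl
    apply Real.rpow_le_one_of_one_le_of_nonpos (by norm_num)
    have := (S.F k).pos
    linarith
  have h3 := Int.floor_le (y.v k ω i / S.dl 1 k)
  have h4 := Int.lt_floor_add_one (y.v k ω i / S.dl 1 k)
  rw [le_div_iff₀ hd] at h3
  rw [div_lt_iff₀ hd] at h4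
  rw [abs_le] at h1 ⊢
  constructor <;> linarith [h1.1, h1.2]⟩

theorem fl1_mk {q : ℕ} (y : S.VV q) (i : Fin q) : QS.mk (fl1 y i) = QS.mk (TR.cor y i) := by
  rw [QS.mk_eq]
  refine ⟨fun _ _ => True, fun _ => 1, Typ_true, S.Sub_const zero_le_one, Eventually.of_forall fun k ω _ _ => ?_⟩
  have hd := S.dl_pos 1 k
  have h3 := Int.floor_le (y.v k ω i / S.dl 1 k)
  have h4 := Int.lt_floor_add_one (y.v k ω i / S.dl 1 k)
  rw [le_div_iff₀ hd] at h3
  rw [div_lt_iff₀ hd] at h4
  show |(⌊y.v k ω i / S.dl 1 k⌋ : ℝ) * S.dl 1 k - y.v k ω i| ≤ 1 * S.dl 1 k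
  rw [abs_le]
  constructor <;> linarith

theorem io_vec {q : ℕ} (y : Fin q → TR S) : io ((TR.vec y).cellv 1) = Finset.univ.sup fun i => QS.dg (QS.mk (y i)) 1 := by
  have h1 : io ((TR.vec y).cellv 1) = (TR.vec y).dg 1 := rfl
  rw [h1]
  apply le_antisymm
  · apply TR.vec_dg_le
    intro i
    have h2 := Finset.le_sup (f := fun i => QS.dg (QS.mk (y i)) 1) (Finset.mem_univ i)
    rw [QS.dg_mk _ le_rfl] at h2
    exact h2
  · refine Finset.sup_le fun i _ => ?_
    rw [QS.dg_mk _ le_rfl]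
    exact TR.cor_dg_le (TR.vec y) i 1

/-- digits of a vector in the ring -/
theorem vv_dg {q : ℕ} (y : S.VV q) : y.dg 1 = vd (cq y) 1 := io_vec (TR.cor y)

/-- literal representatives of a finite family -/
theorem fam_lit {κ' : Type} [Fintype κ'] (x : κ' → QS S) : ∃ (n : ℕ) (Y : S.VV n) (idx : κ' → Fin n),
    (∀ c, QS.mk (fl1 Y (idx c)) = x c) ∧ io (Y.cellv 1) ≤ vd x 1 := by
  choose y hy using fun c => mk_surj (x c)
  refine ⟨Fintype.card κ', TR.vec (fun i => y ((Fintype.equivFin κ').symm i)), Fintype.equivFin κ', fun c => ?_, ?_⟩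
  · rw [fl1_mk, TR.cor_vec, Equiv.symm_apply_apply, hy]
  · rw [io_vec]
    refine Finset.sup_le fun i _ => ?_
    rw [hy]
    exact dg_le_vd x 1 _

/-- rates of conditional entropies from informations, the condition is any variable -/
theorem nul_of_io_le {al : ℕ → Type} (U : ∀ k, (S.F k).Ω → al k) {n : ℕ} (Y : S.VV n) (hY : io (Y.cellv 1) ≤ io U) :
    Nul S (fun k => Pool.Agent.Helper31.EC.h (fc (F := S.F k) (Setoid.ker (Y.cellv 1 k))) (fc (Setoid.ker (U k)))) := by
  have key : ∀ B : S.Inf, io (Y.cellv 1) ≤ cl B →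
      Nul S (fun k => Pool.Agent.Helper31.EC.h (fc (F := S.F k) (Setoid.ker (Y.cellv 1 k))) (fc (B.1 k))) := by
    intro B hB
    rw [io_eq (Y.bdd 1)] at hB
    have h2 : PLe (rpI (Y.bdd 1).toInf) (rpI B) := PLe_rpI.mpr hB
    have h3 : (fun k => Pool.Agent.Helper31.EC.h (rpI (Y.bdd 1).toInf k) (rpI B k)) =
        fun k => Pool.Agent.Helper31.EC.h (fc (F := S.F k) (Setoid.ker (Y.cellv 1 k))) (fc (B.1 k)) := rfl
    unfold PLe at h2
    rw [h3] at h2
    exact h2
  by_cases hU : Bdd U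
  · rw [io_eq hU] at hY
    have h4 := key hU.toInf hY
    have h5 : (fun k => fc (F := S.F k) (hU.toInf.1 k)) = fun k => fc (Setoid.ker (U k)) := rfl
    have h6 : (fun k => Pool.Agent.Helper31.EC.h (fc (F := S.F k) (Setoid.ker (Y.cellv 1 k))) (fc (hU.toInf.1 k))) =
        fun k => Pool.Agent.Helper31.EC.h (fc (F := S.F k) (Setoid.ker (Y.cellv 1 k))) (fc (Setoid.ker (U k))) := by
      funext k
      rw [← congrFun h5 k]
    rw [← h6]
    exact h4
  · have h1 : io U = ⊥ := by
      unfold io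
      rw [dif_neg hU]
    rw [h1, ← cl_bot] at hY
    refine (key _ hY).of_le (Eventually.of_forall fun k => h_nonneg _ _) (Eventually.of_forall fun k => ?_)
    apply h_anti
    show fc (⊤ : Setoid (S.F k).Ω) ≤ _
    rw [fc_top]
    exact bot_le

/-- the label of a variable `U` without information on the base system and of finitely many functions known to it -/
theorem nul_lbl {W R : Sp} (π : Pj W R) {al : ℕ → Type} (U : ∀ k, (W.F k).Ω → al k)
    (hU : Nul W (fun k => I (fc (F := W.F k) (Setoid.ker (U k))) (fc (Setoid.ker (π.π k))) ⊥)) {n : ℕ} (Y : W.VV n)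
    (hY : io (Y.cellv 1) ≤ io U) :
    Nul R (fun k => (lbI π (fun k => Setoid.ker (U k) ⊓ Setoid.ker (Y.cellv 1 k)) k).info) := by
  have h1 := hU.add (nul_of_io_le U Y hY)
  have h2 : Nul R (fun k => I (fc (F := W.F k) (Setoid.ker (U k))) (fc (Setoid.ker (π.π k))) ⊥ +
      Pool.Agent.Helper31.EC.h (fc (F := W.F k) (Setoid.ker (Y.cellv 1 k))) (fc (Setoid.ker (U k)))) := by
    refine Tendsto.congr (fun k => ?_) h1
    rw [π.hn k]
  refine h2.of_le (Eventually.of_forall fun k => I_nonneg _ _ _) (Eventually.of_forall fun k => ?_)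
  show I (fc (F := W.F k) (Setoid.ker (U k) ⊓ Setoid.ker (Y.cellv 1 k))) (fc (Setoid.ker (π.π k))) ⊥ ≤ _
  rw [fc_inf, I_chain, sup_bot_eq]
  exact add_le_add le_rfl (I_le_h_left _ _ _)

end

end Pool.Agent.Helper24.PR
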