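import Pool.Agent.Helper31.EC.Uns
import Pool.Agent.Helper40.EL.D3
import Pool.Agent.Helper38.NS.Deg

/-! Spaces with eventually (along the ultrafilter) equal weights: functions, informations, entropies, null sequences. -/

set_option autoImplicit false

namespace Pool.Agent.Helper24.PR

open Finset Filter Topology Pool.Agent.Helper69.RK Pool.Agent.Helper31.EC Pool.Agent.Helper31.EC.Sp
open Pool.Agent.Helper40.EL QS

noncomputable section

section fin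

variable (F : FSp) (x : F.Ω → ℝ) (a : ∀ ω, 0 ≤ x ω) (b : mass x = 1)

/-- other weights -/
def FMu : FSp := ⟨F.Ω, F.ft, x, a, b, F.Z, F.n, F.pos⟩

variable {x} (h : x = F.μ)

include h

theorem FMu_e (A B : Setoid F.Ω) : (FMu F x a b).e A B = F.e A B := by
  subst h
  rfl

theorem FMu_pb (E : F.Ω → Prop) : (FMu F x a b).pb E = F.pb E := by
  subst h
  rfl

theorem FMu_nv (A : Setoid F.Ω) (ω : F.Ω) : nv (FMu F x a b) A ω = nv F A ω := by
  subst h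
  rfl

theorem FMu_I (A B : Setoid F.Ω) : I (fc (F := FMu F x a b) A) (fc B) ⊥ = I (fc (F := F) A) (fc B) ⊥ := by
  subst h
  rfl

end fin

variable {S : Sp} (ν : ∀ k, (S.F k).Ω → ℝ) (n0 : ∀ k ω, 0 ≤ ν k ω) (m1 : ∀ k, mass (ν k) = 1)

/-- the space with other weights -/
def Mu : Sp := ⟨fun k => FMu (S.F k) (ν k) (n0 k) (m1 k), S.lim⟩

variable (hν : ∀ᶠ k in UF, ν k = (S.F k).μ)

include hν

theorem Mu_rt (A B : ∀ k, Setoid (S.F k).Ω) : ∀ᶠ k in UF, (Mu ν n0 m1).rt A B k = S.rt A B k := by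
  filter_upwards [hν] with k hk
  have h1 := FMu_e (S.F k) (n0 k) (m1 k) hk (A k) (B k ⊓ (S.F k).Z)
  exact congrArg (fun y => y / (S.F k).n) h1

theorem Mu_VB {A : ∀ k, Setoid (S.F k).Ω} (hA : S.VB A) : (Mu ν n0 m1).VB A := by
  obtain ⟨C, hC⟩ := hA
  refine ⟨C, ?_⟩
  filter_upwards [hC, hν] with k h1 hk ω hω
  have h2 := FMu_nv (S.F k) (n0 k) (m1 k) hk (A k) ω
  show ((nv (FMu (S.F k) (ν k) (n0 k) (m1 k)) (A k) ω : ℕ) : ℝ) ≤ _
  rw [h2]
  have h3 : (S.F k).μ ω ≠ 0 := by rw [← hk]; exact hω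
  exact h1 ω h3

theorem Mu_pr (E : ∀ k, (S.F k).Ω → Prop) : ∀ᶠ k in UF, (Mu ν n0 m1).pr E k = S.pr E k := by
  filter_upwards [hν] with k hk
  exact FMu_pb (S.F k) (n0 k) (m1 k) hk (E k)

theorem Mu_Typ {E : ∀ k, (S.F k).Ω → Prop} (hE : Sp.Typ E) : Sp.Typ (S := Mu ν n0 m1) E := by
  rw [Typ_iff] at hE
  refine (Typ_iff (S := Mu ν n0 m1) E).mpr (Tendsto.congr' ?_ hE)
  filter_upwards [Mu_pr ν n0 m1 hν E] with k hk using hk.symm

omit hν in
theorem Mu_Sub {K : ℕ → ℝ} (hK : S.Sub K) : (Mu ν n0 m1).Sub K := hK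

/-- tame functions -/
def mT : TR S →+* TR (Mu ν n0 m1) where
  toFun f := ⟨f.1, by
    obtain ⟨K, hK, hb⟩ := f.2
    refine ⟨K, hK, ?_⟩
    filter_upwards [hb, hν] with k h1 hk ω hω
    exact h1 ω (by rw [← hk]; exact hω)⟩
  map_one' := rfl
  map_mul' _ _ := rfl
  map_zero' := rfl
  map_add' _ _ := rfl

theorem mT_ag {r : ℝ} {f g : TR S} (h : TR.Ag r f g) : TR.Ag r (mT ν n0 m1 hν f) (mT ν n0 m1 hν g) := by
  obtain ⟨E, K, hE, hK, hh⟩ := h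
  refine ⟨E, K, Mu_Typ ν n0 m1 hν hE, hK, ?_⟩
  filter_upwards [hh, hν] with k h1 hk ω hω he
  exact h1 ω (by rw [← hk]; exact hω) he

/-- functions -/
def mQ : QS S →+* QS (Mu ν n0 m1) :=
  Ideal.Quotient.lift (TR.Idl S) ((QS.mk (S := Mu ν n0 m1)).comp (mT ν n0 m1 hν)) (by
    intro f hf
    have h1 : TR.Ag 1 (mT ν n0 m1 hν f) (mT ν n0 m1 hν 0) := mT_ag ν n0 m1 hν hf
    rw [map_zero] at h1
    show QS.mk (mT ν n0 m1 hν f) = 0
    rw [← map_zero QS.mk]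
    exact QS.mk_eq.mpr h1)

theorem mQ_mk (f : TR S) : mQ ν n0 m1 hν (QS.mk f) = QS.mk (mT ν n0 m1 hν f) := rfl

/-- informations -/
def mI (A : S.Inf) : (Mu ν n0 m1).Inf := ⟨A.1, Mu_VB ν n0 m1 hν A.2⟩

theorem mI_mono {A B : S.Inf} (h : A ≤ B) : mI ν n0 m1 hν A ≤ mI ν n0 m1 hν B := by
  rw [Inf.le_def] at h ⊢
  refine Tendsto.congr' ?_ h
  filter_upwards [Mu_rt ν n0 m1 hν A.1 B.1] with k hk using hk.symm

def mL : S.L → (Mu ν n0 m1).L := Quotient.map (mI ν n0 m1 hν) (by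
  intro A B hAB
  exact ⟨mI_mono ν n0 m1 hν hAB.1, mI_mono ν n0 m1 hν hAB.2⟩)

theorem mL_cl (A : S.Inf) : mL ν n0 m1 hν (cl A) = cl (mI ν n0 m1 hν A) := rfl

theorem mL_mono {x y : S.L} (h : x ≤ y) : mL ν n0 m1 hν x ≤ mL ν n0 m1 hν y := by
  induction x using cl_ind
  induction y using cl_ind
  exact mI_mono ν n0 m1 hν h

theorem mL_sup (x y : S.L) : mL ν n0 m1 hν (x ⊔ y) = mL ν n0 m1 hν x ⊔ mL ν n0 m1 hν y := by
  induction x using cl_ind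
  induction y using cl_ind
  rfl

theorem mL_bot : mL ν n0 m1 hν ⊥ = ⊥ := rfl

theorem mL_h (x y : S.L) : h (mL ν n0 m1 hν x) (mL ν n0 m1 hν y) = h x y := by
  induction x using cl_ind with | _ A
  induction y using cl_ind with | _ B
  rw [mL_cl, mL_cl, h_cl, h_cl]
  exact ul_congr (Mu_rt ν n0 m1 hν A.1 B.1)

theorem mL_io {α : ℕ → Type} {X : ∀ k, (S.F k).Ω → α k} (hX : Bdd X) :
    mL ν n0 m1 hν (io X) = io (S := Mu ν n0 m1) X := by
  have h1 : Bdd (S := Mu ν n0 m1) X := Mu_VB ν n0 m1 hν hX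
  rw [io_eq hX, io_eq h1]
  rfl

theorem mL_io_le {α : ℕ → Type} (X : ∀ k, (S.F k).Ω → α k) : mL ν n0 m1 hν (io X) ≤ io (S := Mu ν n0 m1) X := by
  by_cases hX : Bdd X
  · exact (mL_io ν n0 m1 hν hX).le
  · have h1 : io X = ⊥ := by
      unfold io
      rw [dif_neg hX]
    rw [h1, mL_bot]
    exact _root_.bot_le

theorem mT_dg (f : TR S) (r : ℝ) : TR.dg (mT ν n0 m1 hν f) r = mL ν n0 m1 hν (TR.dg f r) := by
  have h1 := mL_io ν n0 m1 hν ((TR.vec (fun _ : Fin 1 => f)).bdd r)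
  exact h1.symm

theorem mQ_dg (f : QS S) (r : ℝ) : dg (mQ ν n0 m1 hν f) r = mL ν n0 m1 hν (dg f r) := by
  obtain ⟨f, rfl⟩ := QS.mk_surj f
  rcases le_total r 1 with hr | hr
  · rw [mQ_mk, QS.dg_mk _ hr, QS.dg_mk _ hr, mT_dg]
  · rw [QS.dg_cut _ hr, QS.dg_cut _ hr, mQ_mk, QS.dg_mk _ le_rfl, QS.dg_mk _ le_rfl, mT_dg]

theorem mL_finsup {ι : Type*} (s : Finset ι) (f : ι → S.L) :
    mL ν n0 m1 hν (s.sup f) = s.sup fun i => mL ν n0 m1 hν (f i) := by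
  classical
  induction s using Finset.induction_on with
  | empty => rfl
  | insert a s ha ih => rw [Finset.sup_insert, Finset.sup_insert, mL_sup, ih]

theorem mQ_vd {ι : Type} [Fintype ι] (f : ι → QS S) (r : ℝ) :
    vd (fun i => mQ ν n0 m1 hν (f i)) r = mL ν n0 m1 hν (vd f r) := by
  unfold vd
  rw [mL_finsup]
  congr 1
  funext i
  exact mQ_dg ν n0 m1 hν (f i) r

theorem Mu_Nul {A B : ∀ k, Setoid (S.F k).Ω}
    (h : Nul S (fun k => I (fc (F := S.F k) (A k)) (fc (B k)) ⊥)) :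
    Nul (Mu ν n0 m1) (fun k => I (fc (F := (Mu ν n0 m1).F k) (A k)) (fc (B k)) ⊥) := by
  refine Tendsto.congr' ?_ h
  filter_upwards [hν] with k hk
  have h1 := FMu_I (S.F k) (n0 k) (m1 k) hk (A k) (B k)
  exact congrArg (fun y => y / (S.F k).n) h1.symm

end

end Pool.Agent.Helper24.PR
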