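import Pool.Agent.Helper24.PR.Aff
import Pool.Agent.Helper37.DK2.Nof
import Pool.Agent.Helper37.DK2.Clo
import Pool.Agent.Helper37.DK2.Nst

/-! PROPER QUOTIENTS, systems with non concentrated tangents: `NCq` passes to the images over labels without leak under
maps which keep the coordinates; the affine quotients of such systems are full by the structure theorem for the class
`DKU`. -/

set_option autoImplicit false

namespace Pool.Agent.Helper24.PR

open Finset Filter Topology Matrix Pool.Agent.Helper69.RK Pool.Agent.Helper31.EC Pool.Agent.Helper31.EC.Sp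
open Pool.Agent.Helper40.EL Pool.Agent.Helper89.LX Pool.Agent.Helper3.LF Pool.Agent.Helper84.MT
open Pool.Agent.Helper5.HB Pool.Agent.Helper5.DO QS Pool.Agent.Helper38.NS Pool.Agent.Helper36.AM
open Pool.Agent.Helper37.DK2 Pool.Agent.Helper49.MD

noncomputable section

variable {S : Sp} {M M' : ℕ} {E E' : ℕ → ℕ} {ι ν : Type}

/-- a label with a finer value -/
def fvl {F : FSp} (l : FLab F) (C : Setoid l.T.Ω) : FLab F where
  T := l.T
  p := l.p
  hn := l.hn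
  V := l.V ⊓ C

/-- the leak of a label with a finer value -/
theorem fvl_leak {F : FSp} (l : FLab F) (C : Setoid F.Ω) (x : FL F) :
    (fvl l (Setoid.comap l.p.π C)).leak x ≤ h (fc C) x + l.leak (fc C) := by
  have e0 : (fvl l (Setoid.comap l.p.π C)).v = l.v ⊔ l.p.map (fc C) := by
    show fc (l.V ⊓ Setoid.comap l.p.π C) = _
    rw [fc_inf]
    rfl
  have h1 : (fvl l (Setoid.comap l.p.π C)).leak x = I (l.v ⊔ l.p.map (fc C)) l.p.top (l.p.map x) := by
    rw [← e0]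
    rfl
  rw [h1, sup_comm, I_chain]
  have h2 := I_le_h_left (l.p.map (fc C)) l.p.top (l.p.map x)
  rw [l.p.h_map] at h2
  have h3 : I l.v l.p.top (l.p.map (fc C) ⊔ l.p.map x) ≤ l.leak (fc C) :=
    leak_cond le_sup_left (sup_le (l.p.map_le_top _) (l.p.map_le_top _))
  linarith

/-- NON CONCENTRATION over a label -/
theorem ncf_ovr {F : FSp} (l : FLab F) {C : Setoid F.Ω} {C' : Setoid l.T.Ω} {γ : Type} [Fintype γ] {α β β' : Type}
    [Fintype β] [Fintype β'] {t : F.Ω → α → β → ℝ} {t' : l.T.Ω → α → β' → ℝ} (τ : β' ≃ β)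
    (ht : ∀ w, l.T.μ w ≠ 0 → ∀ a b, t' w a b = t (l.p.π w) a (τ b))
    {h₀ δ δ' : ℝ} (h0 : 0 < h₀) (hδ : 0 < δ') (hdd : δ' ≤ δ)
    (hb : (l.leak (fc C) + h (fc C' : FL (l.ovr 1 one_pos)) (l.up 1 one_pos (fc C))) / (h₀ * δ * F.n) + δ' ≤ δ)
    (H : NCf F C γ t h₀ δ') : NCf (l.ovr 1 one_pos) C' γ t' h₀ δ := by
  classical
  intro l2 ν h1 h2 e he he'
  have hn : (l.ovr 1 one_pos).n = F.n := by
    show 1 * l.T.n = F.n
    rw [one_mul, l.hn]
  have hF := F.pos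
  have hδ0 : 0 < δ := hδ.trans_le hdd
  have he0 : 0 < e := hδ0.trans_le he
  have key := H (l.comp 1 one_pos (fvl l2 (Setoid.comap l2.p.π C'))) (fun w => (ν w).submatrix id τ.symm)
    (fun w w' a b c d f => by
      show (ν w).submatrix id τ.symm = (ν w').submatrix id τ.symm
      have e1 : l.V (l2.p.π w) (l2.p.π w') := d.1
      have e2 : l.T.Z (l2.p.π w) (l2.p.π w') := (l.p.hZ _ _ (l2.p.supp w a) (l2.p.supp w' b)).mpr c
      rw [h1 w w' a b ((l2.p.hZ w w' a b).mpr ⟨e1, e2⟩) d.2.1 d.2.2])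
    (fun w hw b => by
      refine (h2 w hw b).trans (le_of_eq ?_)
      show ∑ j, (b ᵥ* ν w) j * (b ᵥ* ν w) j = ∑ j, (b ᵥ* (ν w).submatrix id τ.symm) j * (b ᵥ* (ν w).submatrix id τ.symm) j
      refine Fintype.sum_equiv τ _ _ fun j => ?_
      have e1 : (b ᵥ* (ν w).submatrix id τ.symm) (τ j) = (b ᵥ* ν w) j := by
        show ∑ c, b c * ν w c (τ.symm (τ j)) = ∑ c, b c * ν w c j
        rw [Equiv.symm_apply_apply]
      rw [e1])
    e (hdd.trans he) he'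
  have e0 : l2.T.pb (fun w => ∀ a c, |(ν w *ᵥ t' (l2.p.π w) a) c| ≤ 2 ^ (-(e * (l.ovr 1 one_pos).n))) ≤
      (l.comp 1 one_pos (fvl l2 (Setoid.comap l2.p.π C'))).T.pb (fun w => ∀ a c,
        |((ν w).submatrix id τ.symm *ᵥ t ((l.comp 1 one_pos (fvl l2 (Setoid.comap l2.p.π C'))).p.π w) a) c| ≤
          2 ^ (-(e * F.n))) := by
    rw [hn]
    refine l2.T.pb_mono ?_
    intro w hw h3 a c
    refine le_trans (le_of_eq (congrArg abs ?_)) (h3 a c)
    show ∑ j, ν w c (τ.symm j) * t (l.p.π (l2.p.π w)) a j = ∑ j, ν w c j * t' (l2.p.π w) a j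
    refine (Fintype.sum_equiv τ _ _ fun j => ?_).symm
    rw [Equiv.symm_apply_apply, ht _ (l2.p.supp w hw)]
  have h3 := l.comp_leak_le 1 one_pos (fvl l2 (Setoid.comap l2.p.π C')) (fc C)
  have h4 := fvl_leak l2 C' (l.up 1 one_pos (fc C))
  have h5 : 0 < h₀ * e * F.n := by positivity
  have h6 : (l.comp 1 one_pos (fvl l2 (Setoid.comap l2.p.π C'))).leak (fc C) / (h₀ * e * F.n) ≤
      (l.leak (fc C) + h (fc C' : FL (l.ovr 1 one_pos)) (l.up 1 one_pos (fc C))) / (h₀ * e * F.n) +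
        l2.leak (fc C') / (h₀ * e * F.n) := by
    rw [← add_div]
    exact div_le_div_of_nonneg_right (by linarith) h5.le
  have h7 : (l.leak (fc C) + h (fc C' : FL (l.ovr 1 one_pos)) (l.up 1 one_pos (fc C))) / (h₀ * e * F.n) ≤
      (l.leak (fc C) + h (fc C' : FL (l.ovr 1 one_pos)) (l.up 1 one_pos (fc C))) / (h₀ * δ * F.n) := by
    apply div_le_div_of_nonneg_left (add_nonneg (l.leak_nonneg _) (h_nonneg _ _)) (by positivity)
    exact mul_le_mul_of_nonneg_right (mul_le_mul_of_nonneg_left he h0.le) hF.le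
  rw [hn] at e0 ⊢
  linarith

theorem pm_ev {S : Sp} (f : AfM S M M') (k : ℕ) (ω : (S.F k).Ω) (x : Fin M → ℝ) :
    f.pm.ev k ω x = (f.A k ω).mulVec x + f.b k ω := PMap.aff_ev _ _ _ _ k ω x

/-- THE CONDITION `NCq` PASSES TO THE IMAGES over labels of the window `0`, if the map keeps the coordinates -/
theorem ncq_img [Finite ι] {s : MSys S M E ι} {J : Finset (Fin M)} {J' : Finset (Fin M')} {h₀ : ℝ} (h0 : 0 < h₀)
    (H : NCq J h₀ s) {l : Lab S} (hl : s.DMc 0 l)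
    (f : AfM (l.ovr 1 one_pos) M M') (τ : J' ≃ J)
    (hτ : ∀ k ω (x : Fin M → ℝ) (j : J'), ((f.A k ω).mulVec x + f.b k ω) j = x (τ j)) (hκ : 1 ≤ 1)
    (hE : ∀ D, E (1 * D) ≤ E' D) : NCq J' h₀ ((ovm s hl).img f.pm hκ hE) := by
  intro δ hδ
  have hN1 : Nul S (fun k => (l k).leak (fc (Setoid.ker (s.Q.cellv 1 k)))) := by
    have h1 := hl none
    exact h1
  have hN2 : PLe (pcd (f.pm.val (oQ l s.Q))) (pcd (oQ l s.Q)) := f.pm.val_PLe _
  have e1 : pcd (oQ l s.Q) = l.up 1 one_pos (fun k => fc (Setoid.ker (s.Q.cellv 1 k))) := congrFun (cnd_ovm s hl 0) none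
  have hN3 : Nul S (fun k => h (fc (Setoid.ker ((f.pm.val (oQ l s.Q)).cellv 1 k)) : FL ((l k).ovr 1 one_pos))
      ((l k).up 1 one_pos (fc (Setoid.ker (s.Q.cellv 1 k))))) := by
    rw [← Lab.nul_over l 1 one_pos]
    have h2 : PLe (pcd (f.pm.val (oQ l s.Q))) (l.up 1 one_pos (fun k => fc (Setoid.ker (s.Q.cellv 1 k)))) := by
      rw [← e1]
      exact hN2
    exact h2
  have hN := hN1.add hN3
  have t1 : Tendsto (fun k => ((l k).leak (fc (Setoid.ker (s.Q.cellv 1 k))) +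
      h (fc (Setoid.ker ((f.pm.val (oQ l s.Q)).cellv 1 k)) : FL ((l k).ovr 1 one_pos))
      ((l k).up 1 one_pos (fc (Setoid.ker (s.Q.cellv 1 k))))) / (S.F k).n * (1 / (h₀ * δ))) UF (𝓝 (0 * (1 / (h₀ * δ)))) :=
    Filter.Tendsto.mul_const _ hN
  rw [zero_mul] at t1
  have hδ2 : 0 < δ / 2 := by positivity
  filter_upwards [H (δ / 2) hδ2, t1.eventually (gt_mem_nhds hδ2)] with k hk ht
  have hk' : NCf (S.F k) (Setoid.ker (s.Q.cellv 1 k)) (Fin 1) (fun ω a (j : J) => mtan (ob s k) ω a j) h₀ (δ / 2) := by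
    rw [← cQ1_ob]
    exact hk
  have hn := (S.F k).pos
  have h2 : ((l k).leak (fc (Setoid.ker (s.Q.cellv 1 k))) +
      h (fc (Setoid.ker ((f.pm.val (oQ l s.Q)).cellv 1 k)) : FL ((l k).ovr 1 one_pos))
      ((l k).up 1 one_pos (fc (Setoid.ker (s.Q.cellv 1 k))))) / (h₀ * δ * (S.F k).n) + δ / 2 ≤ δ := by
    rw [div_mul_div_comm, mul_one, mul_comm (S.F k).n] at ht
    linarith
  have h1 := ncf_ovr (l k) (C' := Setoid.ker ((f.pm.val (oQ l s.Q)).cellv 1 k))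
    (t' := fun ω a (j : J') => mtan (ob ((ovm s hl).img f.pm hκ hE) k) ω a j) τ (fun w _ a b => ?_) h0 hδ2
    (by linarith : δ / 2 ≤ δ) h2 hk'
  · show NCf ((l.ovr 1 one_pos).F k) (cQ1 ((l.ovr 1 one_pos).F k) (ob ((ovm s hl).img f.pm hκ hE) k)) (Fin 1)
      (fun ω a (j : J') => mtan (ob ((ovm s hl).img f.pm hκ hE) k) ω a j) h₀ δ
    rw [cQ1_ob]
    exact h1
  · show deriv (fun t => f.pm.ev k w ((s.lf a.1).F k ((l k).p.π w) (Function.update _ a.2 t)) b) _ =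
      deriv (fun t => (s.lf a.1).F k ((l k).p.π w) (Function.update _ a.2 t) (τ b)) _
    have e2 : ∀ x, f.pm.ev k w x b = x (τ b) := fun x =>
      (congrFun (pm_ev (S := l.ovr 1 one_pos) f k w x) b).trans (hτ k w x b)
    simp only [e2]
    rfl

/-- `NC` from `NCq` -/
theorem nc_of_ncq {s : MSys S M E ι} {J : Finset (Fin M)} {h₀ : ℝ} (h0 : 0 < h₀) (H : NCq J h₀ s) :
    NC J.card h₀ s := by
  intro δ hδ
  obtain ⟨κ, hκ⟩ : ∃ κ, κ = min (δ / 2) (δ ^ 2 / 8) := ⟨_, rfl⟩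
  have hκ0 : 0 < κ := by
    rw [hκ]
    exact lt_min (by positivity) (by positivity)
  have hκ1 : κ ≤ δ / 2 := by rw [hκ]; exact min_le_left _ _
  have hκ2 : κ ≤ δ ^ 2 / 8 := by rw [hκ]; exact min_le_right _ _
  have h3 : 2 * κ / δ ≤ δ / 4 := by
    rw [div_le_iff₀ hδ]
    nlinarith
  have h4 : ∀ᶠ k in UF, (M : ℝ) + 1 ≤ 2 ^ (κ * (S.F k).n) := by
    have h5 := (S.Sub_const (show (0 : ℝ) ≤ (M : ℝ) + 1 by positivity)).eventually_le hκ0
    exact h5.mono fun k hk => by linarith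
  filter_upwards [H (δ / 2) (by positivity), h4] with k hk h5
  have hk' : NCf (S.F k) (cQ1 (S.F k) (ob s k)) (Fin 1) (fun ω a (j : J) => mtan (ob s k) ω a j) h₀ (δ / 2) := hk
  exact NCf.of_q (δ := δ) (κ := κ) h0 hκ0 hκ1 le_rfl (by linarith) h5 hk'

/-- THE IMAGE of a system with full volume under an affine map known to a label of the window `0`: full over the label,
by the structure theorem for a class of the image -/
theorem quo_fullA [Finite ι] (s : MSys S M E ι) (hv : ∀ D, (M : ℝ) ≤ s.vol D 0) {l : Lab S} (hl : s.DMc 0 l)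
    (f : AfM (l.ovr 1 one_pos) M M') (hE : ∀ D, E (1 * D) ≤ E' D)
    (hst : volO ((ovm s hl).img f.pm le_rfl hE) 0 ≤ HQ ((ovm s hl).img f.pm le_rfl hE) 0) :
    (M' : ℝ) ≤ H ((f.pm.val (oQ l s.Q)).dg 1) := by
  have h0 : (M' : ℝ) ≤ volO ((ovm s hl).img f.pm le_rfl hE) 0 := by
    refine le_ciInf fun D => ?_
    obtain ⟨xs, hxs⟩ := s.exists_can D 0
    have hv' := hv D
    rw [← s.vol_eq hxs.1] at hv'
    obtain ⟨x, hx⟩ := ((ovm s hl).img f.pm le_rfl hE).exists_can D 0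
    have hNR : NRl D (Pool.Agent.Helper5.HB.lb x) (f.pm.val (oQ l s.Q)) := by
      apply f.nrl
      apply nrl_comp
      apply NRl_of_vol s.Q hxs.1 hv'
      exact dmc_comp hl le_rfl (MSys.DMc.of_img hx.2.1)
    rw [← MSys.vol_eq _ hx.1]
    exact vol_ge _ hx.1.1 hNR
  have h2 := H_up1_le (((ovm s hl).img f.pm le_rfl hE).kap 0) ((f.pm.val (oQ l s.Q)).dg 1)
  exact (h0.trans hst).trans h2

/-- `DKU` from `NCq` -/
theorem dku_of_ncq {g r : ℕ} {s : MSys S M (lin g) (Fin r)} {J : Finset (Fin M)} {h₀ : ℝ} (h0 : 0 < h₀) (H : NCq J h₀ s) :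
    DKU M J.card S g r s := by
  obtain ⟨m, hm⟩ := exists_nat_one_div_lt h0
  exact ⟨m, NC.le (by positivity) hm.le (nc_of_ncq h0 H)⟩

variable [Fintype ι] [Fintype ν] [DecidableEq ν]

/-- THE AFFINE QUOTIENTS OF SYSTEMS WITH NON CONCENTRATED TANGENTS ARE FULL -/
theorem fq_ncq {R : Sp} {g r : ℕ} (s : MSys R M (lin g) (Fin r)) (e : ι ⊕ ν ≃ Fin M) {J : Finset (Fin M)}
    (hJ : ∀ j, j ∈ J ↔ ∃ b, e (Sum.inl b) = j) {h₀ : ℝ} (h0 : 0 < h₀) (H : NCq J h₀ s)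
    (hv : ∀ D, (M : ℝ) ≤ s.vol D 0) (hst : STO M' (DKU M' (Fintype.card ι))) : FQ s M' e := by
  classical
  intro l hinf a e' v hvb hK
  have hl : s.DMc 0 l := dmf_of_info _ hinf
  have hE : ∀ D, Pool.Agent.Helper84.MT.lin g (1 * D) ≤ Pool.Agent.Helper84.MT.lin g D := fun D => by rw [one_mul]
  have i1 : Function.Injective fun b => e (Sum.inl b) := fun b b' h => Sum.inl_injective (e.injective h)
  have i2 : Function.Injective fun b => e' (Sum.inl b) := fun b b' h => Sum.inl_injective (e'.injective h)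
  obtain ⟨J', hJ'⟩ : ∃ J' : Finset (Fin M'), J' = univ.image fun b => e' (Sum.inl b) := ⟨_, rfl⟩
  have m' : ∀ j, j ∈ J' ↔ ∃ b, e' (Sum.inl b) = j := by
    intro j
    rw [hJ', Finset.mem_image]
    exact ⟨fun ⟨b, _, h⟩ => ⟨b, h⟩, fun ⟨b, h⟩ => ⟨b, Finset.mem_univ _, h⟩⟩
  have hc : J'.card = Fintype.card ι := by
    rw [hJ', Finset.card_image_of_injective _ i2, Finset.card_univ]
  obtain ⟨τ1, hτ1⟩ : ∃ τ1 : ι ≃ J, ∀ b, ((τ1 b : J) : Fin M) = e (Sum.inl b) :=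
    ⟨Equiv.ofBijective (fun b => ⟨e (Sum.inl b), (hJ _).mpr ⟨b, rfl⟩⟩) ⟨fun b b' h => i1 (Subtype.ext_iff.mp h),
      fun ⟨j, hj⟩ => by
        obtain ⟨b, hb⟩ := (hJ j).mp hj
        exact ⟨b, Subtype.ext hb⟩⟩, fun b => rfl⟩
  obtain ⟨τ2, hτ2⟩ : ∃ τ2 : ι ≃ J', ∀ b, ((τ2 b : J') : Fin M') = e' (Sum.inl b) :=
    ⟨Equiv.ofBijective (fun b => ⟨e' (Sum.inl b), (m' _).mpr ⟨b, rfl⟩⟩) ⟨fun b b' h => i2 (Subtype.ext_iff.mp h),
      fun ⟨j, hj⟩ => by
        obtain ⟨b, hb⟩ := (m' j).mp hj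
        exact ⟨b, Subtype.ext hb⟩⟩, fun b => rfl⟩
  have hq : NCq J' h₀ ((ovm s hl).img (qaf e a e' v hvb hK).pm le_rfl hE) := by
    apply ncq_img h0 H hl (qaf e a e' v hvb hK) (τ2.symm.trans τ1)
    intro k ω x j
    obtain ⟨b, rfl⟩ := τ2.surjective j
    rw [Equiv.trans_apply, Equiv.symm_apply_apply, hτ1, hτ2]
    show (qmt e a e' (fun j => TR.ev (v j) k ω)).mulVec x (e' (Sum.inl b)) + 0 = x (e (Sum.inl b))
    rw [add_zero]
    unfold Matrix.mulVec dotProduct qmt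
    simp only [Matrix.of_apply, Equiv.symm_apply_apply, Sum.elim_inl, ite_mul, one_mul, zero_mul, Finset.sum_ite_eq',
      Finset.mem_univ, if_true]
  apply quo_fullA s hv hl (qaf e a e' v hvb hK) hE
  apply hst
  rw [← hc]
  exact dku_of_ncq h0 hq

/-- `STQE` FOR SYSTEMS WITH NON CONCENTRATED TANGENTS: the tangents of the system are not concentrated in the base
coordinates, the volume is full on all events of extensions, the structure theorem for `DKU` in one dimension less -/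
theorem stqe_ncq {S S0 : Sp} (π : Pj S S0) {g r : ℕ} (s : MSys S0 M (lin g) (Fin r)) (e : ι ⊕ ν ≃ Fin M)
    (hM : M' + 1 = M) {J : Finset (Fin M)} (hJ : ∀ j, j ∈ J ↔ ∃ b, e (Sum.inl b) = j) {h₀ : ℝ} (h0 : 0 < h₀)
    (H : NCq J h₀ s)
    (hv : ∀ (T : Sp) (p : Pj T S0) (E : ∀ k, (T.F k).Ω → Prop) (hE : 0 < ul (T.pr E)) (D : ℕ),
      (M : ℝ) ≤ (s.im p E hE).vol D 0)
    (hst : STO M' (DKU M' (Fintype.card ι))) (q : ι → QS S) (y : ν → QS S)
    (hpt : ∀ i, Sum.elim q y i = π.qs (cq s.Q (e i))) : Pool.Agent.Helper13.AM.STQE q y 1 :=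
  stqe_aff π s e hM (fun T p E hE => fq_ncq (s.im p E hE) e hJ h0 (H.im h0 p E hE) (fun D => hv T p E hE D) hst) q y hpt

end

end Pool.Agent.Helper24.PR
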