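import Pool.Agent.Helper24.PR.Cmp
import Pool.Agent.Helper5.HB.Conv
import Pool.Agent.Helper84.MT.Fun

/-! PROPER QUOTIENTS ARE FULL: a system whose hull has full volume, a label which does not leak, an affine map known to
the label with a tame inverse on the right: the image is full over the label. -/

set_option autoImplicit false

namespace Pool.Agent.Helper24.PR

open Finset Filter Topology Matrix Pool.Agent.Helper69.RK Pool.Agent.Helper31.EC Pool.Agent.Helper31.EC.Sp
open Pool.Agent.Helper40.EL Pool.Agent.Helper89.LX Pool.Agent.Helper3.LF Pool.Agent.Helper84.MT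
open Pool.Agent.Helper5.HB Pool.Agent.Helper5.DO QS Pool.Agent.Helper38.NS

noncomputable section

variable {S T : Sp} {M M' D : ℕ} {E E' : ℕ → ℕ} {ι : Type}

/-- the IMAGE of a full system under an affine map known to a label without leak IS FULL over the label -/
theorem quo_full [Finite ι] (hST : STm D M' E' ι) (s : MSys S M E ι) (hv : (M : ℝ) ≤ s.vol D 0) {l : Lab S}
    (hl : s.DMc 0 l) (f : AfM (l.ovr 1 one_pos) M M') (hE : ∀ D, E (1 * D) ≤ E' D) :
    (M' : ℝ) ≤ H ((f.pm.val (oQ l s.Q)).dg 1) := by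
  obtain ⟨xs, hxs⟩ := s.exists_can D 0
  rw [← s.vol_eq hxs.1] at hv
  obtain ⟨x, hx⟩ := ((ovm s hl).img f.pm le_rfl hE).exists_can D 0
  have hNR : NRl D (Pool.Agent.Helper5.HB.lb x) (f.pm.val (oQ l s.Q)) := by
    apply f.nrl
    apply nrl_comp
    apply NRl_of_vol s.Q hxs.1 hv
    exact dmc_comp hl le_rfl (MSys.DMc.of_img hx.2.1)
  have h1 := full_of_NR hST ((ovm s hl).img f.pm le_rfl hE) hx hNR
  have h2 := H_up1_le (Pool.Agent.Helper5.HB.lb x) ((f.pm.val (oQ l s.Q)).dg 1)
  have h3 : H (up1 (Pool.Agent.Helper5.HB.lb x) ((f.pm.val (oQ l s.Q)).dg 1)) = M' := h1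
  linarith

/-- labels without information do not leak -/
theorem dmf_of_info {κ : Type} (A : κ → Part S) {l : Lab S} (h : Nul S (fun k => (l k).info)) : l.DMf A := by
  intro i
  apply h.of_le (Eventually.of_forall fun _ => FLab.leak_nonneg _ _)
  refine Eventually.of_forall fun k => ?_
  have h1 : (l k).leak (A i k) = I (l k).v (l k).p.top ((l k).p.map (A i k)) := rfl
  have h2 : (l k).info = I (l k).v (l k).p.top ⊥ := rfl
  rw [h1, h2, I_eq, I_eq]
  have h3 : (l k).p.top ⊔ (l k).p.map (A i k) = (l k).p.top := sup_eq_left.mpr ((l k).p.map_le_top _)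
  rw [h3, sup_bot_eq]
  exact sub_le_sub_right (h_anti bot_le) _

end

end Pool.Agent.Helper24.PR
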