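import Mathlib

/-! Triangular polynomial maps `x_j ↦ x_j - H_j(x)` have a polynomial inverse; quotients modulo a vector after such a
map have a polynomial inverse on the right. -/

set_option autoImplicit false

namespace Pool.Agent.Helper24.PR

open Finset MvPolynomial

noncomputable section

variable {A : Type*} [CommRing A] {α ν : Type}

/-- iterates of the inverse -/
def tg (H : ν → MvPolynomial (α ⊕ ν) A) : ℕ → α ⊕ ν → MvPolynomial (α ⊕ ν) A
  | 0 => MvPolynomial.X
  | n + 1 => Sum.elim (fun a => MvPolynomial.X (Sum.inl a)) (fun j => MvPolynomial.X (Sum.inr j) + MvPolynomial.bind₁ (tg H n) (H j))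

theorem tg_inl (H : ν → MvPolynomial (α ⊕ ν) A) (n : ℕ) (a : α) : tg H n (Sum.inl a) = MvPolynomial.X (Sum.inl a) := by
  cases n <;> rfl

theorem bind_congr_vars {σ τ : Type} {f g : σ → MvPolynomial τ A} {P : MvPolynomial σ A}
    (h : ∀ i ∈ P.vars, f i = g i) : MvPolynomial.bind₁ f P = MvPolynomial.bind₁ g P := by
  have h1 := MvPolynomial.hom_congr_vars (f₁ := (MvPolynomial.bind₁ f).toRingHom) (f₂ := (MvPolynomial.bind₁ g).toRingHom)
    (p₁ := P) (p₂ := P) (by
      ext1 a
      show MvPolynomial.bind₁ f (MvPolynomial.C a) = MvPolynomial.bind₁ g (MvPolynomial.C a)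
      rw [MvPolynomial.bind₁_C_right, MvPolynomial.bind₁_C_right]) (by
      intro i hi _
      show MvPolynomial.bind₁ f (MvPolynomial.X i) = MvPolynomial.bind₁ g (MvPolynomial.X i)
      rw [MvPolynomial.bind₁_X_right, MvPolynomial.bind₁_X_right]
      exact h i hi) rfl
  exact h1

/-- TRIANGULAR MAPS ARE INVERTIBLE -/
theorem tri_inv [Fintype ν] (w : ν → ℝ) (H : ν → MvPolynomial (α ⊕ ν) A)
    (low : ∀ j n, (H j).coeff n ≠ 0 → ∀ l, n (Sum.inr l) ≠ 0 → w l < w j) :
    ∃ G : α ⊕ ν → MvPolynomial (α ⊕ ν) A, (∀ a, G (Sum.inl a) = MvPolynomial.X (Sum.inl a)) ∧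
      ∀ j, MvPolynomial.bind₁ G (MvPolynomial.X (Sum.inr j) - H j) = MvPolynomial.X (Sum.inr j) := by
  classical
  have hvars : ∀ j l, Sum.inr l ∈ (H j).vars → w l < w j := by
    intro j l hl
    rw [MvPolynomial.mem_vars_iff_mem_support] at hl
    obtain ⟨m, hm, hi⟩ := hl
    exact low j m (MvPolynomial.mem_support_iff.mp hm) l (Finsupp.mem_support_iff.mp hi)
  have hst : ∀ n j, (univ.filter fun l => w l < w j).card < n → tg H (n + 1) (Sum.inr j) = tg H n (Sum.inr j) := by
    intro n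
    induction n with
    | zero => intro j hj; exact absurd hj (Nat.not_lt_zero _)
    | succ n ih =>
      intro j hj
      show MvPolynomial.X (Sum.inr j) + MvPolynomial.bind₁ (tg H (n + 1)) (H j) = MvPolynomial.X (Sum.inr j) + MvPolynomial.bind₁ (tg H n) (H j)
      congr 1
      apply bind_congr_vars
      rintro (a | l) hi
      · rw [tg_inl, tg_inl]
      · apply ih
        have h1 : (univ.filter fun l' => w l' < w l).card < (univ.filter fun l => w l < w j).card := by
          apply Finset.card_lt_card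
          rw [Finset.ssubset_iff_of_subset]
          · exact ⟨l, by simpa using hvars j l hi, by simp⟩
          · intro x hx
            rw [Finset.mem_filter] at hx ⊢
            exact ⟨Finset.mem_univ _, hx.2.trans (hvars j l hi)⟩
        omega
  refine ⟨tg H (Fintype.card ν), tg_inl H _, fun j => ?_⟩
  have h1 : (univ.filter fun l => w l < w j).card < Fintype.card ν := by
    rw [← Finset.card_univ]
    apply Finset.card_lt_card
    rw [Finset.ssubset_iff_of_subset (Finset.filter_subset _ _)]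
    exact ⟨j, Finset.mem_univ _, by simp⟩
  have h2 := hst _ j h1
  rw [map_sub, MvPolynomial.bind₁_X_right, ← h2]
  show MvPolynomial.X (Sum.inr j) + MvPolynomial.bind₁ (tg H (Fintype.card ν)) (H j) - _ = _
  rw [add_sub_cancel_right]

/-- the quotient map after a triangular map -/
def qmp [DecidableEq ν] (H : ν → MvPolynomial (α ⊕ ν) A) (v : ν → A) (a : ν) : α ⊕ {i : ν // i ≠ a} → MvPolynomial (α ⊕ ν) A :=
  Sum.elim (fun b => MvPolynomial.X (Sum.inl b)) (fun i => MvPolynomial.C (v a) * (MvPolynomial.X (Sum.inr i.1) - H i.1) - MvPolynomial.C (v i.1) * (MvPolynomial.X (Sum.inr a) - H a))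

/-- THE INVERSE ON THE RIGHT -/
theorem qmp_inv [Fintype ν] [DecidableEq ν] (w : ν → ℝ) (H : ν → MvPolynomial (α ⊕ ν) A)
    (low : ∀ j n, (H j).coeff n ≠ 0 → ∀ l, n (Sum.inr l) ≠ 0 → w l < w j) (v : ν → A) (a : ν) (hv : IsUnit (v a)) :
    ∃ G : α ⊕ ν → MvPolynomial (α ⊕ {i : ν // i ≠ a}) A, ∀ t, MvPolynomial.bind₁ G (qmp H v a t) = MvPolynomial.X t := by
  obtain ⟨G₀, h1, h2⟩ := tri_inv w H low
  obtain ⟨B, hB⟩ : ∃ B : α ⊕ ν → MvPolynomial (α ⊕ {i : ν // i ≠ a}) A, B = Sum.elim (fun b => MvPolynomial.X (Sum.inl b))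
    (fun i => if h : i ≠ a then MvPolynomial.C (↑hv.unit⁻¹ : A) * MvPolynomial.X (Sum.inr ⟨i, h⟩) else 0) := ⟨_, rfl⟩
  refine ⟨fun s => MvPolynomial.bind₁ B (G₀ s), fun t => ?_⟩
  rw [← MvPolynomial.bind₁_bind₁]
  rcases t with b | ⟨i, hi⟩
  · show MvPolynomial.bind₁ B (MvPolynomial.bind₁ G₀ (MvPolynomial.X (Sum.inl b))) = _
    rw [MvPolynomial.bind₁_X_right, h1, MvPolynomial.bind₁_X_right, hB]
    rfl
  · show MvPolynomial.bind₁ B (MvPolynomial.bind₁ G₀ (MvPolynomial.C (v a) * (MvPolynomial.X (Sum.inr i) - H i) - MvPolynomial.C (v i) * (MvPolynomial.X (Sum.inr a) - H a))) = _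
    rw [map_sub, map_mul, map_mul, h2, h2, MvPolynomial.bind₁_C_right, MvPolynomial.bind₁_C_right, map_sub, map_mul, map_mul, MvPolynomial.bind₁_C_right,
      MvPolynomial.bind₁_C_right, MvPolynomial.bind₁_X_right, MvPolynomial.bind₁_X_right, hB]
    simp only [Sum.elim_inr]
    rw [dif_pos hi, dif_neg (by simp), mul_zero, sub_zero, ← mul_assoc, ← MvPolynomial.C_mul, hv.mul_val_inv, MvPolynomial.C_1, one_mul]

theorem qmp_eval [DecidableEq ν] (H : ν → MvPolynomial (α ⊕ ν) A) (v : ν → A) (a : ν) (x : α ⊕ ν → A) (t : α ⊕ {i : ν // i ≠ a}) :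
    MvPolynomial.eval x (qmp H v a t) = Sum.elim (fun b => x (Sum.inl b)) (fun i : {i : ν // i ≠ a} =>
      v a * (x (Sum.inr i.1) - MvPolynomial.eval x (H i.1)) - v i.1 * (x (Sum.inr a) - MvPolynomial.eval x (H a))) t := by
  rcases t with b | i
  · show MvPolynomial.eval x (MvPolynomial.X (Sum.inl b)) = _
    rw [MvPolynomial.eval_X]
    rfl
  · show MvPolynomial.eval x (MvPolynomial.C (v a) * (MvPolynomial.X (Sum.inr i.1) - H i.1) - MvPolynomial.C (v i.1) * (MvPolynomial.X (Sum.inr a) - H a)) = _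
    rw [map_sub, map_mul, map_mul, MvPolynomial.eval_C, MvPolynomial.eval_C, map_sub, map_sub, MvPolynomial.eval_X, MvPolynomial.eval_X]
    rfl

theorem qmp_deg [DecidableEq ν] [Nontrivial A] (H : ν → MvPolynomial (α ⊕ ν) A) (v : ν → A) (a : ν) {κ : ℕ} (hκ : 1 ≤ κ)
    (hd : ∀ j, (H j).totalDegree ≤ κ) (t : α ⊕ {i : ν // i ≠ a}) : (qmp H v a t).totalDegree ≤ κ := by
  have h1 : ∀ j : ν, (MvPolynomial.X (Sum.inr j) - H j : MvPolynomial (α ⊕ ν) A).totalDegree ≤ κ := fun j =>
    (MvPolynomial.totalDegree_sub _ _).trans (max_le ((MvPolynomial.totalDegree_X _).le.trans hκ) (hd j))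
  have h2 : ∀ (c : A) (j : ν), (MvPolynomial.C c * (MvPolynomial.X (Sum.inr j) - H j) : MvPolynomial (α ⊕ ν) A).totalDegree ≤ κ := by
    intro c j
    refine (MvPolynomial.totalDegree_mul _ _).trans ?_
    rw [MvPolynomial.totalDegree_C, zero_add]
    exact h1 j
  rcases t with b | i
  · exact (MvPolynomial.totalDegree_X _).le.trans hκ
  · exact (MvPolynomial.totalDegree_sub _ _).trans (max_le (h2 _ _) (h2 _ _))

end

end Pool.Agent.Helper24.PR
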