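import Pool.Agent.Helper24.PR.Lit
import Pool.Agent.Helper24.PR.Tri
import Pool.Agent.Helper13.AM.Cor
import Pool.Agent.Helper47.T4.Fine
import Pool.Agent.Helper50.VC.Th

/-! PROPER QUOTIENTS of corners: the quotient of the triangular coordinates of a point with full hull modulo a direction
without information is full. -/

set_option autoImplicit false

namespace Pool.Agent.Helper24.PR

open Finset Filter Topology Matrix Pool.Agent.Helper69.RK Pool.Agent.Helper31.EC Pool.Agent.Helper31.EC.Sp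
open Pool.Agent.Helper40.EL Pool.Agent.Helper89.LX Pool.Agent.Helper3.LF Pool.Agent.Helper84.MT
open Pool.Agent.Helper5.HB Pool.Agent.Helper5.DO QS Pool.Agent.Helper38.NS
open Pool.Agent.Helper36.AM (volO HQ STO MCl)
open Pool.Agent.Helper98.FR (qc qc_mk qc_dg)

noncomputable section

variable {S T : Sp} {M M' D κ : ℕ} {E E' : ℕ → ℕ}

theorem qc_vd (Z : ∀ k, Setoid (S.F k).Ω) {ι : Type} [Fintype ι] (x : ι → QS S) (r : ℝ) :
    vd (fun i => qc Z (x i)) r = chgL Z 1 one_pos (vd x r) := by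
  unfold vd
  rw [Pool.Agent.Helper13.AM.chgL_finsup]
  congr 1
  funext i
  exact qc_dg Z (x i) r

/-- literal functions of the label -/
theorem LQ_chg {V : ∀ k, Setoid (S.F k).Ω} {n : ℕ} (Y : S.VV n) (hV : ∀ k, V k ≤ Setoid.ker (Y.cellv 1 k)) (i : Fin n) :
    qc V (QS.mk (fl1 Y i)) ∈ LQ (S.chg V 1 one_pos) := by
  refine Subring.mem_map.mpr ⟨Pool.Agent.Helper60.CS.trc V 1 one_pos (fl1 Y i), ?_, rfl⟩
  refine Eventually.of_forall fun k ω ω' _ _ h => ?_
  have h1 : Y.cellv 1 k ω = Y.cellv 1 k ω' := hV k h.1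
  have h2 : ⌊Y.v k ω i / S.dl 1 k⌋ = ⌊Y.v k ω' i / S.dl 1 k⌋ := congrFun h1 i
  show (⌊Y.v k ω i / S.dl 1 k⌋ : ℝ) * S.dl 1 k = (⌊Y.v k ω' i / S.dl 1 k⌋ : ℝ) * S.dl 1 k
  rw [h2]

theorem LQ_dg {f : QS S} (h : f ∈ LQ S) : dg f 1 ≤ ⊥ := by
  obtain ⟨g, hg, rfl⟩ := Subring.mem_map.mp h
  rw [dg_mk _ le_rfl]
  exact dg_base' _ hg 1

/-- labels over which finitely many functions are literally known -/
theorem exists_lb {W R : Sp} (π : Pj W R) {al : ℕ → Type} (U : ∀ k, (W.F k).Ω → al k)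
    (hU : Nul W (fun k => I (fc (F := W.F k) (Setoid.ker (U k))) (fc (Setoid.ker (π.π k))) ⊥)) {κ' : Type} [Fintype κ']
    (x : κ' → QS W) (hx : vd x 1 ≤ io U) : ∃ V : ∀ k, Setoid (W.F k).Ω, Nul R (fun k => (lbI π V k).info) ∧
      ∀ c, qc V (x c) ∈ LQ (W.chg V 1 one_pos) := by
  obtain ⟨n, Y, idx, hidx, hioY⟩ := fam_lit x
  refine ⟨fun k => Setoid.ker (U k) ⊓ Setoid.ker (Y.cellv 1 k), nul_lbl π U hU Y (hioY.trans hx), fun c => ?_⟩
  rw [← hidx]
  exact LQ_chg Y (fun k => inf_le_right) (idx c)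

/-- back to the space -/
theorem le_of_chg {V : ∀ k, Setoid (S.F k).Ω} {τ ν : Type} [Fintype τ] [Fintype ν] (y : τ → QS S) (v : ν → QS S)
    (hv : ∀ j, qc V (v j) ∈ LQ (S.chg V 1 one_pos)) {m : ℝ} (h : m ≤ Pool.Agent.Helper31.EC.H (vd (fun t => qc V (y t)) 1)) :
    m ≤ Pool.Agent.Helper31.EC.h (vd y 1) (vd v 1) := by
  have h2 : chgL V 1 one_pos (vd v 1) = ⊥ := by
    apply le_antisymm _ _root_.bot_le
    rw [← qc_vd, vd_le]
    exact fun j => LQ_dg (hv j)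
  have h3 := Pool.Agent.Helper47.T4.h_chg_div (Z' := V) (he := one_pos) (vd y 1) (vd v 1)
  rw [h2, h_bot, div_one] at h3
  rw [qc_vd] at h
  exact h.trans h3

/-- the quotient of a full system under every polynomial map with an inverse on the right, over labels without
information, is full -/
def QF {E : ℕ → ℕ} {ι : Type} (s : MSys S M E ι) (M' : ℕ) : Prop :=
  ∀ (l : Lab S), Nul S (fun k => (l k).info) → ∀ (κ : ℕ), 1 ≤ κ → ∀ (f : TMap (l.ovr 1 one_pos) M M' κ)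
    (G : Fin M → MvPolynomial (Fin M') (QS (l.ovr 1 one_pos))),
    (∀ i, MvPolynomial.bind₁ G (f.qp i) = MvPolynomial.X i) →
    (M' : ℝ) ≤ Pool.Agent.Helper31.EC.H ((f.pm.val (oQ l s.Q)).dg 1)

theorem qf_of {g r : ℕ} (s : MSys S M (lin g) (Fin r)) (hv : ∀ D, (M : ℝ) ≤ s.vol D 0) {M' : ℕ}
    (hst : ∀ κ, QH s M' κ (lin (g * (κ + 1)))) : QF s M' := by
  intro l hinf κ hκ f G hG
  have hl : s.DMc 0 l := dmf_of_info _ hinf
  exact quo_fullO (E' := lin (g * (κ + 1))) hκ s hv hl f G hG (lin_img g κ) (hst κ hκ (lin_img g κ) l hl f G hG)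

/-- THE CORE: proper quotients -/
theorem quo_core {W R : Sp} (π : Pj W R) {E : ℕ → ℕ} {ιs : Type} {ι ν : Type} [Fintype ι] [Fintype ν]
    (s : MSys R M E ιs) (hs : QF s M') (hcard : Fintype.card ι + Fintype.card ν = M' + 1)
    (L : ι ⊕ ν → MvPolynomial (Fin M) (QS W)) (hL : ∀ i, L i ∈ PK ⊥) (LI : Fin M → MvPolynomial (ι ⊕ ν) (QS W))
    (hLI : ∀ i, MvPolynomial.bind₁ LI (L i) = MvPolynomial.X i)
    (w : ν → ℝ) (H : ν → MvPolynomial (ι ⊕ ν) (QS W)) (hH : ∀ j, H j ∈ PK ⊥)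
    (low : ∀ j n, (H j).coeff n ≠ 0 → ∀ l, n (Sum.inr l) ≠ 0 → w l < w j)
    {al : ℕ → Type} (U : ∀ k, (W.F k).Ω → al k)
    (hU : Nul W (fun k => I (fc (F := W.F k) (Setoid.ker (U k))) (fc (Setoid.ker (π.π k))) ⊥))
    (v : ν → QS W) (a : ν) (ha : IsUnit (v a)) (hvU : vd v 1 ≤ io U)
    (pt : ι ⊕ ν → QS W) (hpt : ∀ i, pt i = MvPolynomial.eval (fun j => π.qs (cq s.Q j)) (L i)) :
    (M' : ℝ) ≤ Pool.Agent.Helper31.EC.h (vd (fun b => pt (Sum.inl b)) 1 ⊔ vd (Pool.Agent.Helper96.FWC.wg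
      (fun j => pt (Sum.inr j) - MvPolynomial.eval pt (H j)) v a) 1) (vd v 1) := by
  classical
  -- the polynomials of the map
  obtain ⟨P, hP⟩ : ∃ P : ι ⊕ {i : ν // i ≠ a} → MvPolynomial (Fin M) (QS W), P = fun t =>
    MvPolynomial.bind₁ L (qmp H v a t) := ⟨_, rfl⟩
  have hPK : ∀ t, P t ∈ PK (vd v 1) := by
    intro t
    rw [hP]
    refine bind_mem L (fun i => PK_mono bot_le (hL i)) ?_
    have h1 : ∀ j, MvPolynomial.C (v j) ∈ PK (σ := ι ⊕ ν) (vd v 1) := fun j => C_mem (dg_le_vd v 1 j)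
    have h2 : ∀ j, MvPolynomial.X (Sum.inr j) - H j ∈ PK (vd v 1) := fun j =>
      (PK _).sub_mem (X_mem _ _) (PK_mono bot_le (hH j))
    rcases t with b | i
    · exact X_mem _ _
    · exact (PK _).sub_mem ((PK _).mul_mem (h1 _) (h2 _)) ((PK _).mul_mem (h1 _) (h2 _))
  obtain ⟨V, hinf, hV⟩ := exists_lb π U hU (κ' := ν ⊕ (Σ t, {m // m ∈ (P t).support}))
    (Sum.elim v (fun p => (P p.1).coeff p.2.1)) (by
      rw [vd_le]
      rintro (j | p)
      · exact (dg_le_vd v 1 j).trans hvU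
      · exact (hPK p.1 p.2.1).trans hvU)
  have hcard' : Fintype.card (ι ⊕ {i : ν // i ≠ a}) = M' := by
    have h2 : Fintype.card {i : ν // i ≠ a} = Fintype.card ν - 1 := by
      rw [Fintype.card_subtype_compl, Fintype.card_subtype_eq]
    have h3 : 0 < Fintype.card ν := Fintype.card_pos_iff.mpr ⟨a⟩
    rw [Fintype.card_sum, h2]
    omega
  obtain ⟨e', -⟩ : ∃ e' : ι ⊕ {i : ν // i ≠ a} ≃ Fin M', True := ⟨Fintype.equivFinOfCardEq hcard', trivial⟩
  obtain ⟨κ, hκ⟩ : ∃ κ, κ = 1 + ∑ t, (P t).totalDegree := ⟨_, rfl⟩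
  obtain ⟨f, hf⟩ := exists_tmap (κ := κ) (fun m => MvPolynomial.map (qc V) (P (e'.symm m))) (by
    intro m
    refine deg_map _ _ ?_
    have h1 := Finset.single_le_sum (f := fun t => (P t).totalDegree) (fun _ _ => Nat.zero_le _)
      (Finset.mem_univ (e'.symm m))
    have h2 : (P (e'.symm m)).totalDegree ≤ ∑ t, (P t).totalDegree := h1
    omega) (by
    intro m m'
    rw [MvPolynomial.coeff_map]
    by_cases hm : m' ∈ (P (e'.symm m)).support
    · exact hV (Sum.inr ⟨e'.symm m, ⟨m', hm⟩⟩)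
    · rw [MvPolynomial.notMem_support_iff.mp hm, map_zero]
      exact (LQ _).zero_mem)
  -- the inverse on the right
  obtain ⟨G, hG⟩ := qmp_inv w H low v a ha
  have hGP : ∀ t, MvPolynomial.bind₁ (fun j => MvPolynomial.bind₁ G (LI j)) (P t) = MvPolynomial.X t := by
    intro t
    rw [← MvPolynomial.bind₁_bind₁, hP]
    show MvPolynomial.bind₁ G (MvPolynomial.bind₁ LI (MvPolynomial.bind₁ L (qmp H v a t))) = _
    rw [MvPolynomial.bind₁_bind₁ (f := L)]
    have h1 : (fun i => MvPolynomial.bind₁ LI (L i)) = MvPolynomial.X := funext hLI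
    rw [h1, MvPolynomial.aeval_unique (MvPolynomial.bind₁ (MvPolynomial.X : ι ⊕ ν → MvPolynomial (ι ⊕ ν) (QS W)))]
    have h2 : (MvPolynomial.aeval (⇑(MvPolynomial.bind₁ (MvPolynomial.X : ι ⊕ ν → MvPolynomial (ι ⊕ ν) (QS W))) ∘
      MvPolynomial.X) : MvPolynomial (ι ⊕ ν) (QS W) →ₐ[QS W] _) (qmp H v a t) = qmp H v a t := by
      have h3 : (⇑(MvPolynomial.bind₁ (MvPolynomial.X : ι ⊕ ν → MvPolynomial (ι ⊕ ν) (QS W))) ∘ MvPolynomial.X) =
          (MvPolynomial.X : ι ⊕ ν → MvPolynomial (ι ⊕ ν) (QS W)) := by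
        funext i
        exact MvPolynomial.bind₁_X_right _ _
      rw [h3]
      exact MvPolynomial.aeval_X_left_apply _
    rw [h2, hG]
  have hinv : ∀ m, MvPolynomial.bind₁ (fun j => MvPolynomial.rename e' (MvPolynomial.map (qc V)
      (MvPolynomial.bind₁ G (LI j)))) (f.qp m) = MvPolynomial.X m := by
    intro m
    rw [hf m]
    have h2 : MvPolynomial.bind₁ (fun i => MvPolynomial.rename e' (MvPolynomial.map (qc V) (MvPolynomial.bind₁ G (LI i))))
        (MvPolynomial.map (qc V) (P (e'.symm m))) = MvPolynomial.rename e' (MvPolynomial.bind₁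
          (fun i => MvPolynomial.map (qc V) (MvPolynomial.bind₁ G (LI i))) (MvPolynomial.map (qc V) (P (e'.symm m)))) := by
      rw [MvPolynomial.rename_bind₁]
    rw [h2, ← MvPolynomial.map_bind₁, hGP, MvPolynomial.map_X, MvPolynomial.rename_X, Equiv.apply_symm_apply]
  have key := hs (lbI π V) hinf κ (by omega) f _ hinv
  rw [vv_dg] at key
  -- values
  obtain ⟨y, hy⟩ : ∃ y : ι ⊕ {i : ν // i ≠ a} → QS W, y = fun t => MvPolynomial.eval pt (qmp H v a t) := ⟨_, rfl⟩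
  have hyP : ∀ t, y t = MvPolynomial.eval (fun j => π.qs (cq s.Q j)) (P t) := by
    intro t
    rw [hy, hP]
    show MvPolynomial.eval pt (qmp H v a t) = MvPolynomial.eval _ (MvPolynomial.bind₁ L (qmp H v a t))
    rw [eval_bind]
    congr 1
    exact congrArg _ (funext hpt)
  have hcq : ∀ m, cq (f.pm.val (oQ (lbI π V) s.Q)) m = qc V (y (e'.symm m)) := by
    intro m
    obtain ⟨x, hx⟩ : ∃ x : Fin M → QS (W.chg V 1 one_pos), x = cq (oQ (lbI π V) s.Q) := ⟨_, rfl⟩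
    have h0 : cq (f.pm.val (oQ (lbI π V) s.Q)) m = MvPolynomial.eval x (f.qp m) := by
      rw [hx]
      exact f.cq_val (oQ (lbI π V) s.Q) m
    have h1 : x = fun j => qc V (π.qs (cq s.Q j)) := by
      funext j
      rw [hx]
      rfl
    have h2 : MvPolynomial.eval x (f.qp m) = qc V (y (e'.symm m)) := by
      rw [hf m, hyP, h1]
      exact (MvPolynomial.map_eval (qc V) _ _).symm
    exact h0.trans h2
  have h1 : vd (cq (f.pm.val (oQ (lbI π V) s.Q))) 1 ≤ vd (fun t => qc V (y t)) 1 := by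
    rw [vd_le]
    intro m
    rw [hcq m]
    exact dg_le_vd (fun t => qc V (y t)) 1 (e'.symm m)
  have h2 := le_of_chg y v (fun j => hV (Sum.inl j)) (key.trans (H_mono h1))
  refine h2.trans (h_mono ?_)
  rw [vd_le]
  intro t
  rw [hy]
  show dg (MvPolynomial.eval pt (qmp H v a t)) 1 ≤ _
  rw [qmp_eval]
  rcases t with b | i
  · exact (dg_le_vd (fun b => pt (Sum.inl b)) 1 b).trans le_sup_left
  · have h1 := dg_le_vd (Pool.Agent.Helper96.FWC.wg (fun j => pt (Sum.inr j) - MvPolynomial.eval pt (H j)) v a) 1 i.1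
    refine le_trans (le_of_eq ?_) (h1.trans le_sup_right)
    show dg (v a * (pt (Sum.inr i.1) - MvPolynomial.eval pt (H i.1)) -
      v i.1 * (pt (Sum.inr a) - MvPolynomial.eval pt (H a))) 1 = dg ((pt (Sum.inr i.1) - MvPolynomial.eval pt (H i.1)) * v a -
        (pt (Sum.inr a) - MvPolynomial.eval pt (H a)) * v i.1) 1
    congr 1
    ring

/-- full quotients at all levels -/
theorem wg_level {W : Sp} {ι ν : Type} [Fintype ι] [Fintype ν] (q : ι → QS W) (z v : ν → QS W) (a : ν)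
    (h : ((Fintype.card ι + Fintype.card ν : ℕ) : ℝ) - 1 ≤ Pool.Agent.Helper31.EC.h
      (vd q 1 ⊔ vd (Pool.Agent.Helper96.FWC.wg z v a) 1) (vd v 1)) {k : ℝ} (h0 : 0 ≤ k) (h1 : k ≤ 1) :
    Pool.Agent.Helper31.EC.h (vd (Pool.Agent.Helper96.FWC.wg z v a) k) (vd q 1 ⊔ vd v 1) =
      ((Fintype.card ν : ℝ) - 1) * k := by
  classical
  obtain ⟨z', hz'⟩ : ∃ z' : {i : ν // i ≠ a} → QS W, z' = fun i => Pool.Agent.Helper96.FWC.wg z v a i.1 := ⟨_, rfl⟩
  have hz : ∀ r : ℝ, r ≤ 1 → vd (Pool.Agent.Helper96.FWC.wg z v a) r = vd z' r := by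
    intro r hr
    apply le_antisymm
    · rw [vd_le]
      intro i
      by_cases hi : i = a
      · have h2 : Pool.Agent.Helper96.FWC.wg z v a i = 0 := by
          rw [hi]
          unfold Pool.Agent.Helper96.FWC.wg
          rw [sub_self]
        rw [h2]
        exact ((Kn W r hr ⊥).zero_mem : dg (0 : QS W) r ≤ ⊥).trans bot_le
      · have h2 := dg_le_vd z' r ⟨i, hi⟩
        rw [hz'] at h2 ⊢
        exact h2
    · rw [vd_le]
      intro i
      rw [hz']
      exact dg_le_vd (Pool.Agent.Helper96.FWC.wg z v a) r i.1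
  rw [hz 1 le_rfl] at h
  rw [hz k h1]
  have hc : (Fintype.card {i : ν // i ≠ a} : ℝ) = (Fintype.card ν : ℝ) - 1 := by
    have h2 : Fintype.card {i : ν // i ≠ a} = Fintype.card ν - 1 := by
      rw [Fintype.card_subtype_compl, Fintype.card_subtype_eq]
    have h3 : 0 < Fintype.card ν := Fintype.card_pos_iff.mpr ⟨a⟩
    rw [h2, Nat.cast_sub h3, Nat.cast_one]
  apply le_antisymm
  · have h2 := Pool.Agent.Helper50.VC.h_vd_le z' h0 (vd q 1 ⊔ vd v 1)
    rw [hc] at h2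
    exact h2
  · have a1 := h_chain (vd q 1) (vd z' 1) (vd v 1)
    have a2 := Pool.Agent.Helper50.VC.h_vd_le q zero_le_one (vd v 1)
    have a3 := h_triangle (vd z' 1) (vd z' k) (vd q 1 ⊔ vd v 1)
    have a4 := Pool.Agent.Helper50.VC.h_vd_vd z' h1 (vd q 1 ⊔ vd v 1)
    rw [hc] at a4
    push_cast at h
    rw [mul_one] at a2
    nlinarith

/-- STQE: THE QUOTIENTS OF THE TRIANGULAR COORDINATES OF A POINT OF A SYSTEM WITH FULL HULL ARE FULL -/
theorem stqe_of {S S0 : Sp} (π : Pj S S0) {E0 : ℕ → ℕ} {ιs ι ν : Type} [Fintype ι] [Fintype ν]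
    (s : MSys S0 M E0 ιs) (hs : ∀ (T : Sp) (p : Pj T S0) (E : ∀ k, (T.F k).Ω → Prop) (hE : 0 < ul (T.pr E)),
      QF (s.im p E hE) M') (hc : Fintype.card ι + Fintype.card ν = M' + 1)
    (q : ι → QS S) (R : ν → QS S) (L : ι ⊕ ν → MvPolynomial (Fin M) (QS S)) (hL : ∀ i, L i ∈ PK ⊥)
    (LI : Fin M → MvPolynomial (ι ⊕ ν) (QS S)) (hLI : ∀ i, MvPolynomial.bind₁ LI (L i) = MvPolynomial.X i)
    (hpt : ∀ i, Sum.elim q R i = MvPolynomial.eval (fun j => π.qs (cq s.Q j)) (L i))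
    (w : ν → ℝ) (H : ν → MvPolynomial (ι ⊕ ν) (QS S)) (hH : ∀ j, H j ∈ PK ⊥)
    (low : ∀ j n, (H j).coeff n ≠ 0 → ∀ l, n (Sum.inr l) ≠ 0 → w l < w j) :
    Pool.Agent.Helper13.AM.STQE q (fun j => R j - MvPolynomial.eval (Sum.elim q R) (H j)) 1 := by
  intro T p E hE al U hU v a ha hvU k hk0 hk1
  obtain ⟨φ, hφ⟩ : ∃ φ : QS S →+* QS (T.rest E), φ = (QS.rest E hE).comp p.qs := ⟨_, rfl⟩
  have hφd : ∀ f r, dg (φ f) r = restL E hE (p.map (dg f r)) := by
    intro f r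
    rw [hφ]
    show dg (QS.rest E hE (p.qs f)) r = _
    rw [QS.rest_dg, p.qs_dg]
  have hφK : ∀ {σ : Type} {P : MvPolynomial σ (QS S)}, P ∈ PK ⊥ → MvPolynomial.map φ P ∈ PK ⊥ := by
    intro σ P hP m
    rw [MvPolynomial.coeff_map]
    show dg (φ (P.coeff m)) 1 ≤ ⊥
    rw [hφd, le_antisymm (hP m) _root_.bot_le, p.map_bot, restL_bot]
  have hpt' : ∀ i, φ (Sum.elim q R i) = MvPolynomial.eval (fun j => (imq (p.comp π) E).qs
      (cq (s.im (p.comp π) E hE).Q j)) (MvPolynomial.map φ (L i)) := by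
    intro i
    have h1 : (fun j => (imq (p.comp π) E).qs (cq (s.im (p.comp π) E hE).Q j)) = fun j => φ (π.qs (cq s.Q j)) := by
      funext j
      rw [hφ]
      rfl
    rw [hpt, h1]
    exact MvPolynomial.map_eval φ _ _
  have hU' : Nul (T.rest E) (fun k => I (fc (F := (T.rest E).F k) (Setoid.ker (U k)))
      (fc (Setoid.ker ((imq (p.comp π) E).π k))) ⊥) := by
    refine hU.of_le (Eventually.of_forall fun k => I_nonneg _ _ _) (Eventually.of_forall fun k => ?_)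
    apply I_mono_right
    rw [sup_bot_eq]
    apply fc_mono
    intro ω ω' h
    have h' : p.π k ω = p.π k ω' := h
    show π.π k (p.π k ω) = π.π k (p.π k ω')
    rw [h']
  have h2 := quo_core (W := T.rest E) (imq (p.comp π) E) (s.im (p.comp π) E hE) (hs T (p.comp π) E hE) hc
    (fun i => MvPolynomial.map φ (L i)) (fun i => hφK (hL i)) (fun j => MvPolynomial.map φ (LI j)) (fun i => by
      rw [← MvPolynomial.map_bind₁, hLI, MvPolynomial.map_X]) w (fun j => MvPolynomial.map φ (H j))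
    (fun j => hφK (hH j)) (fun j n hn l hl => low j n (by
        intro h0
        rw [MvPolynomial.coeff_map, h0, map_zero] at hn
        exact hn rfl) l hl) U hU' v a ha hvU (fun i => φ (Sum.elim q R i)) hpt'
  have h3 : ((Fintype.card ι + Fintype.card ν : ℕ) : ℝ) - 1 = M' := by
    rw [hc]
    push_cast
    ring
  have e1 : (fun j => φ (Sum.elim q R (Sum.inr j)) - MvPolynomial.eval (fun i => φ (Sum.elim q R i))
      (MvPolynomial.map φ (H j))) = fun j => QS.rest E hE (p.qs (R j - MvPolynomial.eval (Sum.elim q R) (H j))) := by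
    funext j
    have h4 : MvPolynomial.eval (fun i => φ (Sum.elim q R i)) (MvPolynomial.map φ (H j)) =
        φ (MvPolynomial.eval (Sum.elim q R) (H j)) := (MvPolynomial.map_eval φ _ _).symm
    rw [h4, ← map_sub, hφ]
    rfl
  have e2 : vd (fun b => φ (Sum.elim q R (Sum.inl b))) 1 = restL E hE (p.map (vd q 1)) := by
    rw [← p.qs_vd, ← QS.rest_vd, hφ]
    rfl
  rw [e1, ← h3] at h2
  have h5 := wg_level (fun b => φ (Sum.elim q R (Sum.inl b)))
    (fun j => QS.rest E hE (p.qs (R j - MvPolynomial.eval (Sum.elim q R) (H j)))) v a h2 hk0 hk1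
  rw [e2] at h5
  exact h5

end

end Pool.Agent.Helper24.PR
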