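import Pool.Agent.Helper24.PR.Quo
import Pool.Agent.Helper98.FR.Over

/-! PROPER QUOTIENTS, polynomial images. Polynomial maps which are literally known to the base, over the ring of tame
functions; no relation for images under maps of any degree with a polynomial inverse on the right. -/

set_option autoImplicit false

namespace Pool.Agent.Helper24.PR

open Finset Filter Topology Matrix Pool.Agent.Helper69.RK Pool.Agent.Helper31.EC Pool.Agent.Helper31.EC.Sp
open Pool.Agent.Helper40.EL Pool.Agent.Helper89.LX Pool.Agent.Helper3.LF Pool.Agent.Helper84.MT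
open Pool.Agent.Helper5.HB Pool.Agent.Helper5.DO QS Pool.Agent.Helper38.NS

noncomputable section

variable {S T : Sp} {M M' D κ : ℕ} {E E' : ℕ → ℕ} {ι : Type}

/-- degree of a substitution -/
theorem deg_bind {A : Type*} [CommRing A] {σ τ : Type*} (f : σ → MvPolynomial τ A) {κ : ℕ}
    (hf : ∀ i, (f i).totalDegree ≤ κ) (P : MvPolynomial σ A) {D : ℕ} (hP : P.totalDegree ≤ D) :
    (MvPolynomial.bind₁ f P).totalDegree ≤ κ * D := by
  classical
  conv_lhs => rw [P.as_sum, map_sum]
  apply MvPolynomial.totalDegree_finsetSum_le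
  intro m hm
  rw [MvPolynomial.bind₁_monomial]
  refine (MvPolynomial.totalDegree_mul _ _).trans ?_
  rw [MvPolynomial.totalDegree_C, zero_add]
  refine (MvPolynomial.totalDegree_finsetProd _ _).trans ?_
  have h1 := (MvPolynomial.le_totalDegree hm).trans hP
  refine le_trans ?_ (Nat.mul_le_mul_left κ h1)
  rw [Finsupp.sum, Finset.mul_sum]
  apply Finset.sum_le_sum
  intro i _
  refine (MvPolynomial.totalDegree_pow _ _).trans ?_
  calc m i * (f i).totalDegree ≤ m i * κ := Nat.mul_le_mul_left _ (hf i)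
    _ = κ * m i := mul_comm _ _

/-- no relation: images under maps of degree `κ` with an inverse on the right -/
theorem nr_img' {σ τ : Type} {x : σ → QS S} {B : S.L} {r : ℝ} (h : NR (κ * D) x B r)
    (P : τ → MvPolynomial σ (QS S)) (hP : ∀ i, P i ∈ PK B) (hd : ∀ i, (P i).totalDegree ≤ κ)
    (G : σ → MvPolynomial τ (QS S)) (hG : ∀ i, MvPolynomial.bind₁ G (P i) = MvPolynomial.X i) :
    NR D (fun i => MvPolynomial.eval x (P i)) B r := by
  intro R hR hRB he m
  have h1 := h (MvPolynomial.bind₁ P R) (deg_bind P hd R hR) (bind_mem P hP hRB) (by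
    rw [eval_bind]
    exact he)
  have h2 : MvPolynomial.bind₁ P R ∈ Ideal.map MvPolynomial.C (Id S r) := by
    rw [MvPolynomial.mem_map_C_iff]
    exact h1
  have h3 : MvPolynomial.bind₁ G (MvPolynomial.bind₁ P R) = R := by
    rw [MvPolynomial.bind₁_bind₁]
    have e1 : (fun i => MvPolynomial.bind₁ G (P i)) = MvPolynomial.X := funext hG
    rw [e1]
    exact MvPolynomial.aeval_X_left_apply R
  have h4 : MvPolynomial.bind₁ G (MvPolynomial.bind₁ P R) ∈ Ideal.map MvPolynomial.C (Id S r) := by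
    have h5 : (MvPolynomial.bind₁ G : MvPolynomial σ (QS S) →ₐ[QS S] MvPolynomial τ (QS S)).toRingHom
        (MvPolynomial.bind₁ P R) ∈ Ideal.map (MvPolynomial.bind₁ G).toRingHom
          (Ideal.map (MvPolynomial.C (σ := σ)) (Id S r)) := Ideal.mem_map_of_mem _ h2
    rw [Ideal.map_map] at h5
    have e2 : (MvPolynomial.bind₁ G : MvPolynomial σ (QS S) →ₐ[QS S] MvPolynomial τ (QS S)).toRingHom.comp
        (MvPolynomial.C (σ := σ)) = MvPolynomial.C := by
      ext1 a
      exact MvPolynomial.bind₁_C_right G a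
    rw [e2] at h5
    exact h5
  rw [h3, MvPolynomial.mem_map_C_iff] at h4
  exact h4 m

/-- tame functions which are literally functions of the base -/
def BL (f : TR S) : Prop := ∀ᶠ k in UF, ∀ ω ω', (S.F k).μ ω ≠ 0 → (S.F k).μ ω' ≠ 0 → (S.F k).Z ω ω' →
  TR.ev f k ω = TR.ev f k ω'

theorem BL.add {f g : TR S} (hf : BL f) (hg : BL g) : BL (f + g) := by
  filter_upwards [hf, hg] with k a b ω ω' c d z
  rw [TR.ev_add, TR.ev_add, a ω ω' c d z, b ω ω' c d z]

theorem BL.mul {f g : TR S} (hf : BL f) (hg : BL g) : BL (f * g) := by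
  filter_upwards [hf, hg] with k a b ω ω' c d z
  rw [TR.ev_mul, TR.ev_mul, a ω ω' c d z, b ω ω' c d z]

theorem BL.neg {f : TR S} (hf : BL f) : BL (-f) := by
  filter_upwards [hf] with k a ω ω' c d z
  rw [TR.ev_neg, TR.ev_neg, a ω ω' c d z]

variable (S) in
/-- the ring of literal functions of the base -/
def BR : Subring (TR S) where
  carrier := {f | BL f}
  mul_mem' := BL.mul
  one_mem' := Eventually.of_forall fun _ _ _ _ _ _ => rfl
  add_mem' := BL.add
  zero_mem' := Eventually.of_forall fun _ _ _ _ _ _ => rfl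
  neg_mem' := BL.neg

variable (S) in
/-- polynomials with coefficients in `BR` -/
def PB (σ : Type) : Subring (MvPolynomial σ (TR S)) where
  carrier := {P | ∀ m, P.coeff m ∈ BR S}
  mul_mem' := by
    classical
    intro P Q hP hQ m
    rw [MvPolynomial.coeff_mul]
    exact (BR S).sum_mem fun x _ => (BR S).mul_mem (hP _) (hQ _)
  one_mem' := by
    classical
    intro m
    rw [MvPolynomial.coeff_one]
    split_ifs
    · exact (BR S).one_mem
    · exact (BR S).zero_mem
  add_mem' := by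
    intro P Q hP hQ m
    rw [MvPolynomial.coeff_add]
    exact (BR S).add_mem (hP m) (hQ m)
  zero_mem' := by
    intro m
    rw [MvPolynomial.coeff_zero]
    exact (BR S).zero_mem
  neg_mem' := by
    intro P hP m
    rw [MvPolynomial.coeff_neg]
    exact (BR S).neg_mem (hP m)

theorem PB_C {σ : Type} {f : TR S} (hf : f ∈ BR S) : MvPolynomial.C f ∈ PB S σ := by
  classical
  intro m
  rw [MvPolynomial.coeff_C]
  split_ifs
  · exact hf
  · exact (BR S).zero_mem

theorem PB_X {σ : Type} (i : σ) : MvPolynomial.X i ∈ PB S σ := by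
  classical
  intro m
  rw [MvPolynomial.coeff_X]
  split_ifs
  · exact (BR S).one_mem
  · exact (BR S).zero_mem

variable (S) in
/-- A POLYNOMIAL MAP over tame functions of the base -/
structure TMap (M M' κ : ℕ) where
  P : Fin M' → MvPolynomial (Fin M) (TR S)
  deg : ∀ i, (P i).totalDegree ≤ κ
  lit : ∀ i, P i ∈ PB S (Fin M)

namespace TMap

/-- as a polynomial map of helper81 -/
def pm (f : TMap S M M' κ) : PMap S M M' κ where
  G := fun k ω i => MvPolynomial.map (TR.evh k ω) (f.P i)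
  deg := fun k ω i => deg_map _ _ (f.deg i)
  fn := by
    classical
    have h1 : ∀ᶠ k in UF, ∀ i ∈ (Finset.univ : Finset (Fin M')), ∀ m ∈ (f.P i).support, ∀ ω ω', (S.F k).μ ω ≠ 0 →
        (S.F k).μ ω' ≠ 0 → (S.F k).Z ω ω' → TR.ev ((f.P i).coeff m) k ω = TR.ev ((f.P i).coeff m) k ω' := by
      rw [Filter.eventually_all_finset]
      intro i _
      rw [Filter.eventually_all_finset]
      intro m _
      exact f.lit i m
    filter_upwards [h1] with k hk ω ω' a b c
    funext i
    apply MvPolynomial.ext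
    intro m
    rw [MvPolynomial.coeff_map, MvPolynomial.coeff_map]
    by_cases hm : m ∈ (f.P i).support
    · exact hk i (Finset.mem_univ i) m hm ω ω' a b c
    · rw [MvPolynomial.notMem_support_iff.mp hm, map_zero, map_zero]
  bd := by
    classical
    set s : TR S := ∑ i, ∑ m ∈ (f.P i).support, ((f.P i).coeff m ^ 2 + 1) with hs
    obtain ⟨K, hK, hb⟩ := s.2
    refine ⟨K, hK, ?_⟩
    filter_upwards [hb, hK.1] with k h1 h0 ω hω i m
    rw [MvPolynomial.coeff_map]
    by_cases hm : m ∈ (f.P i).support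
    · have h2 : TR.evh k ω s = ∑ i, ∑ m ∈ (f.P i).support, (TR.evh k ω ((f.P i).coeff m) ^ 2 + 1) := by
        rw [hs, map_sum]
        refine Finset.sum_congr rfl fun i _ => ?_
        rw [map_sum]
        refine Finset.sum_congr rfl fun m _ => ?_
        rw [map_add, map_pow, map_one]
      have h3 : TR.evh k ω ((f.P i).coeff m) ^ 2 + 1 ≤ TR.evh k ω s := by
        rw [h2]
        have h4 : ∀ i, 0 ≤ ∑ m ∈ (f.P i).support, (TR.evh k ω ((f.P i).coeff m) ^ 2 + 1) := fun i =>
          Finset.sum_nonneg fun m _ => by positivity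
        refine le_trans ?_ (Finset.single_le_sum (f := fun i => ∑ m ∈ (f.P i).support,
          (TR.evh k ω ((f.P i).coeff m) ^ 2 + 1)) (fun i _ => h4 i) (Finset.mem_univ i))
        exact Finset.single_le_sum (f := fun m => TR.evh k ω ((f.P i).coeff m) ^ 2 + 1)
          (fun m _ => by positivity) hm
      have h5 : TR.evh k ω s ≤ K k := (le_abs_self _).trans (h1 ω hω)
      have h6 := h3.trans h5
      have h7 : |TR.evh k ω ((f.P i).coeff m)| ≤ TR.evh k ω ((f.P i).coeff m) ^ 2 + 1 := by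
        rw [← sq_abs]
        nlinarith [sq_nonneg (|TR.evh k ω ((f.P i).coeff m)| - 1), abs_nonneg (TR.evh k ω ((f.P i).coeff m))]
      exact h7.trans h6
    · rw [MvPolynomial.notMem_support_iff.mp hm, map_zero, abs_zero]
      exact h0

/-- the polynomials of the map -/
def qp (f : TMap S M M' κ) (i : Fin M') : MvPolynomial (Fin M) (QS S) := MvPolynomial.map QS.mk (f.P i)

theorem qp_PK (f : TMap S M M' κ) (i : Fin M') : f.qp i ∈ PK ⊥ := by
  intro m
  unfold qp
  rw [MvPolynomial.coeff_map]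
  show QS.dg (QS.mk ((f.P i).coeff m)) 1 ≤ ⊥
  rw [dg_mk _ le_rfl]
  exact dg_base' _ (f.lit i m) 1

theorem qp_deg (f : TMap S M M' κ) (i : Fin M') : (f.qp i).totalDegree ≤ κ := deg_map _ _ (f.deg i)

/-- the coordinates of the image -/
theorem cq_val (f : TMap S M M' κ) (Q : S.VV M) (i : Fin M') :
    cq (f.pm.val Q) i = MvPolynomial.eval (cq Q) (f.qp i) := by
  have h1 : MvPolynomial.eval (cq Q) (f.qp i) = QS.mk (MvPolynomial.eval (fun i => TR.cor Q i) (f.P i)) :=
    (MvPolynomial.map_eval QS.mk (fun i => TR.cor Q i) (f.P i)).symm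
  rw [h1]
  show QS.mk (TR.cor (f.pm.val Q) i) = _
  rw [QS.mk_eq]
  apply TR.Te.ag
  refine ⟨fun _ _ => True, Typ_true, Eventually.of_forall fun k ω _ _ => ?_⟩
  rw [TR.ev_cor, ← TR.evh_apply]
  have h2 : TR.evh k ω (MvPolynomial.eval (fun i => TR.cor Q i) (f.P i)) =
      MvPolynomial.eval (fun i => TR.evh k ω (TR.cor Q i)) (MvPolynomial.map (TR.evh k ω) (f.P i)) :=
    MvPolynomial.map_eval (TR.evh k ω) (fun i => TR.cor Q i) (f.P i)
  rw [h2]
  rfl

end TMap

/-- functions over a label -/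
def Ph0 (l : Lab S) : QS S →+* QS (l.ovr 1 one_pos) := (Pool.Agent.Helper98.FR.qc l.V).comp l.pj.qs

theorem Ph0_dg (l : Lab S) (f : QS S) (r : ℝ) : dg (Ph0 l f) r = up1 l (dg f r) := by
  show dg (Pool.Agent.Helper98.FR.qc l.V (l.pj.qs f)) r = _
  rw [Pool.Agent.Helper98.FR.qc_dg, l.pj.qs_dg]
  rfl

theorem up1_bot (l : Lab S) : up1 l (⊥ : S.L) = ⊥ := by
  show chgL l.V 1 one_pos (l.pj.map ⊥) = _
  rw [l.pj.map_bot, chgL_bot]
  rfl

/-- functions on an event of the space over a label -/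
def Phi (l : Lab S) (A : ∀ k, ((l.ovr 1 one_pos).F k).Ω → Prop) (hA : 0 < ul ((l.ovr 1 one_pos).pr A)) :
    QS S →+* QS ((l.ovr 1 one_pos).rest A) := (QS.rest A hA).comp (Ph0 l)

theorem Phi_cq (l : Lab S) (A : ∀ k, ((l.ovr 1 one_pos).F k).Ω → Prop) (hA : 0 < ul ((l.ovr 1 one_pos).pr A))
    (Q : S.VV M) (i : Fin M) : Phi l A hA (cq Q i) = cq ((oQ l Q).rest A) i := rfl

theorem Phi_dg (l : Lab S) (A : ∀ k, ((l.ovr 1 one_pos).F k).Ω → Prop) (hA : 0 < ul ((l.ovr 1 one_pos).pr A))
    (f : QS S) (r : ℝ) : dg (Phi l A hA f) r = restL A hA (up1 l (dg f r)) := by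
  show dg (QS.rest A hA (Ph0 l f)) r = _
  rw [QS.rest_dg, Ph0_dg]

theorem Phi_bot (l : Lab S) (A : ∀ k, ((l.ovr 1 one_pos).F k).Ω → Prop) (hA : 0 < ul ((l.ovr 1 one_pos).pr A))
    {f : QS S} {r : ℝ} (h : dg f r ≤ ⊥) : dg (Phi l A hA f) r ≤ ⊥ := by
  rw [Phi_dg]
  have h1 : dg f r = ⊥ := le_antisymm h _root_.bot_le
  rw [h1, up1_bot, restL_bot]

theorem Phi_PK (l : Lab S) (A : ∀ k, ((l.ovr 1 one_pos).F k).Ω → Prop) (hA : 0 < ul ((l.ovr 1 one_pos).pr A))
    {σ : Type} {P : MvPolynomial σ (QS S)} (h : P ∈ PK ⊥) : MvPolynomial.map (Phi l A hA) P ∈ PK ⊥ := by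
  intro m
  rw [MvPolynomial.coeff_map]
  exact Phi_bot l A hA (h m)

/-- NO RELATION FOR POLYNOMIAL IMAGES, over labels -/
theorem TMap.nrl (f : TMap S M M' κ) (G : Fin M → MvPolynomial (Fin M') (QS S))
    (hG : ∀ i, MvPolynomial.bind₁ G (f.qp i) = MvPolynomial.X i) {Q : S.VV M} {l : Lab S}
    (h : NRl (κ * D) l Q) : NRl D l (f.pm.val Q) := by
  intro A hA r h0 h1
  have h2 := nr_img' (h A hA r h0 h1) (fun i => MvPolynomial.map (Phi l A hA) (f.qp i))
    (fun i => Phi_PK l A hA (f.qp_PK i)) (fun i => deg_map _ _ (f.qp_deg i))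
    (fun i => MvPolynomial.map (Phi l A hA) (G i)) (fun i => by
      rw [← MvPolynomial.map_bind₁, hG, MvPolynomial.map_X])
  have h3 : cq ((oQ l (f.pm.val Q)).rest A) = fun i =>
      MvPolynomial.eval (cq ((oQ l Q).rest A)) (MvPolynomial.map (Phi l A hA) (f.qp i)) := by
    funext i
    rw [← Phi_cq l A hA (f.pm.val Q) i, f.cq_val]
    exact MvPolynomial.map_eval (Phi l A hA) (cq Q) (f.qp i)
  rw [h3]
  exact h2

/-- the IMAGE of a full system under a polynomial map known to a label without leak IS FULL over the label -/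
theorem quo_full' [Finite ι] (hST : STm D M' E' ι) (hκ : 1 ≤ κ) (s : MSys S M E ι) (hv : (M : ℝ) ≤ s.vol (κ * D) 0)
    {l : Lab S} (hl : s.DMc 0 l) (f : TMap (l.ovr 1 one_pos) M M' κ)
    (G : Fin M → MvPolynomial (Fin M') (QS (l.ovr 1 one_pos)))
    (hG : ∀ i, MvPolynomial.bind₁ G (f.qp i) = MvPolynomial.X i) (hE : ∀ D, E (κ * D) ≤ E' D) :
    (M' : ℝ) ≤ H ((f.pm.val (oQ l s.Q)).dg 1) := by
  obtain ⟨xs, hxs⟩ := s.exists_can (κ * D) 0
  rw [← s.vol_eq hxs.1] at hv
  obtain ⟨x, hx⟩ := ((ovm s hl).img f.pm hκ hE).exists_can D 0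
  have hNR : NRl D (Pool.Agent.Helper5.HB.lb x) (f.pm.val (oQ l s.Q)) := by
    apply f.nrl G hG
    apply nrl_comp
    apply NRl_of_vol s.Q hxs.1 hv
    exact dmc_comp hl le_rfl (MSys.DMc.of_img hx.2.1)
  have h1 := full_of_NR hST ((ovm s hl).img f.pm hκ hE) hx hNR
  have h2 := H_up1_le (Pool.Agent.Helper5.HB.lb x) ((f.pm.val (oQ l s.Q)).dg 1)
  have h3 : H (up1 (Pool.Agent.Helper5.HB.lb x) ((f.pm.val (oQ l s.Q)).dg 1)) = M' := h1
  linarith

end

end Pool.Agent.Helper24.PR
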