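import Pool.Agent.Helper24.PR.Att
import Pool.Agent.Helper24.PR.Mu
import Pool.Agent.Helper95.RIG.Rs
import Pool.Agent.Helper42.NS.PsiR

/-! PROPER QUOTIENTS: points attached on a typical event. -/

set_option autoImplicit false

namespace Pool.Agent.Helper24.PR

open Finset Filter Topology Matrix Pool.Agent.Helper69.RK Pool.Agent.Helper31.EC Pool.Agent.Helper31.EC.Sp
open Pool.Agent.Helper40.EL Pool.Agent.Helper89.LX Pool.Agent.Helper3.LF Pool.Agent.Helper84.MT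
open Pool.Agent.Helper5.HB Pool.Agent.Helper5.DO QS Pool.Agent.Helper38.NS
open Pool.Agent.Helper95.RIG (rsP rsP_qs rsP_map pos_pull)
open Pool.Agent.Helper42.NS (pb_rest)

noncomputable section

/-- an event of an event -/
theorem rest_rest (F : FSp) (E R : F.Ω → Prop) (h : F.pb (fun ω => E ω ∧ R ω) ≠ 0) :
    ((F.rest E).rest R).μ = (F.rest fun ω => E ω ∧ R ω).μ := by
  have hm := pb_rest F E R
  have h1 : F.pb E ≠ 0 := fun hc => h (by rw [← hm, hc, zero_mul])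
  have h2 : (F.rest E).pb R ≠ 0 := fun hc => h (by rw [← hm, hc, mul_zero])
  have e1 : ((F.rest E).rest R).μ = fun ω => ((F.rest E).pb R)⁻¹ * res (F.rest E).μ R ω :=
    (F.rest E).restμ_eq R h2
  have e2 : (F.rest E).μ = fun ω => (F.pb E)⁻¹ * res F.μ E ω := F.restμ_eq E h1
  have e3 : (F.rest fun ω => E ω ∧ R ω).μ =
      fun ω => (F.pb fun ω => E ω ∧ R ω)⁻¹ * res F.μ (fun ω => E ω ∧ R ω) ω := F.restμ_eq _ h
  rw [e1, e3, ← hm, mul_inv]
  funext ω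
  have e4 : (F.rest E).μ ω = (F.pb E)⁻¹ * res F.μ E ω := congrFun e2 ω
  by_cases a : R ω
  · have f1 : res (F.rest E).μ R ω = (F.rest E).μ ω := res_pos _ _ _ a
    rw [f1, e4]
    by_cases b : E ω
    · have f2 : res F.μ E ω = F.μ ω := res_pos _ _ _ b
      have f3 : res F.μ (fun ω => E ω ∧ R ω) ω = F.μ ω := res_pos _ _ _ ⟨b, a⟩
      rw [f2, f3]; ring
    · have f2 : res F.μ E ω = 0 := res_neg _ _ _ b
      have f3 : res F.μ (fun ω => E ω ∧ R ω) ω = 0 := res_neg _ _ _ fun hc => b hc.1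
      rw [f2, f3]; ring
  · have f1 : res (F.rest E).μ R ω = 0 := res_neg _ _ _ a
    have f3 : res F.μ (fun ω => E ω ∧ R ω) ω = 0 := res_neg _ _ _ fun hc => a hc.2
    rw [f1, f3]; ring

theorem rest_swap (F : FSp) (E R : F.Ω → Prop) (h : F.pb (fun ω => E ω ∧ R ω) ≠ 0) :
    ((F.rest E).rest R).μ = ((F.rest R).rest E).μ := by
  have h1 : (fun ω => R ω ∧ E ω) = fun ω => E ω ∧ R ω := funext fun ω => propext and_comm
  rw [rest_rest F E R h, rest_rest F R E (by rw [h1]; exact h), h1]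

/-- null informations on events of positive probability -/
theorem nul_rest {S : Sp} (E : ∀ k, (S.F k).Ω → Prop) (hE : 0 < ul (S.pr E)) {A B : ∀ k, Setoid (S.F k).Ω}
    (h : Nul S (fun k => I (fc (F := S.F k) (A k)) (fc (B k)) ⊥)) :
    Nul (S.rest E) (fun k => I (fc (F := (S.rest E).F k) (A k)) (fc (B k)) ⊥) := by
  obtain ⟨c, hc0, hc⟩ : ∃ c : ℝ, 0 < c ∧ ∀ᶠ k in UF, c < S.pr E k :=
    ⟨ul (S.pr E) / 2, half_pos hE, (ul_tendsto (UB_pr E)).eventually (lt_mem_nhds (half_lt_self hE))⟩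
  have h1 : Nul S (fun k => c⁻¹ * (I (fc (F := S.F k) (A k)) (fc (B k)) ⊥ + 1)) := by
    apply Nul.const_mul
    apply Nul.add h
    exact div_n_tendsto S 1
  refine Nul.of_le (S := S.rest E) h1 (Eventually.of_forall fun k => I_nonneg _ _ _) ?_
  filter_upwards [hc] with k hk
  have h2 := (S.F k).rmap_I_le (E k) (fc (A k)) (fc (B k)) ⊥
  have h3 : 0 ≤ I (fc (F := (S.rest E).F k) (A k)) (fc (B k)) ⊥ := I_nonneg _ _ _
  have h4 : (S.F k).pb (E k) * I (fc (F := (S.rest E).F k) (A k)) (fc (B k)) ⊥ ≤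
      I (fc (F := S.F k) (A k)) (fc (B k)) ⊥ + 1 := h2
  have h5 : c < (S.F k).pb (E k) := hk
  rw [← div_eq_inv_mul, le_div_iff₀ hc0, mul_comm]
  exact (mul_le_mul_of_nonneg_right h5.le h3).trans h4

/-- a typical event and other weights -/
theorem exists_tr {W : Sp} (F : ∀ k, (W.F k).Ω → Prop) (hF : Sp.Typ F) (hF0 : 0 < ul (W.pr F))
    (ν : ∀ k, ((W.rest F).F k).Ω → ℝ) (n0 : ∀ k ω, 0 ≤ ν k ω) (m1 : ∀ k, mass (ν k) = 1)
    (hν : ∀ᶠ k in UF, ν k = ((W.rest F).F k).μ) : ∃ (ψ : QS W →+* QS (Mu ν n0 m1)) (Λ : W.L → (Mu ν n0 m1).L),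
      (∀ f r, dg (ψ f) r = Λ (dg f r)) ∧
      (∀ x y, Pool.Agent.Helper31.EC.h (Λ x) (Λ y) = Pool.Agent.Helper31.EC.h x y) ∧
      (∀ x y, Λ (x ⊔ y) = Λ x ⊔ Λ y) ∧ (Λ ⊥ = ⊥) ∧ (∀ x y, x ≤ y → Λ x ≤ Λ y) ∧
      (∀ (ι : Type) [Fintype ι] (f : ι → QS W) (r : ℝ), vd (fun i => ψ (f i)) r = Λ (vd f r)) ∧
      (∀ (al : ℕ → Type) (X : ∀ k, (W.F k).Ω → al k), Λ (io X) ≤ io (S := Mu ν n0 m1) X) ∧
      (∀ f : TR W, ∃ hf, ψ (QS.mk f) = QS.mk (⟨f.1, hf⟩ : TR (Mu ν n0 m1))) ∧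
      ∀ B C : ∀ k, Setoid (W.F k).Ω, Nul W (fun k => I (fc (F := W.F k) (B k)) (fc (C k)) ⊥) →
        Nul (Mu ν n0 m1) (fun k => I (fc (F := (Mu ν n0 m1).F k) (B k)) (fc (C k)) ⊥) := by
  refine ⟨(mQ ν n0 m1 hν).comp (QS.rest F hF0), fun x => mL ν n0 m1 hν (restL F hF0 x), ?_, ?_, ?_, ?_, ?_, ?_, ?_, ?_, ?_⟩
  · intro f r
    show dg (mQ ν n0 m1 hν (QS.rest F hF0 f)) r = mL ν n0 m1 hν (restL F hF0 (dg f r))
    rw [mQ_dg, QS.rest_dg]
  · intro x y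
    show Pool.Agent.Helper31.EC.h (mL ν n0 m1 hν (restL F hF0 x)) (mL ν n0 m1 hν (restL F hF0 y)) = _
    rw [mL_h, h_restL_typ F hF]
  · intro x y
    show mL ν n0 m1 hν (restL F hF0 (x ⊔ y)) = mL ν n0 m1 hν (restL F hF0 x) ⊔ mL ν n0 m1 hν (restL F hF0 y)
    rw [restL_sup, mL_sup]
  · show mL ν n0 m1 hν (restL F hF0 ⊥) = _
    rw [restL_bot, mL_bot]
  · intro x y h
    exact mL_mono ν n0 m1 hν (restL_mono F hF0 h)
  · intro ι _ f r
    show vd (fun i => mQ ν n0 m1 hν (QS.rest F hF0 (f i))) r = mL ν n0 m1 hν (restL F hF0 (vd f r))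
    rw [mQ_vd, QS.rest_vd]
  · intro al X
    have h1 : restL F hF0 (io X) ≤ io (S := W.rest F) X := by
      by_cases hX : Bdd X
      · exact (restL_io F hF0 hX).le
      · have h2 : io X = ⊥ := by
          unfold io
          rw [dif_neg hX]
        rw [h2, restL_bot]
        exact _root_.bot_le
    exact (mL_mono ν n0 m1 hν h1).trans (mL_io_le ν n0 m1 hν X)
  · intro f
    exact ⟨(mT ν n0 m1 hν (TR.rest F f)).2, rfl⟩
  · intro B C hBC
    exact Mu_Nul ν n0 m1 hν (nul_rest F hF0 hBC)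

/-- A TYPICAL EVENT FIRST: an event of the space and the same event of a typical event -/
theorem exists_swap {T : Sp} (A F : ∀ k, (T.F k).Ω → Prop) (hA : 0 < ul (T.pr A)) (hF0 : 0 < ul (T.pr F))
    (hF : Sp.Typ F) : ∃ (hA3 : 0 < ul ((T.rest F).pr A)) (ψ : QS (T.rest A) →+* QS ((T.rest F).rest A))
      (Λ : (T.rest A).L → ((T.rest F).rest A).L), (∀ f r, dg (ψ f) r = Λ (dg f r)) ∧
      (∀ x y, Pool.Agent.Helper31.EC.h (Λ x) (Λ y) = Pool.Agent.Helper31.EC.h x y) ∧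
      (∀ x y, Λ (x ⊔ y) = Λ x ⊔ Λ y) ∧ (Λ ⊥ = ⊥) ∧ (∀ x y, x ≤ y → Λ x ≤ Λ y) ∧
      (∀ (ι : Type) [Fintype ι] (f : ι → QS (T.rest A)) (r : ℝ), vd (fun i => ψ (f i)) r = Λ (vd f r)) ∧
      (∀ (al : ℕ → Type) (X : ∀ k, (T.F k).Ω → al k),
        Λ (io (S := T.rest A) X) ≤ io (S := (T.rest F).rest A) X) ∧
      (∀ f : QS T, ψ (QS.rest A hA f) = QS.rest (S := T.rest F) A hA3 (QS.rest F hF0 f)) ∧
      ∀ B C : ∀ k, Setoid (T.F k).Ω, Nul (T.rest A) (fun k => I (fc (F := (T.rest A).F k) (B k)) (fc (C k)) ⊥) →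
        Nul ((T.rest F).rest A) (fun k => I (fc (F := ((T.rest F).rest A).F k) (B k)) (fc (C k)) ⊥) := by
  have hFW : Sp.Typ (S := T.rest A) F := hF.rest A hA
  have hFW1 : ul ((T.rest A).pr F) = 1 := ul_eq ((Typ_iff (S := T.rest A) F).mp hFW)
  have hFW0 : 0 < ul ((T.rest A).pr F) := by rw [hFW1]; exact one_pos
  obtain ⟨c, hc0, hc⟩ : ∃ c : ℝ, 0 < c ∧ ∀ᶠ k in UF, c < T.pr A k :=
    ⟨ul (T.pr A) / 2, half_pos hA, (ul_tendsto (UB_pr A)).eventually (lt_mem_nhds (half_lt_self hA))⟩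
  have hFe : ∀ᶠ k in UF, 1 / 2 < (T.rest A).pr F k :=
    (ul_tendsto (UB_pr (S := T.rest A) F)).eventually (lt_mem_nhds (by rw [hFW1]; norm_num))
  have hev : ∀ᶠ k in UF, c * (1 / 2) < (T.F k).pb (fun ω => A k ω ∧ F k ω) := by
    filter_upwards [hc, hFe] with k h1 h2
    rw [← pb_rest]
    have h3 : c < (T.F k).pb (A k) := h1
    have h4 : 1 / 2 < ((T.F k).rest (A k)).pb (F k) := h2
    exact mul_lt_mul'' h3 h4 hc0.le (by norm_num)
  have hA3 : 0 < ul ((T.rest F).pr A) := by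
    refine lt_of_lt_of_le (mul_pos hc0 (by norm_num : (0 : ℝ) < 1 / 2)) ?_
    apply const_le_ul (UB_pr (S := T.rest F) A)
    filter_upwards [hev] with k hk
    have h1 := pb_rest (T.F k) (F k) (A k)
    have h2 : (fun ω => F k ω ∧ A k ω) = fun ω => A k ω ∧ F k ω := funext fun ω => propext and_comm
    rw [h2] at h1
    rw [← h1] at hk
    have h3 := (T.F k).pb_le_one (F k)
    have h4 : 0 ≤ ((T.F k).rest (F k)).pb (A k) := FSp.pb_nonneg _ _
    have h5 : (T.F k).pb (F k) * ((T.F k).rest (F k)).pb (A k) ≤ 1 * ((T.F k).rest (F k)).pb (A k) :=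
      mul_le_mul_of_nonneg_right h3 h4
    rw [one_mul] at h5
    exact hk.le.trans h5
  refine ⟨hA3, ?_⟩
  have hν : ∀ᶠ k in UF, (((T.rest F).rest A).F k).μ = (((T.rest A).rest F).F k).μ := by
    filter_upwards [hev] with k hk
    exact (rest_swap (T.F k) (A k) (F k) (lt_trans (mul_pos hc0 (by norm_num)) hk).ne').symm
  obtain ⟨ψ, Λ, a1, a2, a3, a4, a5, a6, a7, a8, a9⟩ := exists_tr (W := T.rest A) F hFW hFW0
    (fun k => (((T.rest F).rest A).F k).μ) (fun k => (((T.rest F).rest A).F k).nn)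
    (fun k => (((T.rest F).rest A).F k).ms) hν
  refine ⟨ψ, Λ, a1, a2, a3, a4, a5, a6, a7, fun f => ?_, a9⟩
  obtain ⟨f, rfl⟩ := mk_surj f
  obtain ⟨hf, h1⟩ := a8 (TR.rest A f)
  exact h1

/-- STQE FOR POINTS ATTACHED ON A TYPICAL EVENT -/
theorem stqe_typ {S S0 : Sp} {E : ∀ k, (S.F k).Ω → Prop} (hE : 0 < ul (S.pr E)) (hty : Sp.Typ E)
    (π : Pj (S.rest E) S0) {M M' : ℕ} {E0 : ℕ → ℕ} {ιs ι ν : Type} [Fintype ι] [Fintype ν]
    (s : MSys S0 M E0 ιs) (hs : ∀ (T : Sp) (p : Pj T S0) (E : ∀ k, (T.F k).Ω → Prop) (hE : 0 < ul (T.pr E)),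
      QF (s.im p E hE) M') (hc : Fintype.card ι + Fintype.card ν = M' + 1)
    (q : ι → QS S) (R : ν → QS S) (L : ι ⊕ ν → MvPolynomial (Fin M) (QS (S.rest E))) (hL : ∀ i, L i ∈ PK ⊥)
    (LI : Fin M → MvPolynomial (ι ⊕ ν) (QS (S.rest E))) (hLI : ∀ i, MvPolynomial.bind₁ LI (L i) = MvPolynomial.X i)
    (hpt : ∀ i, QS.rest E hE (Sum.elim q R i) = MvPolynomial.eval (fun j => π.qs (cq s.Q j)) (L i))
    (w : ν → ℝ) (H : ν → MvPolynomial (ι ⊕ ν) (QS S)) (hH : ∀ j, H j ∈ PK ⊥)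
    (low : ∀ j n, (H j).coeff n ≠ 0 → ∀ l, n (Sum.inr l) ≠ 0 → w l < w j) :
    Pool.Agent.Helper13.AM.STQE q (fun j => R j - MvPolynomial.eval (Sum.elim q R) (H j)) 1 := by
  intro T p A hA al U hU v a ha hvU k hk0 hk1
  -- events
  have hFt : Sp.Typ (fun k ω => E k (p.π k ω)) := by
    rw [Typ_iff] at hty ⊢
    refine Tendsto.congr (fun k => ?_) hty
    exact (Pool.Agent.Helper95.RIG.pr_pull p E k).symm
  have hF0 : 0 < ul (T.pr (fun k ω => E k (p.π k ω))) := ul_pr_typ_pos _ hFt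
  obtain ⟨hA3, ψ, Λ, a1, a2, a3, a4, a5, a6, a7, a8, a9⟩ := exists_swap A (fun k ω => E k (p.π k ω)) hA hF0 hFt
  obtain ⟨φ, hφ⟩ : ∃ φ : QS S →+* QS (T.rest A), φ = (QS.rest A hA).comp p.qs := ⟨_, rfl⟩
  obtain ⟨χ, hχ⟩ : ∃ χ : QS (S.rest E) →+* QS ((T.rest fun k ω => E k (p.π k ω)).rest A), χ =
    (QS.rest (S := T.rest fun k ω => E k (p.π k ω)) A hA3).comp (rsP p E).qs := ⟨_, rfl⟩
  have hχφ : ∀ f : QS S, χ (QS.rest E hE f) = ψ (φ f) := by
    intro f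
    rw [hχ, hφ]
    show QS.rest (S := T.rest fun k ω => E k (p.π k ω)) A hA3 ((rsP p E).qs (QS.rest E hE f)) =
      ψ (QS.rest A hA (p.qs f))
    rw [rsP_qs, a8]
  have hφd : ∀ f r, dg (φ f) r = restL A hA (p.map (dg f r)) := by
    intro f r
    rw [hφ]
    show dg (QS.rest A hA (p.qs f)) r = _
    rw [QS.rest_dg, p.qs_dg]
  have hψφK : ∀ {σ : Type} {P : MvPolynomial σ (QS S)}, P ∈ PK ⊥ → MvPolynomial.map (ψ.comp φ) P ∈ PK ⊥ := by
    intro σ P hP m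
    rw [MvPolynomial.coeff_map]
    show dg (ψ (φ (P.coeff m))) 1 ≤ ⊥
    rw [a1, hφd, le_antisymm (hP m) _root_.bot_le, p.map_bot, restL_bot, a4]
  have hχK : ∀ {σ : Type} {P : MvPolynomial σ (QS (S.rest E))}, P ∈ PK ⊥ → MvPolynomial.map χ P ∈ PK ⊥ := by
    intro σ P hP m
    rw [MvPolynomial.coeff_map, hχ]
    have h1 : dg ((rsP p E).qs (P.coeff m)) 1 = ⊥ := by
      rw [(rsP p E).qs_dg, le_antisymm (hP m) _root_.bot_le, (rsP p E).map_bot]
    have h2 := QS.rest_dg (S := T.rest fun k ω => E k (p.π k ω)) A hA3 ((rsP p E).qs (P.coeff m)) 1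
    rw [h1] at h2
    exact h2.le
  obtain ⟨pF, hpF⟩ : ∃ pF : Pj (T.rest fun k ω => E k (p.π k ω)) S0, pF = (rsP p E).comp π := ⟨_, rfl⟩
  have hpt' : ∀ i, ψ (φ (Sum.elim q R i)) = MvPolynomial.eval (fun j => (imq pF A).qs
      (cq (s.im pF A hA3).Q j)) (MvPolynomial.map χ (L i)) := by
    intro i
    have h1 : (fun j => (imq pF A).qs (cq (s.im pF A hA3).Q j)) = fun j => χ (π.qs (cq s.Q j)) := by
      funext j
      rw [hχ, hpF]
      rfl
    rw [← hχφ, hpt, h1]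
    exact MvPolynomial.map_eval χ _ _
  have hU' : Nul ((T.rest fun k ω => E k (p.π k ω)).rest A) (fun k => I (fc (F := ((T.rest fun k ω =>
      E k (p.π k ω)).rest A).F k) (Setoid.ker (U k))) (fc (Setoid.ker ((imq pF A).π k))) ⊥) := by
    refine (a9 _ _ hU).of_le (Eventually.of_forall fun k => I_nonneg _ _ _) (Eventually.of_forall fun k => ?_)
    apply I_mono_right
    rw [sup_bot_eq]
    apply fc_mono
    intro ω ω' h
    have h' : p.π k ω = p.π k ω' := h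
    rw [hpF]
    show π.π k (p.π k ω) = π.π k (p.π k ω')
    rw [h']
  have h2 := quo_core (imq pF A) (s.im pF A hA3) (hs _ pF A hA3) hc
    (fun i => MvPolynomial.map χ (L i)) (fun i => hχK (hL i)) (fun j => MvPolynomial.map χ (LI j)) (fun i => by
      rw [← MvPolynomial.map_bind₁, hLI, MvPolynomial.map_X]) w (fun j => MvPolynomial.map (ψ.comp φ) (H j))
    (fun j => hψφK (hH j)) (fun j n hn l hl => low j n (by
        intro h0
        rw [MvPolynomial.coeff_map, h0, map_zero] at hn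
        exact hn rfl) l hl) U hU' (fun j => ψ (v j)) a (ha.map ψ) (by
        rw [a6]
        exact (a5 _ _ hvU).trans (a7 al U)) (fun i => ψ (φ (Sum.elim q R i))) hpt'
  obtain ⟨z, hz⟩ : ∃ z : ν → QS (T.rest A), z = fun j => φ (R j - MvPolynomial.eval (Sum.elim q R) (H j)) := ⟨_, rfl⟩
  have e1 : (Pool.Agent.Helper96.FWC.wg (fun j => ψ (φ (Sum.elim q R (Sum.inr j))) -
      MvPolynomial.eval (fun i => ψ (φ (Sum.elim q R i))) (MvPolynomial.map (ψ.comp φ) (H j))) (fun j => ψ (v j)) a) =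
      fun i => ψ (Pool.Agent.Helper96.FWC.wg z v a i) := by
    have h3 : ∀ j, ψ (φ (Sum.elim q R (Sum.inr j))) -
      MvPolynomial.eval (fun i => ψ (φ (Sum.elim q R i))) (MvPolynomial.map (ψ.comp φ) (H j)) = ψ (z j) := by
      intro j
      have h4 : MvPolynomial.eval (fun i => ψ (φ (Sum.elim q R i))) (MvPolynomial.map (ψ.comp φ) (H j)) =
          ψ (φ (MvPolynomial.eval (Sum.elim q R) (H j))) := (MvPolynomial.map_eval (ψ.comp φ) _ _).symm
      rw [h4, ← map_sub, ← map_sub, hz]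
      rfl
    funext i
    show (ψ (φ (Sum.elim q R (Sum.inr i))) -
      MvPolynomial.eval (fun i => ψ (φ (Sum.elim q R i))) (MvPolynomial.map (ψ.comp φ) (H i))) * ψ (v a) -
      (ψ (φ (Sum.elim q R (Sum.inr a))) -
      MvPolynomial.eval (fun i => ψ (φ (Sum.elim q R i))) (MvPolynomial.map (ψ.comp φ) (H a))) * ψ (v i) =
      ψ (z i * v a - z a * v i)
    rw [h3, h3, map_sub, map_mul, map_mul]
  rw [e1, a6, a6, a6, ← a3, a2] at h2
  have e2 : vd (fun b => φ (Sum.elim q R (Sum.inl b))) 1 = restL A hA (p.map (vd q 1)) := by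
    rw [← p.qs_vd, ← QS.rest_vd, hφ]
    rfl
  have h3 : ((Fintype.card ι + Fintype.card ν : ℕ) : ℝ) - 1 = M' := by
    rw [hc]
    push_cast
    ring
  rw [← h3] at h2
  have h5 := wg_level (fun b => φ (Sum.elim q R (Sum.inl b))) z v a h2 hk0 hk1
  rw [e2] at h5
  rw [hz, hφ] at h5
  exact h5

end

end Pool.Agent.Helper24.PR
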